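import Pool.Agent.Lib.MP_e43fce_nt.Steer

/-!
# Steering, second part: the modulus prime to six, the power of two, and the conclusion
-/

namespace Pool.Agent.Lib.MP_e43fce_nt.KL

/-- A map on residues that is realised by backward steps of total cost `t`. -/
def Step (N t : ℕ) (F : ZMod N → ZMod N) : Prop :=
  ∀ (m K L B : ℕ) (y : ℤ) (c : ZMod N), Hit N m K L 0 (B + t) y c →
    Hit N m (2 ^ t * K) (L + 2 * t) 0 B y (F c)

lemma Step.comp {N s t : ℕ} {F G : ZMod N → ZMod N} (hF : Step N s F) (hG : Step N t G) :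
    Step N (s + t) (F ∘ G) := by
  intro m K L B y c h
  have h1 := hG m K L (B + s) y c (by rwa [show B + s + t = B + (s + t) by ring])
  have h2 := hF m _ _ B y _ h1
  refine h2.mono ?_ ?_ le_rfl
  · apply le_of_eq; ring
  · apply le_of_eq; ring

lemma Step.iter {N t : ℕ} {F : ZMod N → ZMod N} (hF : Step N t F) (j : ℕ) :
    Step N (t * j) F^[j] := by
  induction j with
  | zero =>
    intro m K L B y c h
    simpa using h
  | succ j ih =>
    rw [Function.iterate_succ, Nat.mul_succ]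
    exact ih.comp hF

lemma step_two (N : ℕ) : Step N 1 (fun c => 2 * c) := by
  intro m K L B y c h z _
  obtain ⟨z0, hz0⟩ := exists_solve (show ¬ (3 : ℤ) ∣ 2 by omega) (B + 1) z
  obtain ⟨n, a1, a2, ⟨k, hk, a3⟩, ⟨q, a4⟩, a5⟩ := h z0 (by simp)
  refine ⟨2 * n, by omega, ?_, ⟨k + 1, by omega, ?_⟩, ?_, ?_⟩
  · calc 2 * n ≤ 2 * (K * m) := by omega
      _ = _ := by ring
  · rw [Function.iterate_succ_apply, col_two_mul, a3]
  · obtain ⟨p, hp⟩ := hz0
    refine ⟨3 * (p + 2 * q), ?_⟩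
    push_cast
    rw [pow_succ] at hp a4
    linear_combination hp + 2 * a4
  · push_cast
    rw [a5]

lemma step_g {N : ℕ} (h3 : IsUnit (3 : ZMod N)) :
    Step N 1 (fun c => (2 * c - 1) * (3 : ZMod N)⁻¹) := by
  intro m K L B y c h z _
  obtain ⟨z0, hz0⟩ := exists_solve (not_dvd_two_pow 1) (B + 1) (3 * z + 1)
  obtain ⟨n, a1, a2, ⟨k, hk, a3⟩, a4, a5⟩ := back_step le_rfl h3 hz0 (h z0 (by simp))
  refine ⟨n, a1, a2, ⟨k, by omega, a3⟩, a4, ?_⟩
  rw [a5, pow_one]

/-- The two maps as permutations. -/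
noncomputable def permTwo {N : ℕ} (h2 : IsUnit (2 : ZMod N)) : Equiv.Perm (ZMod N) where
  toFun c := 2 * c
  invFun c := (2 : ZMod N)⁻¹ * c
  left_inv c := by
    have := ZMod.inv_mul_of_unit _ h2
    linear_combination c * this
  right_inv c := by
    have := ZMod.inv_mul_of_unit _ h2
    linear_combination c * this

noncomputable def permG {N : ℕ} (h2 : IsUnit (2 : ZMod N)) (h3 : IsUnit (3 : ZMod N)) :
    Equiv.Perm (ZMod N) where
  toFun c := (2 * c - 1) * (3 : ZMod N)⁻¹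
  invFun c := (3 * c + 1) * (2 : ZMod N)⁻¹
  left_inv c := by
    have e2 := ZMod.inv_mul_of_unit _ h2
    have e3 := ZMod.inv_mul_of_unit _ h3
    linear_combination (2 * c - 1) * (2 : ZMod N)⁻¹ * e3 + c * e2
  right_inv c := by
    have e2 := ZMod.inv_mul_of_unit _ h2
    have e3 := ZMod.inv_mul_of_unit _ h3
    linear_combination (3 * c + 1) * (3 : ZMod N)⁻¹ * e2 + c * e3

/-- Translation by `-1/3` has bounded cost. -/
lemma exists_step_translate {N : ℕ} [NeZero N] (h2 : IsUnit (2 : ZMod N))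
    (h3 : IsUnit (3 : ZMod N)) : ∃ t, Step N t (fun c => c - (3 : ZMod N)⁻¹) := by
  set p := orderOf (permTwo h2) with hp
  set q := orderOf (permG h2 h3) with hq
  have hp0 : 0 < p := orderOf_pos _
  have hq0 : 0 < q := orderOf_pos _
  have inv2 : ∀ c, (fun c : ZMod N => 2 * c)^[p - 1] c = (2 : ZMod N)⁻¹ * c := by
    intro c
    have e1 : (permTwo h2) ^ (p - 1) = (permTwo h2)⁻¹ := by
      apply eq_inv_of_mul_eq_one_left
      rw [← pow_succ, Nat.sub_add_cancel hp0]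
      exact pow_orderOf_eq_one _
    have e2 : ((permTwo h2) ^ (p - 1)) c = (fun c : ZMod N => 2 * c)^[p - 1] c := by
      rw [Equiv.Perm.coe_pow]; rfl
    rw [← e2, e1]; rfl
  have invg : ∀ c, (fun c : ZMod N => (2 * c - 1) * (3 : ZMod N)⁻¹)^[q - 1] c =
      (3 * c + 1) * (2 : ZMod N)⁻¹ := by
    intro c
    have e1 : (permG h2 h3) ^ (q - 1) = (permG h2 h3)⁻¹ := by
      apply eq_inv_of_mul_eq_one_left
      rw [← pow_succ, Nat.sub_add_cancel hq0]
      exact pow_orderOf_eq_one _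
    have e2 : ((permG h2 h3) ^ (q - 1)) c =
        (fun c : ZMod N => (2 * c - 1) * (3 : ZMod N)⁻¹)^[q - 1] c := by
      rw [Equiv.Perm.coe_pow]; rfl
    rw [← e2, e1]; rfl
  have S := (step_two N).comp ((step_g h3).comp (((step_two N).iter (p - 1)).comp
    ((step_g h3).iter (q - 1))))
  have hT : ((fun c : ZMod N => 2 * c) ∘ (fun c => (2 * c - 1) * (3 : ZMod N)⁻¹) ∘
      (fun c => 2 * c)^[p - 1] ∘ (fun c => (2 * c - 1) * (3 : ZMod N)⁻¹)^[q - 1]) =
      fun c => c - (3 : ZMod N)⁻¹ := by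
    funext c
    simp only [Function.comp_apply, invg, inv2]
    have i2 := ZMod.inv_mul_of_unit _ h2
    have i3 := ZMod.inv_mul_of_unit _ h3
    linear_combination ((1 + 2 * (2 : ZMod N)⁻¹) * (3 * c + 1) * (3 : ZMod N)⁻¹) * i2 + c * i3
  rw [hT] at S
  exact ⟨_, S⟩

theorem steer_odd {N : ℕ} (hN : 0 < N) (h2N : Nat.Coprime 2 N) (h3N : Nat.Coprime 3 N) (B : ℕ) :
    ∃ K L : ℕ, ∀ m : ℕ, 0 < m → ¬ 3 ∣ m → ∀ (z : ℤ) (c : ZMod N), ∃ n : ℕ, 0 < n ∧ n ≤ K * m ∧
      (∃ k ≤ L, col^[k] n = m) ∧ (3 : ℤ) ^ B ∣ (n : ℤ) - z ∧ (n : ZMod N) = c := by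
  have : NeZero N := ⟨hN.ne'⟩
  have h2 : IsUnit (2 : ZMod N) := by
    have := (ZMod.isUnit_iff_coprime 2 N).2 h2N
    exact_mod_cast this
  have h3 : IsUnit (3 : ZMod N) := by
    have := (ZMod.isUnit_iff_coprime 3 N).2 h3N
    exact_mod_cast this
  -- the period
  set H : ℕ := 2 * Nat.totient N with hH
  have hH0 : 0 < Nat.totient N := Nat.totient_pos.2 hN
  have h2H : (2 : ZMod N) ^ H = 1 := by
    have h := ZMod.pow_totient (ZMod.unitOfCoprime 2 h2N)
    have h' := congrArg (Units.val) h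
    rw [Units.val_pow_eq_pow_val, ZMod.coe_unitOfCoprime] at h'
    rw [hH, mul_comm, pow_mul]
    push_cast at h'
    rw [h', one_pow]
  obtain ⟨e, v, hv, hev⟩ := Nat.exists_eq_pow_mul_and_not_dvd (n := 2 ^ H - 1)
    (by
      have : 2 ^ 2 ≤ 2 ^ H := Nat.pow_le_pow_right (by norm_num) (by omega)
      omega) 3 (by norm_num)
  have h1H : 1 ≤ 2 ^ H := Nat.one_le_two_pow
  have he : 1 ≤ e := by
    by_contra hcon
    have he0 : e = 0 := by omega
    subst he0
    apply hv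
    rw [pow_zero, one_mul] at hev
    rw [← hev]
    have : (4 - 1) ∣ 4 ^ Nat.totient N - 1 := by
      simpa using Nat.sub_dvd_pow_sub_pow 4 1 (Nat.totient N)
    rw [hH, pow_mul]
    simpa using this
  have hv' : ¬ (3 : ℤ) ∣ (v : ℤ) := by
    intro h; apply hv; exact_mod_cast h
  have hHe : (2 : ℤ) ^ H = 1 + 3 ^ e * (v : ℤ) := by
    have : 2 ^ H = 1 + 3 ^ e * v := by omega
    exact_mod_cast this
  -- translation
  obtain ⟨t, ht⟩ := exists_step_translate h2 h3
  refine ⟨2 ^ (t * N) * (2 ^ (6 * e) * 2 ^ (H * 3 ^ (B + t * N))),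
    H * 3 ^ (B + t * N) + 7 * e + 2 * (t * N), ?_⟩
  intro m hm hm3 z c
  have s0 := hit_start (B + t * N) hm hm3 he hv' hHe h2H
  obtain ⟨y', c', s1⟩ := hit_free h3 e _ _ _ _ _ (by exact_mod_cast hm3) s0
  -- choose the number of translations
  set j : ℕ := ((c' - c) * 3).val with hj
  have hjN : j < N := ZMod.val_lt _
  have hiter : ∀ i : ℕ, (fun c : ZMod N => c - (3 : ZMod N)⁻¹)^[i] c' =
      c' - i * (3 : ZMod N)⁻¹ := by
    intro i
    induction i with
    | zero => simp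
    | succ i ih =>
      rw [Function.iterate_succ_apply', ih]
      push_cast
      ring
  have htj : t * j ≤ t * N := Nat.mul_le_mul_left _ hjN.le
  have s2 := (ht.iter j) m _ _ (B + (t * N - t * j)) y' c'
    (by rwa [show B + (t * N - t * j) + t * j = B + t * N by omega])
  have hc : (fun c : ZMod N => c - (3 : ZMod N)⁻¹)^[j] c' = c := by
    rw [hiter, hj, ZMod.natCast_val, ZMod.cast_id]
    have i3 := ZMod.mul_inv_of_unit _ h3
    linear_combination (c - c') * i3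
  rw [hc] at s2
  obtain ⟨n, a1, a2, ⟨k, hk, a3⟩, a4, a5⟩ := s2 z (by simp)
  refine ⟨n, a1, ?_, ⟨k, ?_, a3⟩, (pow_dvd_pow 3 (by omega)).trans a4, a5⟩
  · refine a2.trans (Nat.mul_le_mul_right _ (Nat.mul_le_mul_right _ ?_))
    exact Nat.pow_le_pow_right (by norm_num) htj
  · omega

/-- The residue modulo `2^a` determines a block of steps. -/
lemma two_part (a : ℕ) : ∀ r : ℕ, ∃ σ ρ κ : ℕ, ∀ q : ℕ, col^[κ] (2 ^ a * q + r) = 3 ^ σ * q + ρ := by
  induction a with
  | zero => intro r; exact ⟨0, r, 0, fun q => by simp⟩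
  | succ a ih =>
    intro r
    rcases Nat.even_or_odd' r with ⟨s, rfl | rfl⟩
    · obtain ⟨σ, ρ, κ, h⟩ := ih s
      refine ⟨σ, ρ, κ + 1, fun q => ?_⟩
      rw [Function.iterate_succ_apply, show 2 ^ (a + 1) * q + 2 * s = 2 * (2 ^ a * q + s) by ring,
        col_two_mul, h]
    · obtain ⟨σ, ρ, κ, h⟩ := ih (3 * s + 2)
      refine ⟨σ + 1, ρ, κ + 2, fun q => ?_⟩
      rw [Function.iterate_add_apply]
      have e : col^[2] (2 ^ (a + 1) * q + (2 * s + 1)) = 2 ^ a * (3 * q) + (3 * s + 2) := by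
        rw [Function.iterate_succ_apply, Function.iterate_one,
          col_odd (b := 2 ^ (a + 1) * q + (2 * s + 1)) (a := 2 ^ a * (3 * q) + (3 * s + 2))
            (by ring), col_two_mul]
      rw [e, h]
      ring

lemma col_le {n : ℕ} (hn : 0 < n) : col n ≤ 4 * n := by
  unfold col
  split_ifs <;> omega

lemma col_pos {n : ℕ} (hn : 0 < n) : 0 < col n := by
  unfold col
  split_ifs <;> omega

lemma col_iter_le (k : ℕ) : ∀ {n : ℕ}, 0 < n → col^[k] n ≤ 4 ^ k * n := by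
  induction k with
  | zero => intro n _; simp
  | succ k ih =>
    intro n hn
    rw [Function.iterate_succ_apply]
    calc col^[k] (col n) ≤ 4 ^ k * col n := ih (col_pos hn)
      _ ≤ 4 ^ k * (4 * n) := Nat.mul_le_mul_left _ (col_le hn)
      _ = _ := by ring

theorem steer (M r : ℕ) (hM : 0 < M) :
    ∃ K L m0 : ℕ, 0 < K ∧ ∀ m : ℕ, m0 ≤ m → ¬ 3 ∣ m → ∃ n : ℕ, 0 < n ∧ n ≤ K * m ∧
      n % M = r % M ∧ ∃ k ≤ L, col^[k] n = m := by
  obtain ⟨a, M1, hM1, rfl⟩ := Nat.exists_eq_pow_mul_and_not_dvd hM.ne' 2 (by norm_num)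
  have hM1pos : 0 < M1 := by
    rcases Nat.eq_zero_or_pos M1 with h | h
    · subst h; simp at hM
    · exact h
  obtain ⟨b, N, hN, rfl⟩ := Nat.exists_eq_pow_mul_and_not_dvd hM1pos.ne' 3 (by norm_num)
  have hNpos : 0 < N := by
    rcases Nat.eq_zero_or_pos N with h | h
    · subst h; simp at hM1pos
    · exact h
  have h3N : Nat.Coprime 3 N := (Nat.Prime.coprime_iff_not_dvd Nat.prime_three).2 hN
  have h2N : Nat.Coprime 2 N := by
    rw [Nat.Prime.coprime_iff_not_dvd Nat.prime_two]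
    intro h
    exact hM1 (h.mul_left _)
  set M : ℕ := 2 ^ a * (3 ^ b * N) with hMdef
  obtain ⟨σ, ρ, κ, hκ⟩ := two_part a (r % M)
  obtain ⟨K, L, hKL⟩ := steer_odd hNpos h2N h3N (σ + b)
  refine ⟨2 * M * (K + 1), κ + L, 4 ^ L * (ρ + 1), by positivity, ?_⟩
  intro m hm0 hm3
  have hmpos : 0 < m := lt_of_lt_of_le (by positivity) hm0
  obtain ⟨n', b1, b2, ⟨k, hk, b3⟩, b4, b5⟩ := hKL m hmpos hm3 (ρ : ℤ) (ρ : ZMod N)
  -- `n'` is large
  have hn' : ρ + 1 ≤ n' := by
    have h1 : m ≤ 4 ^ L * n' := by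
      calc m = col^[k] n' := b3.symm
        _ ≤ 4 ^ k * n' := col_iter_le k b1
        _ ≤ 4 ^ L * n' := Nat.mul_le_mul_right _ (Nat.pow_le_pow_right (by norm_num) hk)
    have h2 : 4 ^ L * (ρ + 1) ≤ 4 ^ L * n' := hm0.trans h1
    exact Nat.le_of_mul_le_mul_left h2 (by positivity)
  have hd3 : 3 ^ (σ + b) ∣ n' - ρ := by
    have : ((3 ^ (σ + b) : ℕ) : ℤ) ∣ ((n' - ρ : ℕ) : ℤ) := by
      rw [Nat.cast_sub (by omega)]
      push_cast
      exact b4
    exact_mod_cast this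
  have hdN : N ∣ n' - ρ := by
    have := (ZMod.natCast_eq_natCast_iff' ρ n' N).1 b5.symm
    exact (Nat.modEq_iff_dvd' (by omega)).1 this
  have hcop : Nat.Coprime (3 ^ (σ + b)) N := Nat.Coprime.pow_left _ h3N
  obtain ⟨q, hq⟩ := hcop.mul_dvd_of_dvd_of_dvd hd3 hdN
  have hqpos : 0 < q := by
    rcases Nat.eq_zero_or_pos q with h | h
    · subst h; omega
    · exact h
  refine ⟨2 ^ a * (3 ^ b * N * q) + r % M, ?_, ?_, ?_, κ + k, by omega, ?_⟩
  · have : 0 < 2 ^ a * (3 ^ b * N * q) := by positivity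
    omega
  · have h1 : r % M < M := Nat.mod_lt _ hM
    have h2 : 2 ^ a * (3 ^ b * N * q) = M * q := by rw [hMdef]; ring
    have h3 : q ≤ n' := by
      have h4 : q ≤ 3 ^ (σ + b) * N * q := Nat.le_mul_of_pos_left _ (by positivity)
      omega
    rw [h2]
    calc M * q + r % M ≤ M * q + M * 1 := by omega
      _ ≤ M * q + M * q := by
          apply Nat.add_le_add_left
          exact Nat.mul_le_mul_left _ hqpos
      _ = 2 * M * q := by ring
      _ ≤ 2 * M * n' := Nat.mul_le_mul_left _ h3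
      _ ≤ 2 * M * (K * m) := Nat.mul_le_mul_left _ b2
      _ ≤ 2 * M * (K + 1) * m := by nlinarith
  · rw [show 2 ^ a * (3 ^ b * N * q) = M * q by rw [hMdef]; ring, Nat.mul_add_mod, Nat.mod_mod]
  · rw [Nat.add_comm κ k, Function.iterate_add_apply, hκ]
    have : 3 ^ σ * (3 ^ b * N * q) + ρ = n' := by
      have : 3 ^ (σ + b) * N * q = 3 ^ σ * (3 ^ b * N * q) := by ring
      omega
    rw [this, b3]

end Pool.Agent.Lib.MP_e43fce_nt.KL
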