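/-!
# The Boolean check of the certificate

Everything is written with bare recursors and `Nat` operations, for fast kernel evaluation.
A chunk `X` packs `6561` entries of `17` bits.
-/

namespace Pool.Agent.Lib.MP_e43fce_nt.KL

noncomputable section

/-- `i`-th element of a list, `0` if out of range. -/
def sel (l : List Nat) : Nat → Nat :=
  List.rec (motive := fun _ => Nat → Nat) (fun _ => 0)
    (fun a _ ih i => Nat.rec (motive := fun _ => Nat) a (fun k _ => ih k) i) l

/-- Ternary conjunction over `3^m` consecutive indices. -/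
def allR (P : Nat → Bool) (m : Nat) : Nat → Bool :=
  Nat.rec (motive := fun _ => Nat → Bool) P
    (fun _ ih i => Bool.rec (motive := fun _ => Bool) false
      (Bool.rec (motive := fun _ => Bool) false (ih (Nat.add (Nat.mul 3 i) 2))
        (ih (Nat.add (Nat.mul 3 i) 1))) (ih (Nat.mul 3 i))) m

/-- The `m` entries from number `a` on. -/
def win (X a m : Nat) : Nat :=
  Nat.land (Nat.shiftRight X (Nat.mul 17 a)) (Nat.sub (Nat.pow 2 (Nat.mul 17 m)) 1)

/-- The first `n` entries followed by all entries again. -/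
def dbl (Y n : Nat) : Nat :=
  Nat.lor (Nat.land Y (Nat.sub (Nat.pow 2 (Nat.mul 17 n)) 1)) (Nat.shiftLeft Y (Nat.mul 17 n))

/-- Check of the three inequalities (one for each lift) for one index of a block. -/
def leaf (XB YB Z0 Z1 Z2 P mult c rho s : Nat) : Bool :=
  (fun lhs A m =>
    Bool.rec (motive := fun _ => Bool) false
      (Bool.rec (motive := fun _ => Bool) false
        (Nat.ble lhs (Nat.add A (Nat.mul P (Nat.land (Nat.shiftRight Z0 m) 131071))))
        (Nat.ble lhs (Nat.add A (Nat.mul P (Nat.land (Nat.shiftRight Z1 m) 131071)))))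
      (Nat.ble lhs (Nat.add A (Nat.mul P (Nat.land (Nat.shiftRight Z2 m) 131071)))))
    (Nat.mul 4194304 (Nat.land (Nat.shiftRight XB (Nat.mul 17 (Nat.add (Nat.mul 3 s) rho))) 131071))
    (Nat.mul 1237876 (Nat.land (Nat.shiftRight YB
      (Nat.mul 17 (Nat.add (Nat.mul 4 (Nat.add (Nat.mul 3 s) rho)) c))) 131071))
    (Nat.mul 17 (Nat.mul mult s))

/-- Check for a residue without an odd branch. -/
def leaf0 (XB YB c rho s : Nat) : Bool :=
  Nat.ble
    (Nat.mul 4194304 (Nat.land (Nat.shiftRight XB (Nat.mul 17 (Nat.add (Nat.mul 3 s) rho))) 131071))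
    (Nat.mul 1237876 (Nat.land (Nat.shiftRight YB
      (Nat.mul 17 (Nat.add (Nat.mul 4 (Nat.add (Nat.mul 3 s) rho)) c))) 131071))

/-- One block of `27` indices. -/
def blk (X Y2 Z0 Z1 Z2 P mult c c1 rho b : Nat) : Bool :=
  allR (leaf (win X (Nat.mul 81 b) 81) (win Y2 (Nat.mod (Nat.mul 324 b) 6561) 324)
    (win Z0 (Nat.mod (Nat.add (Nat.mul mult (Nat.mul 27 b)) c1) 2187) 108)
    (win Z1 (Nat.mod (Nat.add (Nat.mul mult (Nat.mul 27 b)) c1) 2187) 108)
    (win Z2 (Nat.mod (Nat.add (Nat.mul mult (Nat.mul 27 b)) c1) 2187) 108) P mult c rho) 3 0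

/-- One block of `27` indices, no odd branch. -/
def blk0 (X Y2 c rho b : Nat) : Bool :=
  allR (leaf0 (win X (Nat.mul 81 b) 81) (win Y2 (Nat.mod (Nat.mul 324 b) 6561) 324) c rho) 3 0

/-- All `2187` indices `h = 3 h' + rho` of a chunk. -/
def run (X Y Z P mult c c1 rho : Nat) : Bool :=
  allR (blk X (dbl Y 6561) (dbl (win Z 0 2187) 2187) (dbl (win Z 2187 2187) 2187)
    (dbl (win Z 4374 2187) 2187) P mult c c1 rho) 4 0

/-- All `2187` indices `h = 3 h' + rho` of a chunk, no odd branch. -/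
def run0 (X Y c rho : Nat) : Bool :=
  allR (blk0 X (dbl Y 6561) c rho) 4 0

/-- Check of all indices `lo + 729 h` with `h = 3 h' + rho`, by the residue of `lo` modulo `3`. -/
def batch (l : List Nat) (lo rho : Nat) : Bool :=
  Nat.rec (motive := fun _ => Bool)
    -- lo % 3 = 0
    (run (sel l lo) (sel l (Nat.mod (Nat.add (Nat.mul 4 lo) 2) 729))
        (sel l (Nat.mod (Nat.add (Nat.mul 4 (Nat.div lo 3)) (Nat.mul 972 rho)) 729)) 3255955 4
        (Nat.div (Nat.add (Nat.mul 4 lo) 2) 729)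
        (Nat.div (Nat.add (Nat.mul 4 (Nat.div lo 3)) (Nat.mul 972 rho)) 729) rho)
    (fun r _ => Nat.rec (motive := fun _ => Bool)
      -- lo % 3 = 1
      (run0 (sel l lo) (sel l (Nat.mod (Nat.add (Nat.mul 4 lo) 2) 729))
        (Nat.div (Nat.add (Nat.mul 4 lo) 2) 729) rho)
      -- lo % 3 = 2
      (fun _ _ =>
        run (sel l lo) (sel l (Nat.mod (Nat.add (Nat.mul 4 lo) 2) 729))
          (sel l (Nat.mod (Nat.add (Nat.mul 2 (Nat.div lo 3)) (Nat.add 1 (Nat.mul 486 rho))) 729))
          5993351 2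
          (Nat.div (Nat.add (Nat.mul 4 lo) 2) 729)
          (Nat.div (Nat.add (Nat.mul 2 (Nat.div lo 3)) (Nat.add 1 (Nat.mul 486 rho))) 729) rho)
      r)
    (Nat.mod lo 3)

/-- All three values of `rho`. -/
def batch3 (l : List Nat) (lo : Nat) : Bool :=
  Bool.rec (motive := fun _ => Bool) false
    (Bool.rec (motive := fun _ => Bool) false (batch l lo 2) (batch l lo 1)) (batch l lo 0)

end

end Pool.Agent.Lib.MP_e43fce_nt.KL
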