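import Mathlib

/-!
# Lower bounds for backward Collatz trees from a residue certificate

For a weight `w` on residues modulo `3^K` satisfying the Krasikov-Lagarias type inequalities, the
weighted number of integers `n ≤ x` whose Collatz trajectory passes through `a` is at least
`c * w a * (x/a)^γ`.  The proof is a minimal-ratio argument for a discounted count.
-/

namespace Pool.Agent.Lib.MP_e43fce_nt.KL

open Finset

/-- The Collatz map. -/
def col (m : ℕ) : ℕ := if m % 2 = 0 then m / 2 else 3 * m + 1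

/-- Number of `n` in `[1,x]` with `C^k n = a`. -/
def cnt (x k a : ℕ) : ℕ := ((Icc 1 x).filter (fun n => col^[k] n = a)).card

lemma cnt_le (x k a : ℕ) : cnt x k a ≤ x := by
  unfold cnt
  calc _ ≤ (Icc 1 x).card := card_filter_le _ _
    _ = x := by simp

lemma col_two_mul (a : ℕ) : col (2 * a) = a := by
  unfold col; simp

lemma col_odd {b a : ℕ} (h : 3 * b + 1 = 2 * a) : col b = 2 * a := by
  unfold col
  rw [if_neg (by omega), h]

lemma cnt_succ_ge (x k a : ℕ) : cnt x k (2 * a) ≤ cnt x (k + 1) a := by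
  unfold cnt
  apply card_le_card
  intro n hn
  simp only [mem_filter] at hn ⊢
  refine ⟨hn.1, ?_⟩
  rw [Function.iterate_succ_apply', hn.2, col_two_mul]

lemma cnt_two_ge (x k a b : ℕ) (h : 3 * b + 1 = 2 * a) :
    cnt x k (4 * a) + cnt x k b ≤ cnt x (k + 2) a := by
  unfold cnt
  rw [← card_union_of_disjoint]
  · apply card_le_card
    intro n hn
    simp only [mem_union, mem_filter] at hn ⊢
    rcases hn with hn | hn
    · refine ⟨hn.1, ?_⟩
      rw [Function.iterate_succ_apply', Function.iterate_succ_apply', hn.2,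
        show 4 * a = 2 * (2 * a) by ring, col_two_mul, col_two_mul]
    · refine ⟨hn.1, ?_⟩
      rw [Function.iterate_succ_apply', Function.iterate_succ_apply', hn.2, col_odd h,
        col_two_mul]
  · rw [disjoint_filter]
    intro n _ h1 h2
    omega

lemma cnt_zero (x a : ℕ) (h1 : 1 ≤ a) (h2 : a ≤ x) : cnt x 0 a = 1 := by
  unfold cnt
  have : (Icc 1 x).filter (fun n => col^[0] n = a) = {a} := by
    ext n
    rw [mem_filter, mem_Icc, mem_singleton]
    constructor
    · rintro ⟨_, h⟩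
      simpa using h
    · rintro rfl
      exact ⟨⟨h1, h2⟩, rfl⟩
  rw [this]; simp

/-- The discounted count. -/
noncomputable def W (θ : ℝ) (x a : ℕ) : ℝ := ∑' k : ℕ, θ ^ k * (cnt x k a : ℝ)

section
variable {θ : ℝ} (h0 : 0 ≤ θ) (h1 : θ < 1)
include h0 h1

lemma summable_W (x a : ℕ) : Summable (fun k : ℕ => θ ^ k * (cnt x k a : ℝ)) := by
  apply Summable.of_nonneg_of_le (f := fun k : ℕ => θ ^ k * (x : ℝ))
  · intro k; positivity
  · intro k
    apply mul_le_mul_of_nonneg_left _ (by positivity)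
    exact_mod_cast cnt_le x k a
  · exact (summable_geometric_of_lt_one h0 h1).mul_right _

omit h1 in
lemma W_nonneg (x a : ℕ) : 0 ≤ W θ x a := by
  unfold W
  apply tsum_nonneg
  intro k; positivity

lemma W_double (x a : ℕ) : θ * W θ x (2 * a) ≤ W θ x a := by
  have hs := summable_W h0 h1 x a
  have e : W θ x a = θ ^ 0 * (cnt x 0 a : ℝ) + ∑' k : ℕ, θ ^ (k + 1) * (cnt x (k + 1) a : ℝ) := by
    unfold W
    rw [hs.tsum_eq_zero_add]
  rw [e]
  have h2 : θ * W θ x (2 * a) ≤ ∑' k : ℕ, θ ^ (k + 1) * (cnt x (k + 1) a : ℝ) := by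
    unfold W
    rw [← tsum_mul_left]
    apply Summable.tsum_le_tsum
    · intro k
      rw [← mul_assoc, ← pow_succ']
      apply mul_le_mul_of_nonneg_left _ (by positivity)
      exact_mod_cast cnt_succ_ge x k a
    · exact (summable_W h0 h1 x (2 * a)).mul_left θ
    · exact (summable_nat_add_iff 1).2 hs
  have : 0 ≤ θ ^ 0 * (cnt x 0 a : ℝ) := by positivity
  linarith

lemma W_branch (x a b : ℕ) (ha : 1 ≤ a) (hax : a ≤ x) (h : 3 * b + 1 = 2 * a) :
    1 + θ ^ 2 * (W θ x (4 * a) + W θ x b) ≤ W θ x a := by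
  have hs := summable_W h0 h1 x a
  have hs1 := (summable_nat_add_iff 1).2 hs
  have e : W θ x a = θ ^ 0 * (cnt x 0 a : ℝ) + (θ ^ (0 + 1) * (cnt x (0 + 1) a : ℝ) +
      ∑' k : ℕ, θ ^ (k + 1 + 1) * (cnt x (k + 1 + 1) a : ℝ)) := by
    unfold W
    rw [hs.tsum_eq_zero_add, hs1.tsum_eq_zero_add]
  rw [e, cnt_zero x a ha hax]
  have h2 : θ ^ 2 * (W θ x (4 * a) + W θ x b) ≤
      ∑' k : ℕ, θ ^ (k + 1 + 1) * (cnt x (k + 1 + 1) a : ℝ) := by
    unfold W
    rw [← (summable_W h0 h1 x (4 * a)).tsum_add (summable_W h0 h1 x b), ← tsum_mul_left]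
    apply Summable.tsum_le_tsum
    · intro k
      have hk := cnt_two_ge x k a b h
      have hk' : (cnt x k (4 * a) : ℝ) + (cnt x k b : ℝ) ≤ (cnt x (k + 1 + 1) a : ℝ) := by
        exact_mod_cast hk
      calc θ ^ 2 * (θ ^ k * (cnt x k (4 * a) : ℝ) + θ ^ k * (cnt x k b : ℝ))
          = θ ^ (k + 1 + 1) * ((cnt x k (4 * a) : ℝ) + (cnt x k b : ℝ)) := by ring
        _ ≤ _ := mul_le_mul_of_nonneg_left hk' (by positivity)
    · exact ((summable_W h0 h1 x (4 * a)).add (summable_W h0 h1 x b)).mul_left _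
    · exact (summable_nat_add_iff 1).2 hs1
  have : 0 ≤ θ ^ (0 + 1) * (cnt x (0 + 1) a : ℝ) := by positivity
  simp only [pow_zero, Nat.cast_one, one_mul] at *
  linarith

end

/-- The certificate inequality for a real weight. -/
def Cert (θ γ : ℝ) (w : ℕ → ℝ) : Prop :=
  ∀ a : ℕ, a % 3 = 2 → w a ≤ θ ^ 2 * (1 / 4) ^ γ * w (4 * a) +
    (if a % 9 = 2 then θ ^ 3 * (3 / 4) ^ γ * w ((4 * a - 2) / 3)
      else if a % 9 = 8 then θ ^ 2 * (3 / 2) ^ γ * w ((2 * a - 1) / 3) else 0)

theorem W_lower {θ γ M : ℝ} (h0 : 0 < θ) (h1 : θ < 1) (hγ : 0 < γ) (hM : 0 < M) {w : ℕ → ℝ}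
    (hw0 : ∀ a, 0 ≤ w a) (hwM : ∀ a, w a ≤ M) (hc : Cert θ γ w) (x : ℕ) :
    ∀ a, a % 3 = 2 → a ≤ x → (1 / (M * 4 ^ γ)) * (w a * ((x : ℝ) / a) ^ γ) ≤ W θ x a := by
  classical
  by_contra hcon
  push Not at hcon
  obtain ⟨a1, ha1, ha1x, hlt⟩ := hcon
  set δ : ℝ := 1 / (M * 4 ^ γ) with hδ
  have hδpos : 0 < δ := by positivity
  set S : Finset ℕ := (Icc 1 x).filter (fun a => a % 3 = 2 ∧ 0 < w a) with hS
  set g : ℕ → ℝ := fun a => w a * ((x : ℝ) / a) ^ γ with hg
  have hx : (1 : ℝ) ≤ x := by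
    have : 1 ≤ x := by omega
    exact_mod_cast this
  have hgpos : ∀ a ∈ S, 0 < g a := by
    intro a ha
    simp only [hS, mem_filter, mem_Icc] at ha
    have ha0 : (0 : ℝ) < a := by
      have : 0 < a := by omega
      exact_mod_cast this
    simp only [hg]
    have : 0 < (x : ℝ) / a := by positivity
    have h3 := Real.rpow_pos_of_pos this γ
    exact mul_pos ha.2.2 h3
  have ha1S : a1 ∈ S := by
    simp only [hS, mem_filter, mem_Icc]
    refine ⟨⟨by omega, ha1x⟩, ha1, ?_⟩
    by_contra hneg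
    have : w a1 = 0 := le_antisymm (not_lt.mp hneg) (hw0 a1)
    rw [this] at hlt
    have := W_nonneg h0.le x a1
    simp at hlt
    linarith
  obtain ⟨a, haS, hmin⟩ := exists_min_image S (fun a => W θ x a / g a) ⟨a1, ha1S⟩
  set ρ : ℝ := W θ x a / g a with hρ
  have hga := hgpos a haS
  have hρ0 : 0 ≤ ρ := div_nonneg (W_nonneg h0.le x a) hga.le
  have hρδ : ρ < δ := by
    have h2 := hmin a1 ha1S
    have h3 : W θ x a1 / g a1 < δ := by
      rw [div_lt_iff₀ (hgpos a1 ha1S)]
      exact hlt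
    linarith
  have hWa : W θ x a = ρ * g a := by
    rw [hρ]; field_simp
  -- lower bound for all b
  have hlow : ∀ b : ℕ, b % 3 = 2 → b ≤ x → ρ * (w b * ((x : ℝ) / b) ^ γ) ≤ W θ x b := by
    intro b hb hbx
    by_cases hwb : 0 < w b
    · have hbS : b ∈ S := by
        simp only [hS, mem_filter, mem_Icc]
        exact ⟨⟨by omega, hbx⟩, hb, hwb⟩
      have h2 := hmin b hbS
      rw [le_div_iff₀ (hgpos b hbS)] at h2
      exact h2
    · have : w b = 0 := le_antisymm (not_lt.mp hwb) (hw0 b)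
      rw [this]
      have := W_nonneg h0.le x b
      simpa using this
  have haS' := haS
  simp only [hS, mem_filter, mem_Icc] at haS'
  obtain ⟨⟨ha_1, ha_x⟩, ha3, hwa⟩ := haS'
  have ha0 : (0 : ℝ) < a := by exact_mod_cast ha_1
  have hx0 : (0 : ℝ) < x := by linarith
  -- the odd predecessor
  obtain ⟨b, hb⟩ : ∃ b : ℕ, 3 * b + 1 = 2 * a := ⟨(2 * a - 1) / 3, by omega⟩
  have hbr := W_branch h0.le h1 x a b ha_1 ha_x hb
  by_cases h4 : 4 * a ≤ x
  · -- recursive case
    have key : ρ * g a ≤ θ ^ 2 * (W θ x (4 * a) + W θ x b) := by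
      have hca := hc a ha3
      have hP : 0 < ((x : ℝ) / a) ^ γ := Real.rpow_pos_of_pos (by positivity) γ
      have h4a : ρ * (w (4 * a) * ((1 / 4) ^ γ * ((x : ℝ) / a) ^ γ)) ≤ W θ x (4 * a) := by
        have := hlow (4 * a) (by omega) h4
        have e : ((x : ℝ) / ((4 * a : ℕ) : ℝ)) ^ γ = (1 / 4) ^ γ * ((x : ℝ) / a) ^ γ := by
          rw [← Real.mul_rpow (by norm_num) (by positivity)]
          congr 1
          push_cast
          field_simp
        rw [e] at this
        exact this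
      -- branch bound
      have hbr2 : ρ * ((if a % 9 = 2 then θ ^ 3 * (3 / 4) ^ γ * w ((4 * a - 2) / 3)
          else if a % 9 = 8 then θ ^ 2 * (3 / 2) ^ γ * w ((2 * a - 1) / 3) else 0) *
          ((x : ℝ) / a) ^ γ) ≤ θ ^ 2 * W θ x b := by
        split_ifs with h9 h9'
        · -- a % 9 = 2
          have e1 : (4 * a - 2) / 3 = 2 * b := by omega
          rw [e1]
          have hl := hlow (2 * b) (by omega) (by omega)
          have hd := W_double h0.le h1 x b
          have hb0 : (0 : ℝ) < b := by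
            have : 0 < b := by omega
            exact_mod_cast this
          have e2 : (3 / 4 : ℝ) ^ γ * ((x : ℝ) / a) ^ γ ≤ ((x : ℝ) / ((2 * b : ℕ) : ℝ)) ^ γ := by
            rw [← Real.mul_rpow (by norm_num) (by positivity)]
            apply Real.rpow_le_rpow (by positivity) _ hγ.le
            push_cast
            rw [div_mul_div_comm, div_le_div_iff₀ (by positivity) (by positivity)]
            have hb' : (3 : ℝ) * b + 1 = 2 * a := by exact_mod_cast hb
            nlinarith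
          have e3 : ρ * (w (2 * b) * ((3 / 4 : ℝ) ^ γ * ((x : ℝ) / a) ^ γ)) ≤ W θ x (2 * b) := by
            refine le_trans ?_ hl
            apply mul_le_mul_of_nonneg_left _ hρ0
            exact mul_le_mul_of_nonneg_left e2 (hw0 _)
          calc ρ * (θ ^ 3 * (3 / 4) ^ γ * w (2 * b) * ((x : ℝ) / a) ^ γ)
              = θ ^ 3 * (ρ * (w (2 * b) * ((3 / 4 : ℝ) ^ γ * ((x : ℝ) / a) ^ γ))) := by ring
            _ ≤ θ ^ 3 * W θ x (2 * b) := mul_le_mul_of_nonneg_left e3 (by positivity)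
            _ = θ ^ 2 * (θ * W θ x (2 * b)) := by ring
            _ ≤ θ ^ 2 * W θ x b := mul_le_mul_of_nonneg_left hd (by positivity)
        · -- a % 9 = 8
          have e1 : (2 * a - 1) / 3 = b := by omega
          rw [e1]
          have hl := hlow b (by omega) (by omega)
          have hb0 : (0 : ℝ) < b := by
            have : 0 < b := by omega
            exact_mod_cast this
          have e2 : (3 / 2 : ℝ) ^ γ * ((x : ℝ) / a) ^ γ ≤ ((x : ℝ) / b) ^ γ := by
            rw [← Real.mul_rpow (by norm_num) (by positivity)]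
            apply Real.rpow_le_rpow (by positivity) _ hγ.le
            rw [div_mul_div_comm, div_le_div_iff₀ (by positivity) (by positivity)]
            have hb' : (3 : ℝ) * b + 1 = 2 * a := by exact_mod_cast hb
            nlinarith
          have e3 : ρ * (w b * ((3 / 2 : ℝ) ^ γ * ((x : ℝ) / a) ^ γ)) ≤ W θ x b := by
            refine le_trans ?_ hl
            apply mul_le_mul_of_nonneg_left _ hρ0
            exact mul_le_mul_of_nonneg_left e2 (hw0 _)
          calc ρ * (θ ^ 2 * (3 / 2) ^ γ * w b * ((x : ℝ) / a) ^ γ)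
              = θ ^ 2 * (ρ * (w b * ((3 / 2 : ℝ) ^ γ * ((x : ℝ) / a) ^ γ))) := by ring
            _ ≤ θ ^ 2 * W θ x b := mul_le_mul_of_nonneg_left e3 (by positivity)
        · have := W_nonneg h0.le x b
          simp only [zero_mul, mul_zero]
          positivity
      calc ρ * g a = ρ * (w a * ((x : ℝ) / a) ^ γ) := rfl
        _ ≤ ρ * ((θ ^ 2 * (1 / 4) ^ γ * w (4 * a) +
            (if a % 9 = 2 then θ ^ 3 * (3 / 4) ^ γ * w ((4 * a - 2) / 3)
              else if a % 9 = 8 then θ ^ 2 * (3 / 2) ^ γ * w ((2 * a - 1) / 3) else 0)) *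
              ((x : ℝ) / a) ^ γ) := by
            apply mul_le_mul_of_nonneg_left _ hρ0
            exact mul_le_mul_of_nonneg_right hca hP.le
        _ = θ ^ 2 * (ρ * (w (4 * a) * ((1 / 4) ^ γ * ((x : ℝ) / a) ^ γ))) +
            ρ * ((if a % 9 = 2 then θ ^ 3 * (3 / 4) ^ γ * w ((4 * a - 2) / 3)
              else if a % 9 = 8 then θ ^ 2 * (3 / 2) ^ γ * w ((2 * a - 1) / 3) else 0) *
              ((x : ℝ) / a) ^ γ) := by ring
        _ ≤ θ ^ 2 * W θ x (4 * a) + θ ^ 2 * W θ x b :=
            add_le_add (mul_le_mul_of_nonneg_left h4a (by positivity)) hbr2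
        _ = _ := by ring
    linarith
  · -- top case
    have hW1 : 1 ≤ W θ x a := by
      have h2 := W_nonneg h0.le x (4 * a)
      have h3 := W_nonneg h0.le x b
      have : 0 ≤ θ ^ 2 * (W θ x (4 * a) + W θ x b) := by positivity
      linarith
    have hxa : (x : ℝ) / a ≤ 4 := by
      rw [div_le_iff₀ ha0]
      have : x ≤ 4 * a := by omega
      exact_mod_cast this
    have hg4 : g a ≤ M * 4 ^ γ := by
      simp only [hg]
      have h2 : ((x : ℝ) / a) ^ γ ≤ 4 ^ γ := Real.rpow_le_rpow (by positivity) hxa hγ.le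
      have h3 : 0 ≤ ((x : ℝ) / a) ^ γ := by positivity
      calc w a * ((x : ℝ) / a) ^ γ ≤ M * ((x : ℝ) / a) ^ γ := mul_le_mul_of_nonneg_right (hwM a) h3
        _ ≤ M * 4 ^ γ := mul_le_mul_of_nonneg_left h2 hM.le
    have : ρ * g a < 1 := by
      have h4γ : (0 : ℝ) < 4 ^ γ := Real.rpow_pos_of_pos (by norm_num) γ
      calc ρ * g a < δ * g a := mul_lt_mul_of_pos_right hρδ hga
        _ ≤ δ * (M * 4 ^ γ) := mul_le_mul_of_nonneg_left hg4 hδpos.le
        _ = 1 := by rw [hδ]; field_simp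
    linarith

end Pool.Agent.Lib.MP_e43fce_nt.KL
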