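import Mathlib
import Pool.Agent.Lib.MP_e43fce_nt.KLCheckDef
import Pool.Agent.Lib.MP_e43fce_nt.KLCore

/-!
# Soundness of the Boolean certificate check
-/

namespace Pool.Agent.Lib.MP_e43fce_nt.KL

/-- The `h`-th 17-bit entry of a packed chunk. -/
def atB (X h : ℕ) : ℕ := Nat.land (Nat.shiftRight X (Nat.mul 17 h)) 131071

lemma atB_eq (X h : ℕ) : atB X h = (X >>> (17 * h)) % 2 ^ 17 := by
  unfold atB
  change (X >>> (17 * h)) &&& (2 ^ 17 - 1) = _
  rw [Nat.and_two_pow_sub_one_eq_mod]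

lemma atB_le (X h : ℕ) : atB X h ≤ 131071 := Nat.and_le_right

lemma win_eq (X a m : ℕ) : win X a m = (X >>> (17 * a)) % 2 ^ (17 * m) := by
  unfold win
  change (X >>> (17 * a)) &&& (2 ^ (17 * m) - 1) = _
  rw [Nat.and_two_pow_sub_one_eq_mod]

lemma atB_win {X a m i : ℕ} (h : i < m) : atB (win X a m) i = atB X (a + i) := by
  rw [atB_eq, atB_eq, win_eq]
  apply Nat.eq_of_testBit_eq
  intro k
  simp only [Nat.testBit_mod_two_pow, Nat.testBit_shiftRight]
  by_cases hk : k < 17
  · have h1 : 17 * i + k < 17 * m := by omega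
    simp only [hk, h1, decide_true, Bool.true_and]
    congr 1
    ring
  · simp [hk]

lemma dbl_testBit (Y n q : ℕ) : (dbl Y n).testBit q =
    if q < 17 * n then Y.testBit q else Y.testBit (q - 17 * n) := by
  unfold dbl
  change ((Y &&& (2 ^ (17 * n) - 1)) ||| (Y <<< (17 * n))).testBit q = _
  rw [Nat.and_two_pow_sub_one_eq_mod, Nat.testBit_or, Nat.testBit_mod_two_pow,
    Nat.testBit_shiftLeft]
  split_ifs with h
  · have : ¬ (q ≥ 17 * n) := by omega
    simp [h, this]
  · have : q ≥ 17 * n := by omega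
    simp [h, this]

lemma atB_dbl {Y n i : ℕ} (hi : i < 2 * n) : atB (dbl Y n) i = atB Y (i % n) := by
  rw [atB_eq, atB_eq]
  apply Nat.eq_of_testBit_eq
  intro k
  simp only [Nat.testBit_mod_two_pow, Nat.testBit_shiftRight, dbl_testBit]
  by_cases hk : k < 17
  · simp only [hk, decide_true, Bool.true_and]
    by_cases hin : i < n
    · rw [Nat.mod_eq_of_lt hin, if_pos (by omega)]
    · have e : i % n = i - n := by
        rw [Nat.mod_eq_sub_mod (by omega), Nat.mod_eq_of_lt (by omega)]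
      rw [e, if_neg (by omega)]
      congr 1
      omega
  · simp [hk]

lemma brec {A B : Bool} (h : (Bool.rec (motive := fun _ => Bool) false B A : Bool) = true) :
    A = true ∧ B = true := by
  cases A
  · exact absurd h (by simp)
  · exact ⟨rfl, h⟩

lemma allR_succ {P : ℕ → Bool} {m i : ℕ} (h : allR P (m + 1) i = true) :
    allR P m (3 * i) = true ∧ allR P m (3 * i + 1) = true ∧ allR P m (3 * i + 2) = true := by
  have h1 := brec h
  have h2 := brec h1.2
  exact ⟨h1.1, h2.1, h2.2⟩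

lemma allR_spec (P : ℕ → Bool) (m : ℕ) : ∀ i, allR P m i = true →
    ∀ k, 3 ^ m * i ≤ k → k < 3 ^ m * (i + 1) → P k = true := by
  induction m with
  | zero =>
    intro i h k h1 h2
    have : k = i := by omega
    subst this
    exact h
  | succ m ih =>
    intro i h k h1 h2
    obtain ⟨ha, hb, hc⟩ := allR_succ h
    rw [pow_succ] at h1 h2
    by_cases c1 : k < 3 ^ m * (3 * i + 1)
    · exact ih _ ha k (by nlinarith) c1
    · by_cases c2 : k < 3 ^ m * (3 * i + 2)
      · exact ih _ hb k (by omega) (by simpa [add_assoc] using c2)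
      · exact ih _ hc k (by omega) (by nlinarith)

lemma leaf_spec {XB YB Z0 Z1 Z2 P mult c rho s : ℕ}
    (h : leaf XB YB Z0 Z1 Z2 P mult c rho s = true) :
    4194304 * atB XB (3 * s + rho) ≤ 1237876 * atB YB (4 * (3 * s + rho) + c) +
      P * atB Z0 (mult * s) ∧
    4194304 * atB XB (3 * s + rho) ≤ 1237876 * atB YB (4 * (3 * s + rho) + c) +
      P * atB Z1 (mult * s) ∧
    4194304 * atB XB (3 * s + rho) ≤ 1237876 * atB YB (4 * (3 * s + rho) + c) +
      P * atB Z2 (mult * s) := by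
  unfold leaf at h
  obtain ⟨h2, h'⟩ := brec h
  obtain ⟨h1, h0⟩ := brec h'
  exact ⟨Nat.le_of_ble_eq_true h0, Nat.le_of_ble_eq_true h1, Nat.le_of_ble_eq_true h2⟩

lemma leaf0_spec {XB YB c rho s : ℕ} (hh : leaf0 XB YB c rho s = true) :
    4194304 * atB XB (3 * s + rho) ≤ 1237876 * atB YB (4 * (3 * s + rho) + c) :=
  Nat.le_of_ble_eq_true hh

lemma run_spec {X Y Z P mult c c1 rho : ℕ} (h : run X Y Z P mult c c1 rho = true)
    (hr : rho < 3) (hc : c < 4) (hm : mult ≤ 4) :
    ∀ h' < 2187, ∀ t < 3,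
      4194304 * atB X (3 * h' + rho) ≤ 1237876 * atB Y ((4 * (3 * h' + rho) + c) % 6561) +
        P * atB Z ((mult * h' + c1) % 2187 + 2187 * t) := by
  intro h' hh' t ht
  have hb := allR_spec _ 4 0 h (h' / 27) (by omega) (by norm_num; omega)
  unfold blk at hb
  have hl := allR_spec _ 3 0 hb (h' % 27) (by omega) (by norm_num; omega)
  obtain ⟨l0, l1, l2⟩ := leaf_spec hl
  have hs : h' % 27 < 27 := Nat.mod_lt _ (by norm_num)
  have hms : mult * (h' % 27) < 108 := by nlinarith
  have eX : atB (win X (Nat.mul 81 (h' / 27)) 81) (3 * (h' % 27) + rho) =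
      atB X (3 * h' + rho) := by
    rw [atB_win (by omega)]
    congr 1
    change 81 * (h' / 27) + _ = _
    omega
  have eY : atB (win (dbl Y 6561) (Nat.mod (Nat.mul 324 (h' / 27)) 6561) 324)
      (4 * (3 * (h' % 27) + rho) + c) = atB Y ((4 * (3 * h' + rho) + c) % 6561) := by
    rw [atB_win (by omega)]
    change atB (dbl Y 6561) ((324 * (h' / 27)) % 6561 + (4 * (3 * (h' % 27) + rho) + c)) = _
    rw [atB_dbl (by omega)]
    congr 1
    omega
  have eZ : ∀ u, atB (win (dbl (win Z u 2187) 2187)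
      (Nat.mod (Nat.add (Nat.mul mult (Nat.mul 27 (h' / 27))) c1) 2187) 108)
      (mult * (h' % 27)) = atB Z ((mult * h' + c1) % 2187 + u) := by
    intro u
    rw [atB_win hms]
    change atB (dbl (win Z u 2187) 2187)
      ((mult * (27 * (h' / 27)) + c1) % 2187 + mult * (h' % 27)) = _
    rw [atB_dbl (by omega), atB_win (Nat.mod_lt _ (by norm_num)), Nat.mod_add_mod]
    have e : mult * (27 * (h' / 27)) + c1 + mult * (h' % 27) = mult * h' + c1 := by
      conv_rhs => rw [← Nat.div_add_mod h' 27]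
      ring
    rw [e, add_comm]
  rw [eX, eY] at l0 l1 l2
  rw [eZ] at l0 l1 l2
  interval_cases t
  · exact l0
  · exact l1
  · exact l2

lemma run0_spec {X Y c rho : ℕ} (h : run0 X Y c rho = true) (hr : rho < 3) (hc : c < 4) :
    ∀ h' < 2187,
      4194304 * atB X (3 * h' + rho) ≤ 1237876 * atB Y ((4 * (3 * h' + rho) + c) % 6561) := by
  intro h' hh'
  have hb := allR_spec _ 4 0 h (h' / 27) (by omega) (by norm_num; omega)
  unfold blk0 at hb
  have hl := allR_spec _ 3 0 hb (h' % 27) (by omega) (by norm_num; omega)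
  have l0 := leaf0_spec hl
  have eX : atB (win X (Nat.mul 81 (h' / 27)) 81) (3 * (h' % 27) + rho) =
      atB X (3 * h' + rho) := by
    rw [atB_win (by omega)]
    congr 1
    change 81 * (h' / 27) + _ = _
    omega
  have eY : atB (win (dbl Y 6561) (Nat.mod (Nat.mul 324 (h' / 27)) 6561) 324)
      (4 * (3 * (h' % 27) + rho) + c) = atB Y ((4 * (3 * h' + rho) + c) % 6561) := by
    rw [atB_win (by omega)]
    change atB (dbl Y 6561) ((324 * (h' / 27)) % 6561 + (4 * (3 * (h' % 27) + rho) + c)) = _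
    rw [atB_dbl (by omega)]
    congr 1
    omega
  rw [eX, eY] at l0
  exact l0

/-- The integer weight attached to an index `j` (standing for the residue `3 j + 2`). -/
noncomputable def ent (l : List ℕ) (j : ℕ) : ℕ := atB (sel l (j % 729)) (j / 729 % 6561)

lemma batch3_spec {l : List ℕ} {lo : ℕ} (h : batch3 l lo = true) :
    ∀ rho < 3, batch l lo rho = true := by
  have h0 := brec h
  have h1 := brec h0.2
  intro rho hrho
  interval_cases rho
  · exact h0.1
  · exact h1.1
  · exact h1.2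

lemma batch_case0 {l : List ℕ} {lo rho : ℕ} (hlo : lo % 3 = 0) (h : batch l lo rho = true) :
    run (sel l lo) (sel l ((4 * lo + 2) % 729))
      (sel l ((4 * (lo / 3) + 972 * rho) % 729)) 3255955 4 ((4 * lo + 2) / 729)
      ((4 * (lo / 3) + 972 * rho) / 729) rho = true := by
  unfold batch at h
  have e : Nat.mod lo 3 = 0 := hlo
  rw [e] at h
  exact h

lemma batch_case2 {l : List ℕ} {lo rho : ℕ} (hlo : lo % 3 = 2) (h : batch l lo rho = true) :
    run (sel l lo) (sel l ((4 * lo + 2) % 729))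
      (sel l ((2 * (lo / 3) + (1 + 486 * rho)) % 729)) 5993351 2 ((4 * lo + 2) / 729)
      ((2 * (lo / 3) + (1 + 486 * rho)) / 729) rho = true := by
  unfold batch at h
  have e : Nat.mod lo 3 = 2 := hlo
  rw [e] at h
  exact h

lemma batch_case1 {l : List ℕ} {lo rho : ℕ} (hlo : lo % 3 = 1) (h : batch l lo rho = true) :
    run0 (sel l lo) (sel l ((4 * lo + 2) % 729)) ((4 * lo + 2) / 729) rho = true := by
  unfold batch at h
  have e : Nat.mod lo 3 = 1 := hlo
  rw [e] at h
  exact h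

/-- The integer form of the certificate. -/
theorem ent_ineq {l : List ℕ} (hall : ∀ lo < 729, batch3 l lo = true) (j : ℕ) :
    (j % 3 = 0 → 4194304 * ent l j ≤ 1237876 * ent l (4 * j + 2) + 3255955 * ent l (4 * (j / 3))) ∧
    (j % 3 = 1 → 4194304 * ent l j ≤ 1237876 * ent l (4 * j + 2)) ∧
    (j % 3 = 2 → 4194304 * ent l j ≤
      1237876 * ent l (4 * j + 2) + 5993351 * ent l (2 * (j / 3) + 1)) := by
  set lo := j % 729 with hlo
  set hh := j / 729 with hhh
  have hlolt : lo < 729 := Nat.mod_lt _ (by norm_num)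
  have hj : j = lo + 729 * hh := by omega
  have e4a : (4 * j + 2) % 729 = (4 * lo + 2) % 729 := by omega
  have e4b : (4 * j + 2) / 729 % 6561 = (4 * (hh % 6561) + (4 * lo + 2) / 729) % 6561 := by omega
  have hX : ent l j = atB (sel l lo) (hh % 6561) := rfl
  have hY : ent l (4 * j + 2) = atB (sel l ((4 * lo + 2) % 729))
      ((4 * (hh % 6561) + (4 * lo + 2) / 729) % 6561) := by
    unfold ent; rw [e4a, e4b]
  have h3 : hh % 6561 = 3 * (hh % 6561 / 3) + hh % 3 := by omega
  have hlt : hh % 6561 / 3 < 2187 := by omega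
  have hrho : hh % 3 < 3 := by omega
  have hb := batch3_spec (hall lo hlolt) (hh % 3) hrho
  have hc4 : (4 * lo + 2) / 729 < 4 := by omega
  refine ⟨fun hj0 => ?_, fun hj1 => ?_, fun hj2 => ?_⟩
  · have hlo0 : lo % 3 = 0 := by omega
    have hrun := batch_case0 hlo0 hb
    obtain ⟨t, ht, htt⟩ : ∃ t < 3, (4 * (j / 3)) / 729 % 6561 =
        (4 * (hh % 6561 / 3) + (4 * (lo / 3) + 972 * (hh % 3)) / 729) % 2187 + 2187 * t := by
      refine ⟨(4 * (j / 3)) / 729 % 6561 / 2187, by omega, ?_⟩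
      have : (4 * (j / 3)) / 729 = 4 * (hh / 3) + (4 * (lo / 3) + 972 * (hh % 3)) / 729 := by omega
      rw [this]
      omega
    have hs := run_spec hrun hrho hc4 (by norm_num) (hh % 6561 / 3) hlt t ht
    have hZ : ent l (4 * (j / 3)) = atB (sel l ((4 * (lo / 3) + 972 * (hh % 3)) % 729))
        ((4 * (hh % 6561 / 3) + (4 * (lo / 3) + 972 * (hh % 3)) / 729) % 2187 + 2187 * t) := by
      unfold ent
      rw [htt]
      congr 2
      omega
    rw [hX, hY, hZ]
    rw [← h3] at hs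
    exact hs
  · have hlo1 : lo % 3 = 1 := by omega
    have hrun := batch_case1 hlo1 hb
    have hs := run0_spec hrun hrho hc4 (hh % 6561 / 3) hlt
    rw [hX, hY]
    rw [← h3] at hs
    exact hs
  · have hlo2 : lo % 3 = 2 := by omega
    have hrun := batch_case2 hlo2 hb
    obtain ⟨t, ht, htt⟩ : ∃ t < 3, (2 * (j / 3) + 1) / 729 % 6561 =
        (2 * (hh % 6561 / 3) + (2 * (lo / 3) + (1 + 486 * (hh % 3))) / 729) % 2187 + 2187 * t := by
      refine ⟨(2 * (j / 3) + 1) / 729 % 6561 / 2187, by omega, ?_⟩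
      have : (2 * (j / 3) + 1) / 729 =
          2 * (hh / 3) + (2 * (lo / 3) + (1 + 486 * (hh % 3))) / 729 := by omega
      rw [this]
      omega
    have hs := run_spec hrun hrho hc4 (by norm_num) (hh % 6561 / 3) hlt t ht
    have hZ : ent l (2 * (j / 3) + 1) = atB (sel l ((2 * (lo / 3) + (1 + 486 * (hh % 3))) % 729))
        ((2 * (hh % 6561 / 3) + (2 * (lo / 3) + (1 + 486 * (hh % 3))) / 729) % 2187 + 2187 * t) := by
      unfold ent
      rw [htt]
      congr 2
      omega
    rw [hX, hY, hZ]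
    rw [← h3] at hs
    exact hs

/-- The real weight on positive integers. -/
noncomputable def wt (l : List ℕ) (a : ℕ) : ℝ := (ent l (a / 3) : ℝ)

lemma wt_nonneg (l : List ℕ) (a : ℕ) : 0 ≤ wt l a := Nat.cast_nonneg _

lemma wt_le (l : List ℕ) (a : ℕ) : wt l a ≤ 131071 := by
  unfold wt ent
  exact_mod_cast atB_le _ _

lemma cert_of_all {l : List ℕ} {θ γ : ℝ} (hall : ∀ lo < 729, batch3 l lo = true)
    (h4 : (1237876 / 4194304 : ℝ) ≤ θ ^ 2 * (1 / 4) ^ γ)
    (h34 : (3255955 / 4194304 : ℝ) ≤ θ ^ 3 * (3 / 4) ^ γ)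
    (h32 : (5993351 / 4194304 : ℝ) ≤ θ ^ 2 * (3 / 2) ^ γ) : Cert θ γ (wt l) := by
  intro a ha
  obtain ⟨k0, k1, k2⟩ := ent_ineq hall (a / 3)
  have e4 : 4 * a / 3 = 4 * (a / 3) + 2 := by omega
  have base : (1237876 / 4194304 : ℝ) * wt l (4 * a) ≤ θ ^ 2 * (1 / 4) ^ γ * wt l (4 * a) :=
    mul_le_mul_of_nonneg_right h4 (wt_nonneg l _)
  split_ifs with h9 h9'
  · have h := k0 (by omega)
    have e1 : (4 * a - 2) / 3 / 3 = 4 * (a / 3 / 3) := by omega
    have b2 : (3255955 / 4194304 : ℝ) * wt l ((4 * a - 2) / 3) ≤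
        θ ^ 3 * (3 / 4) ^ γ * wt l ((4 * a - 2) / 3) :=
      mul_le_mul_of_nonneg_right h34 (wt_nonneg l _)
    have hr : (4194304 : ℝ) * wt l a ≤ 1237876 * wt l (4 * a) + 3255955 * wt l ((4 * a - 2) / 3) := by
      unfold wt
      rw [e4, e1]
      exact_mod_cast h
    linarith
  · have h := k2 (by omega)
    have e1 : (2 * a - 1) / 3 / 3 = 2 * (a / 3 / 3) + 1 := by omega
    have b2 : (5993351 / 4194304 : ℝ) * wt l ((2 * a - 1) / 3) ≤
        θ ^ 2 * (3 / 2) ^ γ * wt l ((2 * a - 1) / 3) :=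
      mul_le_mul_of_nonneg_right h32 (wt_nonneg l _)
    have hr : (4194304 : ℝ) * wt l a ≤ 1237876 * wt l (4 * a) + 5993351 * wt l ((2 * a - 1) / 3) := by
      unfold wt
      rw [e4, e1]
      exact_mod_cast h
    linarith
  · have h := k1 (by omega)
    have hr : (4194304 : ℝ) * wt l a ≤ 1237876 * wt l (4 * a) := by
      unfold wt
      rw [e4]
      exact_mod_cast h
    linarith

lemma rat_le_rpow {r s : ℝ} (hr : 0 ≤ r) (hs : 0 < s) (h : r ^ 142 ≤ s ^ 125) :
    r ≤ s ^ (125 / 142 : ℝ) := by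
  have h2 : (s ^ (125 / 142 : ℝ)) ^ 142 = s ^ 125 := by
    rw [← Real.rpow_natCast, ← Real.rpow_mul hs.le, ← Real.rpow_natCast]
    congr 1; norm_num
  rw [← h2] at h
  exact (pow_le_pow_iff_left₀ hr (by positivity) (by norm_num)).1 h

/-- The discount factor. -/
noncomputable def th : ℝ := 9999999 / 10000000

lemma num4 : (1237876 / 4194304 : ℝ) ≤ th ^ 2 * (1 / 4) ^ (125 / 142 : ℝ) := by
  have h : (1237876 / 4194304 / th ^ 2 : ℝ) ≤ (1 / 4) ^ (125 / 142 : ℝ) := by
    apply rat_le_rpow (by unfold th; positivity) (by norm_num)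
    unfold th; norm_num
  have h2 : (0 : ℝ) < th ^ 2 := by unfold th; positivity
  rw [div_le_iff₀ h2] at h
  linarith

lemma num34 : (3255955 / 4194304 : ℝ) ≤ th ^ 3 * (3 / 4) ^ (125 / 142 : ℝ) := by
  have h : (3255955 / 4194304 / th ^ 3 : ℝ) ≤ (3 / 4) ^ (125 / 142 : ℝ) := by
    apply rat_le_rpow (by unfold th; positivity) (by norm_num)
    unfold th; norm_num
  have h2 : (0 : ℝ) < th ^ 3 := by unfold th; positivity
  rw [div_le_iff₀ h2] at h
  linarith

lemma num32 : (5993351 / 4194304 : ℝ) ≤ th ^ 2 * (3 / 2) ^ (125 / 142 : ℝ) := by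
  have h : (5993351 / 4194304 / th ^ 2 : ℝ) ≤ (3 / 2) ^ (125 / 142 : ℝ) := by
    apply rat_le_rpow (by unfold th; positivity) (by norm_num)
    unfold th; norm_num
  have h2 : (0 : ℝ) < th ^ 2 := by unfold th; positivity
  rw [div_le_iff₀ h2] at h
  linarith

end Pool.Agent.Lib.MP_e43fce_nt.KL
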