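import Pool.Agent.Lib.MP_e43fce_nt.KLCheck00
import Pool.Agent.Lib.MP_e43fce_nt.KLCheck01
import Pool.Agent.Lib.MP_e43fce_nt.KLCheck02
import Pool.Agent.Lib.MP_e43fce_nt.KLCheck03
import Pool.Agent.Lib.MP_e43fce_nt.KLCheck04
import Pool.Agent.Lib.MP_e43fce_nt.KLCheck05
import Pool.Agent.Lib.MP_e43fce_nt.KLCheck06
import Pool.Agent.Lib.MP_e43fce_nt.KLCheck07
import Pool.Agent.Lib.MP_e43fce_nt.KLCheck08
import Pool.Agent.Lib.MP_e43fce_nt.KLCheck09
import Pool.Agent.Lib.MP_e43fce_nt.KLCheck10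
import Pool.Agent.Lib.MP_e43fce_nt.KLCheck11
import Pool.Agent.Lib.MP_e43fce_nt.KLCheck12
import Pool.Agent.Lib.MP_e43fce_nt.KLCheck13
import Pool.Agent.Lib.MP_e43fce_nt.KLCheck14
import Pool.Agent.Lib.MP_e43fce_nt.KLCheck15
import Pool.Agent.Lib.MP_e43fce_nt.KLCheck16
import Pool.Agent.Lib.MP_e43fce_nt.KLCheck17
import Pool.Agent.Lib.MP_e43fce_nt.KLCheck18
import Pool.Agent.Lib.MP_e43fce_nt.KLCheck19
import Pool.Agent.Lib.MP_e43fce_nt.KLCheck20
import Pool.Agent.Lib.MP_e43fce_nt.KLCheck21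
import Pool.Agent.Lib.MP_e43fce_nt.KLCheck22
import Pool.Agent.Lib.MP_e43fce_nt.KLCheck23
import Pool.Agent.Lib.MP_e43fce_nt.KLCheck24
import Pool.Agent.Lib.MP_e43fce_nt.KLCheck25
import Pool.Agent.Lib.MP_e43fce_nt.KLCheck26
import Pool.Agent.Lib.MP_e43fce_nt.KLCheck27
import Pool.Agent.Lib.MP_e43fce_nt.KLCheck28
import Pool.Agent.Lib.MP_e43fce_nt.KLCheck29
import Pool.Agent.Lib.MP_e43fce_nt.KLCheck30
import Pool.Agent.Lib.MP_e43fce_nt.KLCheck31
import Pool.Agent.Lib.MP_e43fce_nt.KLCheck32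
import Pool.Agent.Lib.MP_e43fce_nt.KLCheck33
import Pool.Agent.Lib.MP_e43fce_nt.KLCheck34
import Pool.Agent.Lib.MP_e43fce_nt.KLCheck35
import Pool.Agent.Lib.MP_e43fce_nt.KLCheck36
import Pool.Agent.Lib.MP_e43fce_nt.KLCheck37
import Pool.Agent.Lib.MP_e43fce_nt.KLCheck38
import Pool.Agent.Lib.MP_e43fce_nt.KLCheck39
import Pool.Agent.Lib.MP_e43fce_nt.KLCheck40
import Pool.Agent.Lib.MP_e43fce_nt.KLCheck41
import Pool.Agent.Lib.MP_e43fce_nt.KLCheck42
import Pool.Agent.Lib.MP_e43fce_nt.KLCheck43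
import Pool.Agent.Lib.MP_e43fce_nt.KLCheck44
import Pool.Agent.Lib.MP_e43fce_nt.KLCheck45
import Pool.Agent.Lib.MP_e43fce_nt.KLCheck46
import Pool.Agent.Lib.MP_e43fce_nt.KLCheck47
import Pool.Agent.Lib.MP_e43fce_nt.KLCheck48
import Pool.Agent.Lib.MP_e43fce_nt.KLCheck49
import Pool.Agent.Lib.MP_e43fce_nt.KLCheck50
import Pool.Agent.Lib.MP_e43fce_nt.KLCheck51
import Pool.Agent.Lib.MP_e43fce_nt.KLCheck52
import Pool.Agent.Lib.MP_e43fce_nt.KLCheck53
import Pool.Agent.Lib.MP_e43fce_nt.KLCheck54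
import Pool.Agent.Lib.MP_e43fce_nt.KLCheck55
import Pool.Agent.Lib.MP_e43fce_nt.KLCheck56
import Pool.Agent.Lib.MP_e43fce_nt.KLCheck57
import Pool.Agent.Lib.MP_e43fce_nt.KLCheck58
import Pool.Agent.Lib.MP_e43fce_nt.KLCheck59
import Pool.Agent.Lib.MP_e43fce_nt.KLCheck60
import Pool.Agent.Lib.MP_e43fce_nt.KLCheck61
import Pool.Agent.Lib.MP_e43fce_nt.KLCheck62
import Pool.Agent.Lib.MP_e43fce_nt.KLCheck63
import Pool.Agent.Lib.MP_e43fce_nt.KLCheck64
import Pool.Agent.Lib.MP_e43fce_nt.KLCheck65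
import Pool.Agent.Lib.MP_e43fce_nt.KLCheck66
import Pool.Agent.Lib.MP_e43fce_nt.KLCheck67
import Pool.Agent.Lib.MP_e43fce_nt.KLCheck68
import Pool.Agent.Lib.MP_e43fce_nt.KLCheck69
import Pool.Agent.Lib.MP_e43fce_nt.KLCheck70
import Pool.Agent.Lib.MP_e43fce_nt.KLCheck71
import Pool.Agent.Lib.MP_e43fce_nt.KLCheck72
import Pool.Agent.Lib.MP_e43fce_nt.KLCheck73
import Pool.Agent.Lib.MP_e43fce_nt.KLCheck74
import Pool.Agent.Lib.MP_e43fce_nt.KLCheck75
import Pool.Agent.Lib.MP_e43fce_nt.KLCheck76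
import Pool.Agent.Lib.MP_e43fce_nt.KLCheck77
import Pool.Agent.Lib.MP_e43fce_nt.KLCheck78
import Pool.Agent.Lib.MP_e43fce_nt.KLCheck79
import Pool.Agent.Lib.MP_e43fce_nt.KLCheck80
import Pool.Agent.Lib.MP_e43fce_nt.KLSound

/-! All parts of the certificate check, put together. -/

namespace Pool.Agent.Lib.MP_e43fce_nt.KL

theorem chk_all : ∀ i < 81, allR (batch3 chunks) 2 i = true := by
  intro i hi
  interval_cases i
  · exact chk0
  · exact chk1
  · exact chk2
  · exact chk3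
  · exact chk4
  · exact chk5
  · exact chk6
  · exact chk7
  · exact chk8
  · exact chk9
  · exact chk10
  · exact chk11
  · exact chk12
  · exact chk13
  · exact chk14
  · exact chk15
  · exact chk16
  · exact chk17
  · exact chk18
  · exact chk19
  · exact chk20
  · exact chk21
  · exact chk22
  · exact chk23
  · exact chk24
  · exact chk25
  · exact chk26
  · exact chk27
  · exact chk28
  · exact chk29
  · exact chk30
  · exact chk31
  · exact chk32
  · exact chk33
  · exact chk34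
  · exact chk35
  · exact chk36
  · exact chk37
  · exact chk38
  · exact chk39
  · exact chk40
  · exact chk41
  · exact chk42
  · exact chk43
  · exact chk44
  · exact chk45
  · exact chk46
  · exact chk47
  · exact chk48
  · exact chk49
  · exact chk50
  · exact chk51
  · exact chk52
  · exact chk53
  · exact chk54
  · exact chk55
  · exact chk56
  · exact chk57
  · exact chk58
  · exact chk59
  · exact chk60
  · exact chk61
  · exact chk62
  · exact chk63
  · exact chk64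
  · exact chk65
  · exact chk66
  · exact chk67
  · exact chk68
  · exact chk69
  · exact chk70
  · exact chk71
  · exact chk72
  · exact chk73
  · exact chk74
  · exact chk75
  · exact chk76
  · exact chk77
  · exact chk78
  · exact chk79
  · exact chk80

theorem batch_all : ∀ lo < 729, batch3 chunks lo = true := by
  intro lo hlo
  exact allR_spec _ 2 (lo / 9) (chk_all _ (by omega)) lo (by omega) (by omega)

theorem cert : Cert th (125 / 142) (wt chunks) :=
  cert_of_all batch_all num4 num34 num32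

theorem wt_two_pos : 0 < wt chunks 2 := by
  have h : Nat.blt 0 (ent chunks 0) = true := by decide +kernel
  have h2 : 0 < ent chunks 0 := by simpa using h
  have e : wt chunks 2 = (ent chunks 0 : ℝ) := rfl
  rw [e]
  exact_mod_cast h2

end Pool.Agent.Lib.MP_e43fce_nt.KL
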