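import Pool.Agent.Lib.MP_e43fce_nt.KLChunks
import Pool.Agent.Lib.MP_e43fce_nt.KLCheckDef

/-! Kernel evaluation of the certificate check, low parts 684 to 692. -/

namespace Pool.Agent.Lib.MP_e43fce_nt.KL

theorem chk76 : allR (batch3 chunks) 2 76 = true := by decide +kernel

end Pool.Agent.Lib.MP_e43fce_nt.KL
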