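import Pool.Agent.Lib.MP_e43fce_nt.KLData00
import Pool.Agent.Lib.MP_e43fce_nt.KLData01
import Pool.Agent.Lib.MP_e43fce_nt.KLData02
import Pool.Agent.Lib.MP_e43fce_nt.KLData03
import Pool.Agent.Lib.MP_e43fce_nt.KLData04
import Pool.Agent.Lib.MP_e43fce_nt.KLData05
import Pool.Agent.Lib.MP_e43fce_nt.KLData06
import Pool.Agent.Lib.MP_e43fce_nt.KLData07
import Pool.Agent.Lib.MP_e43fce_nt.KLData08
import Pool.Agent.Lib.MP_e43fce_nt.KLData09
import Pool.Agent.Lib.MP_e43fce_nt.KLData10
import Pool.Agent.Lib.MP_e43fce_nt.KLData11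
import Pool.Agent.Lib.MP_e43fce_nt.KLData12
import Pool.Agent.Lib.MP_e43fce_nt.KLData13
import Pool.Agent.Lib.MP_e43fce_nt.KLData14
import Pool.Agent.Lib.MP_e43fce_nt.KLData15
import Pool.Agent.Lib.MP_e43fce_nt.KLData16
import Pool.Agent.Lib.MP_e43fce_nt.KLData17
import Pool.Agent.Lib.MP_e43fce_nt.KLData18
import Pool.Agent.Lib.MP_e43fce_nt.KLData19
import Pool.Agent.Lib.MP_e43fce_nt.KLData20
import Pool.Agent.Lib.MP_e43fce_nt.KLData21
import Pool.Agent.Lib.MP_e43fce_nt.KLData22
import Pool.Agent.Lib.MP_e43fce_nt.KLData23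
import Pool.Agent.Lib.MP_e43fce_nt.KLData24
import Pool.Agent.Lib.MP_e43fce_nt.KLData25
import Pool.Agent.Lib.MP_e43fce_nt.KLData26
import Pool.Agent.Lib.MP_e43fce_nt.KLData27
import Pool.Agent.Lib.MP_e43fce_nt.KLData28
import Pool.Agent.Lib.MP_e43fce_nt.KLData29
import Pool.Agent.Lib.MP_e43fce_nt.KLData30
import Pool.Agent.Lib.MP_e43fce_nt.KLData31
import Pool.Agent.Lib.MP_e43fce_nt.KLData32
import Pool.Agent.Lib.MP_e43fce_nt.KLData33
import Pool.Agent.Lib.MP_e43fce_nt.KLData34
import Pool.Agent.Lib.MP_e43fce_nt.KLData35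
import Pool.Agent.Lib.MP_e43fce_nt.KLData36
import Pool.Agent.Lib.MP_e43fce_nt.KLData37
import Pool.Agent.Lib.MP_e43fce_nt.KLData38
import Pool.Agent.Lib.MP_e43fce_nt.KLData39
import Pool.Agent.Lib.MP_e43fce_nt.KLData40
import Pool.Agent.Lib.MP_e43fce_nt.KLData41
import Pool.Agent.Lib.MP_e43fce_nt.KLData42
import Pool.Agent.Lib.MP_e43fce_nt.KLData43
import Pool.Agent.Lib.MP_e43fce_nt.KLData44
import Pool.Agent.Lib.MP_e43fce_nt.KLData45
import Pool.Agent.Lib.MP_e43fce_nt.KLData46
import Pool.Agent.Lib.MP_e43fce_nt.KLData47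
import Pool.Agent.Lib.MP_e43fce_nt.KLData48
import Pool.Agent.Lib.MP_e43fce_nt.KLData49
import Pool.Agent.Lib.MP_e43fce_nt.KLData50
import Pool.Agent.Lib.MP_e43fce_nt.KLData51
import Pool.Agent.Lib.MP_e43fce_nt.KLData52
import Pool.Agent.Lib.MP_e43fce_nt.KLData53
import Pool.Agent.Lib.MP_e43fce_nt.KLData54
import Pool.Agent.Lib.MP_e43fce_nt.KLData55
import Pool.Agent.Lib.MP_e43fce_nt.KLData56
import Pool.Agent.Lib.MP_e43fce_nt.KLData57
import Pool.Agent.Lib.MP_e43fce_nt.KLData58
import Pool.Agent.Lib.MP_e43fce_nt.KLData59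
import Pool.Agent.Lib.MP_e43fce_nt.KLData60
import Pool.Agent.Lib.MP_e43fce_nt.KLData61
import Pool.Agent.Lib.MP_e43fce_nt.KLData62
import Pool.Agent.Lib.MP_e43fce_nt.KLData63
import Pool.Agent.Lib.MP_e43fce_nt.KLData64
import Pool.Agent.Lib.MP_e43fce_nt.KLData65
import Pool.Agent.Lib.MP_e43fce_nt.KLData66
import Pool.Agent.Lib.MP_e43fce_nt.KLData67
import Pool.Agent.Lib.MP_e43fce_nt.KLData68
import Pool.Agent.Lib.MP_e43fce_nt.KLData69
import Pool.Agent.Lib.MP_e43fce_nt.KLData70
import Pool.Agent.Lib.MP_e43fce_nt.KLData71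
import Pool.Agent.Lib.MP_e43fce_nt.KLData72
import Pool.Agent.Lib.MP_e43fce_nt.KLData73
import Pool.Agent.Lib.MP_e43fce_nt.KLData74
import Pool.Agent.Lib.MP_e43fce_nt.KLData75
import Pool.Agent.Lib.MP_e43fce_nt.KLData76
import Pool.Agent.Lib.MP_e43fce_nt.KLData77
import Pool.Agent.Lib.MP_e43fce_nt.KLData78
import Pool.Agent.Lib.MP_e43fce_nt.KLData79
import Pool.Agent.Lib.MP_e43fce_nt.KLData80

/-! The list of data chunks. -/

namespace Pool.Agent.Lib.MP_e43fce_nt.KL

noncomputable section

/-- The list of the packed data chunks. -/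
def chunks : List Nat :=
  [c0, c1, c2, c3, c4, c5, c6, c7, c8, c9, c10, c11, c12, c13, c14, c15, c16, c17, c18, c19, c20, c21, c22, c23, c24, c25, c26, c27, c28, c29, c30, c31, c32, c33, c34, c35, c36, c37, c38, c39, c40, c41, c42, c43, c44, c45, c46, c47, c48, c49, c50, c51, c52, c53, c54, c55, c56, c57, c58, c59, c60, c61, c62, c63, c64, c65, c66, c67, c68, c69, c70, c71, c72, c73, c74, c75, c76, c77, c78, c79, c80, c81, c82, c83, c84, c85, c86, c87, c88, c89, c90, c91, c92, c93, c94, c95, c96, c97, c98, c99, c100, c101, c102, c103, c104, c105, c106, c107, c108, c109, c110, c111, c112, c113, c114, c115, c116, c117, c118, c119, c120, c121, c122, c123, c124, c125, c126, c127, c128, c129, c130, c131, c132, c133, c134, c135, c136, c137, c138, c139, c140, c141, c142, c143, c144, c145, c146, c147, c148, c149, c150, c151, c152, c153, c154, c155, c156, c157, c158, c159, c160, c161, c162, c163, c164, c165, c166, c167, c168, c169, c170, c171, c172, c173, c174, c175, c176, c177, c178, c179, c180, c181, c182, c183, c184, c185, c186,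 c187, c188, c189, c190, c191, c192, c193, c194, c195, c196, c197, c198, c199, c200, c201, c202, c203, c204, c205, c206, c207, c208, c209, c210, c211, c212, c213, c214, c215, c216, c217, c218, c219, c220, c221, c222, c223, c224, c225, c226, c227, c228, c229, c230, c231, c232, c233, c234, c235, c236, c237, c238, c239, c240, c241, c242, c243, c244, c245, c246, c247, c248, c249, c250, c251, c252, c253, c254, c255, c256, c257, c258, c259, c260, c261, c262, c263, c264, c265, c266, c267, c268, c269, c270, c271, c272, c273, c274, c275, c276, c277, c278, c279, c280, c281, c282, c283, c284, c285, c286, c287, c288, c289, c290, c291, c292, c293, c294, c295, c296, c297, c298, c299, c300, c301, c302, c303, c304, c305, c306, c307, c308, c309, c310, c311, c312, c313, c314, c315, c316, c317, c318, c319, c320, c321, c322, c323, c324, c325, c326, c327, c328, c329, c330, c331, c332, c333, c334, c335, c336, c337, c338, c339, c340, c341, c342, c343, c344, c345, c346, c347, c348, c349, c350, c351, c352, c353, c354, c355, c356, c357, c358, c359,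 c360, c361, c362, c363, c364, c365, c366, c367, c368, c369, c370, c371, c372, c373, c374, c375, c376, c377, c378, c379, c380, c381, c382, c383, c384, c385, c386, c387, c388, c389, c390, c391, c392, c393, c394, c395, c396, c397, c398, c399, c400, c401, c402, c403, c404, c405, c406, c407, c408, c409, c410, c411, c412, c413, c414, c415, c416, c417, c418, c419, c420, c421, c422, c423, c424, c425, c426, c427, c428, c429, c430, c431, c432, c433, c434, c435, c436, c437, c438, c439, c440, c441, c442, c443, c444, c445, c446, c447, c448, c449, c450, c451, c452, c453, c454, c455, c456, c457, c458, c459, c460, c461, c462, c463, c464, c465, c466, c467, c468, c469, c470, c471, c472, c473, c474, c475, c476, c477, c478, c479, c480, c481, c482, c483, c484, c485, c486, c487, c488, c489, c490, c491, c492, c493, c494, c495, c496, c497, c498, c499, c500, c501, c502, c503, c504, c505, c506, c507, c508, c509, c510, c511, c512, c513, c514, c515, c516, c517, c518, c519, c520, c521, c522, c523, c524, c525, c526, c527, c528, c529, c530, c531, c532,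 c533, c534, c535, c536, c537, c538, c539, c540, c541, c542, c543, c544, c545, c546, c547, c548, c549, c550, c551, c552, c553, c554, c555, c556, c557, c558, c559, c560, c561, c562, c563, c564, c565, c566, c567, c568, c569, c570, c571, c572, c573, c574, c575, c576, c577, c578, c579, c580, c581, c582, c583, c584, c585, c586, c587, c588, c589, c590, c591, c592, c593, c594, c595, c596, c597, c598, c599, c600, c601, c602, c603, c604, c605, c606, c607, c608, c609, c610, c611, c612, c613, c614, c615, c616, c617, c618, c619, c620, c621, c622, c623, c624, c625, c626, c627, c628, c629, c630, c631, c632, c633, c634, c635, c636, c637, c638, c639, c640, c641, c642, c643, c644, c645, c646, c647, c648, c649, c650, c651, c652, c653, c654, c655, c656, c657, c658, c659, c660, c661, c662, c663, c664, c665, c666, c667, c668, c669, c670, c671, c672, c673, c674, c675, c676, c677, c678, c679, c680, c681, c682, c683, c684, c685, c686, c687, c688, c689, c690, c691, c692, c693, c694, c695, c696, c697, c698, c699, c700, c701, c702, c703, c704, c705,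 c706, c707, c708, c709, c710, c711, c712, c713, c714, c715, c716, c717, c718, c719, c720, c721, c722, c723, c724, c725, c726, c727, c728]

end

end Pool.Agent.Lib.MP_e43fce_nt.KL
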