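import Pool.Agent.Lib.MP_e43fce_nt.KLCore

/-!
# From the discounted count to the number of integers with small total stopping time
-/

namespace Pool.Agent.Lib.MP_e43fce_nt.KL

open Finset Filter

open Classical in
/-- `n ≤ x` reaching `2` within `L` steps. -/
noncomputable def G (x L : ℕ) : Finset ℕ :=
  (Icc 1 x).filter (fun n => ∃ k ≤ L, col^[k] n = 2)

lemma W_upper {θ : ℝ} (h0 : 0 < θ) (h1 : θ < 1) (x L : ℕ) :
    (1 - θ) * W θ x 2 ≤ (G x L).card + θ ^ (L + 1) * x := by
  classical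
  have hs := summable_W h0.le h1 x 2
  have hg := summable_geometric_of_lt_one h0.le h1
  have e : W θ x 2 = ∑ k ∈ range (L + 1), θ ^ k * (cnt x k 2 : ℝ) +
      ∑' k : ℕ, θ ^ (k + (L + 1)) * (cnt x (k + (L + 1)) 2 : ℝ) := by
    unfold W
    rw [hs.sum_add_tsum_nat_add]
  have e1 : ∑ k ∈ range (L + 1), θ ^ k * (cnt x k 2 : ℝ) ≤ (1 - θ)⁻¹ * (G x L).card := by
    have : ∑ k ∈ range (L + 1), θ ^ k * (cnt x k 2 : ℝ) ≤
        ∑ k ∈ range (L + 1), θ ^ k * ((G x L).card : ℝ) := by
      apply sum_le_sum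
      intro k hk
      apply mul_le_mul_of_nonneg_left _ (by positivity)
      have : cnt x k 2 ≤ (G x L).card := by
        unfold cnt G
        apply card_le_card
        intro n hn
        simp only [mem_filter] at hn ⊢
        exact ⟨hn.1, k, by simpa [Nat.lt_succ_iff] using hk, hn.2⟩
      exact_mod_cast this
    refine this.trans ?_
    rw [← sum_mul]
    apply mul_le_mul_of_nonneg_right _ (by positivity)
    rw [← tsum_geometric_of_lt_one h0.le h1]
    exact hg.sum_le_tsum _ (fun k _ => by positivity)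
  have e2 : ∑' k : ℕ, θ ^ (k + (L + 1)) * (cnt x (k + (L + 1)) 2 : ℝ) ≤
      (1 - θ)⁻¹ * (θ ^ (L + 1) * x) := by
    rw [← tsum_geometric_of_lt_one h0.le h1, ← tsum_mul_right]
    apply Summable.tsum_le_tsum
    · intro k
      rw [pow_add, mul_assoc]
      apply mul_le_mul_of_nonneg_left _ (by positivity)
      apply mul_le_mul_of_nonneg_left _ (by positivity)
      exact_mod_cast cnt_le x _ 2
    · exact (summable_nat_add_iff (L + 1)).2 hs
    · exact hg.mul_right _
  have h1θ : 0 < 1 - θ := by linarith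
  calc (1 - θ) * W θ x 2 ≤ (1 - θ) * ((1 - θ)⁻¹ * (G x L).card + (1 - θ)⁻¹ * (θ ^ (L + 1) * x)) := by
        rw [e]
        apply mul_le_mul_of_nonneg_left _ h1θ.le
        linarith
    _ = _ := by field_simp

open Classical in
/-- Integers `n ≤ x` with total stopping time at most `min (n, C log n)`. -/
noncomputable def F (C : ℝ) (x : ℕ) : Finset ℕ :=
  (Icc 1 x).filter (fun n => ∃ k : ℕ, k ≤ n ∧ (k : ℝ) ≤ C * Real.log n ∧ col^[k] n = 1)

theorem main_of_cert {θ γ γ' M : ℝ} (h0 : 0 < θ) (h1 : θ < 1) (hγ' : 1 / 2 ≤ γ') (hγ : γ' < γ)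
    (hM : 0 < M) {w : ℕ → ℝ} (hw0 : ∀ a, 0 ≤ w a) (hwM : ∀ a, w a ≤ M) (hw2 : 0 < w 2)
    (hc : Cert θ γ w) :
    ∃ C : ℝ, ∃ X : ℕ, ∀ x : ℕ, X ≤ x → (x : ℝ) ^ γ' ≤ ((F C x).card : ℝ) := by
  classical
  -- depth constant
  set D : ℝ := 1 / (- Real.log θ) with hD
  have hlogθ : Real.log θ < 0 := Real.log_neg h0 h1
  have hDpos : 0 < D := by
    rw [hD]; apply one_div_pos.2; linarith
  set C : ℝ := 2 * D + 2 with hC
  have hCpos : 0 < C := by positivity
  set c : ℝ := (1 - θ) * ((1 / (M * 4 ^ γ)) * (w 2 * (1 / 2) ^ γ)) with hcdef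
  have hcpos : 0 < c := by
    have : (0 : ℝ) < 4 ^ γ := Real.rpow_pos_of_pos (by norm_num) γ
    have h2 : (0 : ℝ) < (1 / 2 : ℝ) ^ γ := Real.rpow_pos_of_pos (by norm_num) γ
    have h3 : 0 < 1 - θ := by linarith
    positivity
  refine ⟨C, ?_⟩
  -- eventual facts
  have ev1 : ∀ᶠ y : ℝ in atTop, 3 * y ^ γ' ≤ c * y ^ γ := by
    have ht : Tendsto (fun y : ℝ => y ^ (γ - γ')) atTop atTop :=
      tendsto_rpow_atTop (by linarith)
    filter_upwards [ht.eventually_ge_atTop (3 / c), eventually_gt_atTop 0] with y hy hy0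
    have e : y ^ γ = y ^ (γ - γ') * y ^ γ' := by
      rw [← Real.rpow_add hy0]; congr 1; ring
    rw [e]
    have hpos : 0 < y ^ γ' := Real.rpow_pos_of_pos hy0 _
    have : 3 ≤ c * y ^ (γ - γ') := by
      rw [div_le_iff₀ hcpos] at hy
      linarith
    calc 3 * y ^ γ' ≤ (c * y ^ (γ - γ')) * y ^ γ' := mul_le_mul_of_nonneg_right this hpos.le
      _ = _ := by ring
  have ev2 : ∀ᶠ y : ℝ in atTop, C * Real.log y ≤ y := by
    have h := Real.isLittleO_log_id_atTop.def (c := 1 / C) (by positivity)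
    filter_upwards [h, eventually_ge_atTop 1] with y hy hy1
    simp only [id_eq, Real.norm_eq_abs] at hy
    rw [abs_of_nonneg (Real.log_nonneg hy1), abs_of_nonneg (by linarith)] at hy
    calc C * Real.log y ≤ C * (1 / C * y) := mul_le_mul_of_nonneg_left hy hCpos.le
      _ = y := by field_simp
  obtain ⟨Y1, hY1⟩ := eventually_atTop.1 ev1
  obtain ⟨Y2, hY2⟩ := eventually_atTop.1 ev2
  set N0 : ℝ := max Y2 3 with hN0
  obtain ⟨X, hX⟩ := exists_nat_ge (max (max Y1 4) (N0 ^ 2))
  refine ⟨X, fun x hx => ?_⟩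
  have hxX : (X : ℝ) ≤ x := by exact_mod_cast hx
  have hxY1 : Y1 ≤ x := le_trans (le_trans (le_max_left _ _) (le_max_left _ _)) (hX.trans hxX)
  have hx4 : (4 : ℝ) ≤ x := le_trans (le_trans (le_max_right _ _) (le_max_left _ _)) (hX.trans hxX)
  have hxN : N0 ^ 2 ≤ x := le_trans (le_max_right _ _) (hX.trans hxX)
  have hx0 : (0 : ℝ) < x := by linarith
  have hx1 : (1 : ℝ) ≤ x := by linarith
  have hlogx : 0 < Real.log x := Real.log_pos (by linarith)
  set L : ℕ := ⌊D * Real.log x⌋₊ with hL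
  have hLle : (L : ℝ) ≤ D * Real.log x := Nat.floor_le (by positivity)
  have hLlt : D * Real.log x < L + 1 := Nat.lt_floor_add_one _
  -- tail bound
  have htail : θ ^ (L + 1) * (x : ℝ) ≤ 1 := by
    have e1 : θ ^ (L + 1) = Real.exp (Real.log θ * ((L : ℝ) + 1)) := by
      rw [← Real.rpow_natCast, Real.rpow_def_of_pos h0]; push_cast; rfl
    have e2 : Real.exp (Real.log θ * ((L : ℝ) + 1)) * (x : ℝ) =
        Real.exp (Real.log θ * ((L : ℝ) + 1) + Real.log x) := by
      rw [Real.exp_add, Real.exp_log hx0]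
    rw [e1, e2]
    apply Real.exp_le_one_iff.2
    have h3 : Real.log x ≤ (- Real.log θ) * ((L : ℝ) + 1) := by
      have h4 : D * Real.log x ≤ (L : ℝ) + 1 := hLlt.le
      calc Real.log x = (- Real.log θ) * (D * Real.log x) := by
            rw [hD, ← mul_assoc, mul_one_div_cancel (by linarith), one_mul]
        _ ≤ _ := mul_le_mul_of_nonneg_left h4 (by linarith)
    linarith
  -- lower bound for G
  have hGlow : c * (x : ℝ) ^ γ - 1 ≤ (G x L).card := by
    have hW := W_lower h0 h1 (by linarith) hM hw0 hwM hc x 2 (by norm_num)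
      (by have : (2 : ℝ) ≤ x := by linarith
          exact_mod_cast this)
    have hU := W_upper h0 h1 x L
    have e : (1 / (M * 4 ^ γ)) * (w 2 * ((x : ℝ) / (2 : ℕ)) ^ γ) * (1 - θ) = c * (x : ℝ) ^ γ := by
      have : ((x : ℝ) / (2 : ℕ)) ^ γ = (1 / 2) ^ γ * (x : ℝ) ^ γ := by
        rw [← Real.mul_rpow (by norm_num) hx0.le]
        congr 1; push_cast; ring
      rw [this, hcdef]; ring
    have h3 : c * (x : ℝ) ^ γ ≤ (1 - θ) * W θ x 2 := by
      rw [← e, mul_comm]
      exact mul_le_mul_of_nonneg_left hW (by linarith)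
    linarith
  -- G minus small elements is inside F
  set s : ℕ := ⌊Real.sqrt x⌋₊ with hs
  have hsub : G x L \ Icc 1 s ⊆ F C x := by
    intro n hn
    unfold G at hn
    unfold F
    simp only [Finset.mem_sdiff, mem_filter, mem_Icc, not_and, not_le] at hn ⊢
    obtain ⟨⟨⟨hn1, hnx⟩, k, hkL, hk⟩, hns⟩ := hn
    have hns' := hns hn1
    have hsn : Real.sqrt x < n := by
      have := Nat.lt_of_floor_lt hns'
      exact this
    have hn0 : (0 : ℝ) < n := by exact_mod_cast hn1
    have hN0n : N0 ≤ n := by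
      have : N0 ≤ Real.sqrt x := by
        apply Real.le_sqrt_of_sq_le hxN
      linarith
    have hn3 : (3 : ℝ) ≤ n := le_trans (le_max_right _ _) hN0n
    have hlogn : 1 ≤ Real.log n := by
      rw [Real.le_log_iff_exp_le hn0]
      have := Real.exp_one_lt_d9
      linarith
    have hlogxn : Real.log x ≤ 2 * Real.log n := by
      have h5 : (x : ℝ) ≤ (n : ℝ) ^ 2 := by
        have := Real.sq_sqrt hx0.le
        have h6 := Real.sqrt_nonneg (x : ℝ)
        nlinarith
      have := Real.log_le_log hx0 h5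
      rwa [Real.log_pow, Nat.cast_ofNat] at this
    have hk1 : ((k + 1 : ℕ) : ℝ) ≤ C * Real.log n := by
      have h7 : (k : ℝ) ≤ D * Real.log x := le_trans (by exact_mod_cast hkL) hLle
      have h8 : D * Real.log x ≤ D * (2 * Real.log n) := mul_le_mul_of_nonneg_left hlogxn hDpos.le
      push_cast
      rw [hC]
      nlinarith
    refine ⟨⟨hn1, hnx⟩, k + 1, ?_, hk1, ?_⟩
    · have h9 := hY2 n (le_trans (le_max_left _ _) hN0n)
      have : ((k + 1 : ℕ) : ℝ) ≤ n := hk1.trans h9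
      exact_mod_cast this
    · rw [Function.iterate_succ_apply', hk]; rfl
  have hcard : ((G x L).card : ℝ) - s ≤ (F C x).card := by
    have h1 : (G x L).card ≤ (G x L \ Icc 1 s).card + (Icc 1 s).card := by
      have := card_le_card_sdiff_add_card (s := G x L) (t := Icc 1 s)
      omega
    have h2 : (Icc 1 s).card = s := by simp
    have h3 := card_le_card hsub
    have h4 : (G x L).card ≤ (F C x).card + s := by omega
    have h5 : ((G x L).card : ℝ) ≤ (F C x).card + s := by exact_mod_cast h4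
    linarith
  have hsle : (s : ℝ) ≤ (x : ℝ) ^ γ' := by
    have h1 : (s : ℝ) ≤ Real.sqrt x := Nat.floor_le (Real.sqrt_nonneg _)
    rw [Real.sqrt_eq_rpow] at h1
    exact h1.trans (Real.rpow_le_rpow_of_exponent_le hx1 hγ')
  have hone : (1 : ℝ) ≤ (x : ℝ) ^ γ' := Real.one_le_rpow hx1 (by linarith)
  have h3 := hY1 x hxY1
  linarith

end Pool.Agent.Lib.MP_e43fce_nt.KL
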