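import Pool.Agent.Lib.MP_e43fce_nt.KLTwo
import Pool.Agent.Lib.MP_e43fce_nt.Steer2

/-!
# Counting ancestors of `a` in a residue class
-/

namespace Pool.Agent.Lib.MP_e43fce_nt.KL

open Finset Filter

/-- Some `2^i a` is `≡ 2 (mod 3^15)`. -/
lemma exists_root {a : ℕ} (ha : ¬ 3 ∣ a) : ∃ i : ℕ, (2 ^ i * a) % 3 ^ 15 = 2 := by
  have key : ∀ b : ℕ, b % 3 = 2 → ∃ i : ℕ, (2 ^ i * b) % 3 ^ 15 = 2 := by
    intro b hb
    have hb3 : ¬ (3 : ℤ) ∣ (b : ℤ) := by omega
    obtain ⟨w, q, hq⟩ := exists_inv hb3 15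
    have hz : (3 : ℤ) ^ 1 ∣ 2 * w - 1 := by
      have h1 : (b : ℤ) = 3 * (b / 3 : ℕ) + 2 := by omega
      refine ⟨3 ^ 14 * q - (b / 3 : ℕ) * w, ?_⟩
      rw [h1] at hq
      linear_combination hq
    obtain ⟨k, _, s, hs⟩ := exists_pow_cong (e := 1) le_rfl (u := 1) (by norm_num) 14 (2 * w) hz
    refine ⟨2 * k, ?_⟩
    have h4 : (1 + 3 ^ 1 * 1 : ℤ) ^ k = 2 ^ (2 * k) := by
      rw [pow_mul]; norm_num
    rw [h4] at hs
    have hd : (3 ^ 15 : ℤ) ∣ 2 ^ (2 * k) * b - 2 := by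
      refine ⟨2 * q - b * s, ?_⟩
      norm_num at hs hq ⊢
      linear_combination 2 * hq - b * hs
    have hd' : ((2 ^ (2 * k) * b : ℕ) : ℤ) % 3 ^ 15 = 2 := by
      push_cast
      generalize (2 : ℤ) ^ (2 * k) * b = t at hd
      omega
    exact_mod_cast hd'
  have h3 : a % 3 = 1 ∨ a % 3 = 2 := by omega
  rcases h3 with h3 | h3
  · obtain ⟨i, hi⟩ := key (2 * a) (by omega)
    exact ⟨i + 1, by rw [pow_succ, mul_assoc]; exact hi⟩
  · exact key a h3

/-- Counting through a map with small fibres along Collatz orbits. -/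
lemma card_le_fibre {S T : Finset ℕ} {L : ℕ} (s : ℕ → ℕ) (hs : ∀ m ∈ S, s m ∈ T)
    (hk : ∀ m ∈ S, ∃ k ≤ L, col^[k] (s m) = m) : S.card ≤ (L + 1) * T.card := by
  classical
  apply card_le_mul_card_image_of_maps_to hs
  intro n _
  have : (S.filter (fun m => s m = n)) ⊆ (range (L + 1)).image (fun k => col^[k] n) := by
    intro m hm
    simp only [mem_filter] at hm
    obtain ⟨k, hk1, hk2⟩ := hk m hm.1
    rw [hm.2] at hk2
    exact mem_image.2 ⟨k, by simpa [Nat.lt_succ_iff] using hk1, hk2⟩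
  calc _ ≤ ((range (L + 1)).image (fun k => col^[k] n)).card := card_le_card this
    _ ≤ (range (L + 1)).card := card_image_le
    _ = L + 1 := by simp

open Classical in
/-- Integers `n ≤ x` in the residue class of `r` modulo `M` which reach `a` within
`min (n, C log n)` steps. -/
noncomputable def FP (C : ℝ) (a M r x : ℕ) : Finset ℕ :=
  (Icc 1 x).filter (fun n => n % M = r % M ∧ ∃ k : ℕ, k ≤ n ∧ (k : ℝ) ≤ C * Real.log n ∧
    col^[k] n = a)

theorem main_prog {θ γ γ' Mw : ℝ} (h0 : 0 < θ) (h1 : θ < 1) (hγ' : 1 / 2 ≤ γ') (hγ : γ' < γ)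
    (hM : 0 < Mw) {w : ℕ → ℝ} (hw0 : ∀ a, 0 ≤ w a) (hwM : ∀ a, w a ≤ Mw)
    (hper : ∀ b, b % 3 ^ 15 = 2 → 0 < w b) (hc : Cert θ γ w) :
    ∀ a : ℕ, ¬ 3 ∣ a → ∀ M r : ℕ, 0 < M → ∃ X : ℕ, ∀ x : ℕ, X ≤ x →
      (x : ℝ) ^ γ' ≤ ((FP (2 * (1 / (- Real.log θ)) + 1) a M r x).card : ℝ) := by
  classical
  intro a ha M r hMpos
  have hlogθ : Real.log θ < 0 := Real.log_neg h0 h1
  set D : ℝ := 1 / (- Real.log θ) with hD
  have hDpos : 0 < D := by
    rw [hD]; apply one_div_pos.2; linarith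
  set C : ℝ := 2 * D + 1 with hC
  have hCpos : 0 < C := by positivity
  obtain ⟨i, hi⟩ := exists_root ha
  set b : ℕ := 2 ^ i * a with hb
  have hb3 : b % 3 = 2 := by omega
  obtain ⟨c, hcpos, hcount⟩ := GT_lower h0 h1 (by linarith : 0 < γ) hM hw0 hwM hc hb3 (hper b hi)
  obtain ⟨K, L, m0, hK, hsteer⟩ := steer M r hMpos
  -- the constant in front of `x^γ`
  set c' : ℝ := c * (1 / (2 * (K : ℝ))) ^ γ with hc'
  have hKr : (0 : ℝ) < K := by exact_mod_cast hK
  have hc'pos : 0 < c' := by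
    have : (0 : ℝ) < (1 / (2 * (K : ℝ))) ^ γ := Real.rpow_pos_of_pos (by positivity) γ
    positivity
  set A : ℝ := 2 * ((L : ℝ) + 1) + 1 + m0 with hA
  have hApos : 0 < A := by positivity
  have ev1 : ∀ᶠ y : ℝ in atTop, A * y ^ γ' ≤ c' * y ^ γ := by
    have ht : Tendsto (fun y : ℝ => y ^ (γ - γ')) atTop atTop :=
      tendsto_rpow_atTop (by linarith)
    filter_upwards [ht.eventually_ge_atTop (A / c'), eventually_gt_atTop 0] with y hy hy0
    have e : y ^ γ = y ^ (γ - γ') * y ^ γ' := by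
      rw [← Real.rpow_add hy0]; congr 1; ring
    rw [e]
    have hpos : 0 < y ^ γ' := Real.rpow_pos_of_pos hy0 _
    have : A ≤ c' * y ^ (γ - γ') := by
      rw [div_le_iff₀ hc'pos] at hy
      linarith
    calc A * y ^ γ' ≤ (c' * y ^ (γ - γ')) * y ^ γ' := mul_le_mul_of_nonneg_right this hpos.le
      _ = _ := by ring
  have ev2 : ∀ᶠ y : ℝ in atTop, C * Real.log y ≤ y := by
    have h := Real.isLittleO_log_id_atTop.def (c := 1 / C) (by positivity)
    filter_upwards [h, eventually_ge_atTop 1] with y hy hy1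
    simp only [id_eq, Real.norm_eq_abs] at hy
    rw [abs_of_nonneg (Real.log_nonneg hy1), abs_of_nonneg (by linarith)] at hy
    calc C * Real.log y ≤ C * (1 / C * y) := mul_le_mul_of_nonneg_left hy hCpos.le
      _ = y := by field_simp
  obtain ⟨Y1, hY1⟩ := eventually_atTop.1 ev1
  obtain ⟨Y2, hY2⟩ := eventually_atTop.1 ev2
  set N0 : ℝ := max Y2 (Real.exp ((i : ℝ) + L)) with hN0
  have hN0pos : 0 < N0 := lt_of_lt_of_le (Real.exp_pos _) (le_max_right _ _)
  obtain ⟨X, hX⟩ := exists_nat_ge (max (max (max Y1 1) (N0 ^ 2)) ((K : ℝ) * (b + 2)))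
  refine ⟨X, fun x hx => ?_⟩
  have hxX : (X : ℝ) ≤ x := by exact_mod_cast hx
  have hX1 : max (max Y1 1) (N0 ^ 2) ≤ (x : ℝ) := (le_max_left _ _).trans (hX.trans hxX)
  have hX2 : (K : ℝ) * (b + 2) ≤ (x : ℝ) := (le_max_right _ _).trans (hX.trans hxX)
  have hxY1 : Y1 ≤ x := le_trans (le_trans (le_max_left _ _) (le_max_left _ _)) hX1
  have hx1 : (1 : ℝ) ≤ x := le_trans (le_trans (le_max_right _ _) (le_max_left _ _)) hX1
  have hxN : N0 ^ 2 ≤ x := le_trans (le_max_right _ _) hX1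
  have hx0 : (0 : ℝ) < x := by linarith
  -- `y = x / K`
  set y : ℕ := x / K with hy
  have hyK : K * y ≤ x := Nat.mul_div_le x K
  have hby : b + 2 ≤ y := by
    rw [hy, Nat.le_div_iff_mul_le hK, mul_comm]
    exact_mod_cast hX2
  have hyx : y ≤ x := Nat.div_le_self x K
  have hy1 : (1 : ℝ) ≤ y := by
    have : 1 ≤ y := by omega
    exact_mod_cast this
  have hyle : (y : ℝ) ≤ x := by exact_mod_cast hyx
  have hylow : (x : ℝ) * (1 / (2 * (K : ℝ))) ≤ y := by
    have h2 : x < K * (y + 1) := by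
      have := Nat.lt_mul_div_succ x hK
      exact this
    have h3 : (x : ℝ) < K * (y + 1) := by exact_mod_cast h2
    have h4 : (K : ℝ) * (y + 1) ≤ K * (2 * y) := mul_le_mul_of_nonneg_left (by linarith) hKr.le
    rw [mul_one_div, div_le_iff₀ (by positivity)]
    linarith
  have hypow : c' * (x : ℝ) ^ γ ≤ c * (y : ℝ) ^ γ := by
    have h2 : ((x : ℝ) * (1 / (2 * (K : ℝ)))) ^ γ ≤ (y : ℝ) ^ γ :=
      Real.rpow_le_rpow (by positivity) hylow (by linarith)
    rw [Real.mul_rpow hx0.le (by positivity)] at h2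
    calc c' * (x : ℝ) ^ γ = c * ((x : ℝ) ^ γ * (1 / (2 * (K : ℝ))) ^ γ) := by rw [hc']; ring
      _ ≤ _ := mul_le_mul_of_nonneg_left h2 hcpos.le
  set Ly : ℕ := ⌊D * Real.log y⌋₊ with hLy
  have hLyle : (Ly : ℝ) ≤ D * Real.log y :=
    Nat.floor_le (mul_nonneg hDpos.le (Real.log_nonneg hy1))
  have hG : c * (y : ℝ) ^ γ - 1 ≤ (GT b y Ly).card := hcount y (by omega)
  set S : Finset ℕ := (GT b y Ly).filter (fun m => m0 ≤ m) with hS
  have hScard : ((GT b y Ly).card : ℝ) ≤ S.card + m0 := by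
    have h2 : (GT b y Ly) ⊆ S ∪ range m0 := by
      intro m hm
      by_cases h : m0 ≤ m
      · exact mem_union_left _ (mem_filter.2 ⟨hm, h⟩)
      · exact mem_union_right _ (mem_range.2 (by omega))
    have h3 := (card_le_card h2).trans (card_union_le _ _)
    rw [card_range] at h3
    exact_mod_cast h3
  -- the steering map
  have hex : ∀ m ∈ S, ∃ n : ℕ, 0 < n ∧ n ≤ K * m ∧ n % M = r % M ∧ ∃ k ≤ L, col^[k] n = m := by
    intro m hm
    simp only [hS, GT, mem_filter, mem_Icc] at hm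
    exact hsteer m hm.2 (by omega)
  choose! s hs using hex
  set sq : ℕ := ⌊Real.sqrt x⌋₊ with hsq
  set T : Finset ℕ := FP C a M r x with hT
  have hmaps : ∀ m ∈ S, s m ∈ T ∪ Icc 1 sq := by
    intro m hm
    obtain ⟨hn0, hnK, hnM, k, hkL, hk⟩ := hs m hm
    simp only [hS, GT, mem_filter, mem_Icc] at hm
    obtain ⟨⟨⟨hm1, hmy⟩, hm3, k2, hk2L, hk2⟩, hm0⟩ := hm
    by_cases hsmall : s m ≤ sq
    · exact mem_union_right _ (mem_Icc.2 ⟨hn0, hsmall⟩)
    · apply mem_union_left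
      rw [hT]
      unfold FP
      rw [mem_filter, mem_Icc]
      have hnx : s m ≤ x := by
        calc s m ≤ K * m := hnK
          _ ≤ K * y := Nat.mul_le_mul_left _ hmy
          _ ≤ x := hyK
      have hsn : Real.sqrt x < s m := Nat.lt_of_floor_lt (not_le.1 hsmall)
      have hn0r : (0 : ℝ) < s m := by exact_mod_cast hn0
      have hN0n : N0 ≤ s m := by
        have : N0 ≤ Real.sqrt x := Real.le_sqrt_of_sq_le hxN
        linarith
      have hlogn : (i : ℝ) + L ≤ Real.log (s m) := by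
        rw [Real.le_log_iff_exp_le hn0r]
        exact le_trans (le_max_right _ _) hN0n
      have hlogxn : Real.log x ≤ 2 * Real.log (s m) := by
        have h5 : (x : ℝ) ≤ (s m : ℝ) ^ 2 := by
          have := Real.sq_sqrt hx0.le
          have h6 := Real.sqrt_nonneg (x : ℝ)
          nlinarith
        have := Real.log_le_log hx0 h5
        rwa [Real.log_pow, Nat.cast_ofNat] at this
      have hlogy : Real.log y ≤ Real.log x := Real.log_le_log (by linarith) hyle
      have hk1 : ((i + (k2 + k) : ℕ) : ℝ) ≤ C * Real.log (s m) := by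
        have h7 : (k2 : ℝ) ≤ D * Real.log y := le_trans (by exact_mod_cast hk2L) hLyle
        have h8 : D * Real.log y ≤ D * (2 * Real.log (s m)) :=
          mul_le_mul_of_nonneg_left (hlogy.trans hlogxn) hDpos.le
        have h9 : (k : ℝ) ≤ L := by exact_mod_cast hkL
        push_cast
        rw [hC]
        linarith
      refine ⟨⟨hn0, hnx⟩, hnM, i + (k2 + k), ?_, hk1, ?_⟩
      · have h9 := hY2 (s m) (le_trans (le_max_left _ _) hN0n)
        have : ((i + (k2 + k) : ℕ) : ℝ) ≤ s m := hk1.trans h9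
        exact_mod_cast this
      · rw [Function.iterate_add_apply, Function.iterate_add_apply, hk, hk2, hb,
          col_iter_two_pow]
  have hfib := card_le_fibre (L := L) s hmaps (fun m hm => (hs m hm).2.2.2)
  have hfib2 : (S.card : ℝ) ≤ ((L : ℝ) + 1) * (T.card + sq) := by
    have h2 : (T ∪ Icc 1 sq).card ≤ T.card + sq := by
      refine (card_union_le _ _).trans ?_
      simp
    have h3 : S.card ≤ (L + 1) * (T.card + sq) := hfib.trans (Nat.mul_le_mul_left _ h2)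
    exact_mod_cast h3
  have hsqle : (sq : ℝ) ≤ (x : ℝ) ^ γ' := by
    have h1 : (sq : ℝ) ≤ Real.sqrt x := Nat.floor_le (Real.sqrt_nonneg _)
    rw [Real.sqrt_eq_rpow] at h1
    exact h1.trans (Real.rpow_le_rpow_of_exponent_le hx1 hγ')
  have hone : (1 : ℝ) ≤ (x : ℝ) ^ γ' := Real.one_le_rpow hx1 (by linarith)
  have hfin := hY1 x hxY1
  -- conclusion
  set P : ℝ := (x : ℝ) ^ γ' with hP
  have e1 : A * P ≤ ((L : ℝ) + 1) * (T.card + sq) + m0 + 1 := by
    calc A * P ≤ c' * (x : ℝ) ^ γ := hfin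
      _ ≤ c * (y : ℝ) ^ γ := hypow
      _ ≤ (GT b y Ly).card + 1 := by linarith
      _ ≤ S.card + m0 + 1 := by linarith
      _ ≤ _ := by linarith
  have e2 : ((L : ℝ) + 1) * sq ≤ ((L : ℝ) + 1) * P := mul_le_mul_of_nonneg_left hsqle (by positivity)
  have e3 : (m0 : ℝ) * 1 ≤ m0 * P := mul_le_mul_of_nonneg_left hone (by positivity)
  have e4 : ((L : ℝ) + 1) * P ≤ ((L : ℝ) + 1) * T.card := by
    rw [hA] at e1
    linarith
  exact le_of_mul_le_mul_left e4 (by positivity)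

end Pool.Agent.Lib.MP_e43fce_nt.KL
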