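import Pool.Agent.Lib.MP_e43fce_nt.KLCore

/-!
# The discounted count restricted to integers `≡ 2 (mod 3)`

Same argument as in `KLCore`, for the number of `n ≡ 2 (mod 3)` whose trajectory meets `a`.
-/

namespace Pool.Agent.Lib.MP_e43fce_nt.KL

open Finset

/-- Number of `n ≡ 2 (mod 3)` in `[1,x]` with `C^k n = a`. -/
def cntT (x k a : ℕ) : ℕ := ((Icc 1 x).filter (fun n => n % 3 = 2 ∧ col^[k] n = a)).card

lemma cntT_le (x k a : ℕ) : cntT x k a ≤ x := by
  unfold cntT
  calc _ ≤ (Icc 1 x).card := card_filter_le _ _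
    _ = x := by simp

lemma cntT_succ_ge (x k a : ℕ) : cntT x k (2 * a) ≤ cntT x (k + 1) a := by
  unfold cntT
  apply card_le_card
  intro n hn
  simp only [mem_filter] at hn ⊢
  refine ⟨hn.1, hn.2.1, ?_⟩
  rw [Function.iterate_succ_apply', hn.2.2, col_two_mul]

lemma cntT_two_ge (x k a b : ℕ) (h : 3 * b + 1 = 2 * a) :
    cntT x k (4 * a) + cntT x k b ≤ cntT x (k + 2) a := by
  unfold cntT
  rw [← card_union_of_disjoint]
  · apply card_le_card
    intro n hn
    simp only [mem_union, mem_filter] at hn ⊢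
    rcases hn with hn | hn
    · refine ⟨hn.1, hn.2.1, ?_⟩
      rw [Function.iterate_succ_apply', Function.iterate_succ_apply', hn.2.2,
        show 4 * a = 2 * (2 * a) by ring, col_two_mul, col_two_mul]
    · refine ⟨hn.1, hn.2.1, ?_⟩
      rw [Function.iterate_succ_apply', Function.iterate_succ_apply', hn.2.2, col_odd h,
        col_two_mul]
  · rw [disjoint_filter]
    intro n _ h1 h2
    omega

lemma cntT_zero (x a : ℕ) (h1 : 1 ≤ a) (h2 : a ≤ x) (h3 : a % 3 = 2) : cntT x 0 a = 1 := by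
  unfold cntT
  have : (Icc 1 x).filter (fun n => n % 3 = 2 ∧ col^[0] n = a) = {a} := by
    ext n
    rw [mem_filter, mem_Icc, mem_singleton]
    constructor
    · rintro ⟨_, _, h⟩
      simpa using h
    · rintro rfl
      exact ⟨⟨h1, h2⟩, h3, rfl⟩
  rw [this]; simp

/-- The discounted count. -/
noncomputable def V (θ : ℝ) (x a : ℕ) : ℝ := ∑' k : ℕ, θ ^ k * (cntT x k a : ℝ)

section
variable {θ : ℝ} (h0 : 0 ≤ θ) (h1 : θ < 1)
include h0 h1

lemma summable_V (x a : ℕ) : Summable (fun k : ℕ => θ ^ k * (cntT x k a : ℝ)) := by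
  apply Summable.of_nonneg_of_le (f := fun k : ℕ => θ ^ k * (x : ℝ))
  · intro k; positivity
  · intro k
    apply mul_le_mul_of_nonneg_left _ (by positivity)
    exact_mod_cast cntT_le x k a
  · exact (summable_geometric_of_lt_one h0 h1).mul_right _

omit h1 in
lemma V_nonneg (x a : ℕ) : 0 ≤ V θ x a := by
  unfold V
  apply tsum_nonneg
  intro k; positivity

lemma V_double (x a : ℕ) : θ * V θ x (2 * a) ≤ V θ x a := by
  have hs := summable_V h0 h1 x a
  have e : V θ x a = θ ^ 0 * (cntT x 0 a : ℝ) + ∑' k : ℕ, θ ^ (k + 1) * (cntT x (k + 1) a : ℝ) := by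
    unfold V
    rw [hs.tsum_eq_zero_add]
  rw [e]
  have h2 : θ * V θ x (2 * a) ≤ ∑' k : ℕ, θ ^ (k + 1) * (cntT x (k + 1) a : ℝ) := by
    unfold V
    rw [← tsum_mul_left]
    apply Summable.tsum_le_tsum
    · intro k
      rw [← mul_assoc, ← pow_succ']
      apply mul_le_mul_of_nonneg_left _ (by positivity)
      exact_mod_cast cntT_succ_ge x k a
    · exact (summable_V h0 h1 x (2 * a)).mul_left θ
    · exact (summable_nat_add_iff 1).2 hs
  have : 0 ≤ θ ^ 0 * (cntT x 0 a : ℝ) := by positivity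
  linarith

lemma V_branch (x a b : ℕ) (ha : 1 ≤ a) (hax : a ≤ x) (ha3 : a % 3 = 2)
    (h : 3 * b + 1 = 2 * a) :
    1 + θ ^ 2 * (V θ x (4 * a) + V θ x b) ≤ V θ x a := by
  have hs := summable_V h0 h1 x a
  have hs1 := (summable_nat_add_iff 1).2 hs
  have e : V θ x a = θ ^ 0 * (cntT x 0 a : ℝ) + (θ ^ (0 + 1) * (cntT x (0 + 1) a : ℝ) +
      ∑' k : ℕ, θ ^ (k + 1 + 1) * (cntT x (k + 1 + 1) a : ℝ)) := by
    unfold V
    rw [hs.tsum_eq_zero_add, hs1.tsum_eq_zero_add]
  rw [e, cntT_zero x a ha hax ha3]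
  have h2 : θ ^ 2 * (V θ x (4 * a) + V θ x b) ≤
      ∑' k : ℕ, θ ^ (k + 1 + 1) * (cntT x (k + 1 + 1) a : ℝ) := by
    unfold V
    rw [← (summable_V h0 h1 x (4 * a)).tsum_add (summable_V h0 h1 x b), ← tsum_mul_left]
    apply Summable.tsum_le_tsum
    · intro k
      have hk := cntT_two_ge x k a b h
      have hk' : (cntT x k (4 * a) : ℝ) + (cntT x k b : ℝ) ≤ (cntT x (k + 1 + 1) a : ℝ) := by
        exact_mod_cast hk
      calc θ ^ 2 * (θ ^ k * (cntT x k (4 * a) : ℝ) + θ ^ k * (cntT x k b : ℝ))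
          = θ ^ (k + 1 + 1) * ((cntT x k (4 * a) : ℝ) + (cntT x k b : ℝ)) := by ring
        _ ≤ _ := mul_le_mul_of_nonneg_left hk' (by positivity)
    · exact ((summable_V h0 h1 x (4 * a)).add (summable_V h0 h1 x b)).mul_left _
    · exact (summable_nat_add_iff 1).2 hs1
  have : 0 ≤ θ ^ (0 + 1) * (cntT x (0 + 1) a : ℝ) := by positivity
  simp only [pow_zero, Nat.cast_one, one_mul] at *
  linarith

end

theorem V_lower {θ γ M : ℝ} (h0 : 0 < θ) (h1 : θ < 1) (hγ : 0 < γ) (hM : 0 < M) {w : ℕ → ℝ}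
    (hw0 : ∀ a, 0 ≤ w a) (hwM : ∀ a, w a ≤ M) (hc : Cert θ γ w) (x : ℕ) :
    ∀ a, a % 3 = 2 → a ≤ x → (1 / (M * 4 ^ γ)) * (w a * ((x : ℝ) / a) ^ γ) ≤ V θ x a := by
  classical
  by_contra hcon
  push Not at hcon
  obtain ⟨a1, ha1, ha1x, hlt⟩ := hcon
  set δ : ℝ := 1 / (M * 4 ^ γ) with hδ
  have hδpos : 0 < δ := by positivity
  set S : Finset ℕ := (Icc 1 x).filter (fun a => a % 3 = 2 ∧ 0 < w a) with hS
  set g : ℕ → ℝ := fun a => w a * ((x : ℝ) / a) ^ γ with hg
  have hx : (1 : ℝ) ≤ x := by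
    have : 1 ≤ x := by omega
    exact_mod_cast this
  have hgpos : ∀ a ∈ S, 0 < g a := by
    intro a ha
    simp only [hS, mem_filter, mem_Icc] at ha
    have ha0 : (0 : ℝ) < a := by
      have : 0 < a := by omega
      exact_mod_cast this
    simp only [hg]
    have : 0 < (x : ℝ) / a := by positivity
    have h3 := Real.rpow_pos_of_pos this γ
    exact mul_pos ha.2.2 h3
  have ha1S : a1 ∈ S := by
    simp only [hS, mem_filter, mem_Icc]
    refine ⟨⟨by omega, ha1x⟩, ha1, ?_⟩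
    by_contra hneg
    have : w a1 = 0 := le_antisymm (not_lt.mp hneg) (hw0 a1)
    rw [this] at hlt
    have := V_nonneg h0.le x a1
    simp at hlt
    linarith
  obtain ⟨a, haS, hmin⟩ := exists_min_image S (fun a => V θ x a / g a) ⟨a1, ha1S⟩
  set ρ : ℝ := V θ x a / g a with hρ
  have hga := hgpos a haS
  have hρ0 : 0 ≤ ρ := div_nonneg (V_nonneg h0.le x a) hga.le
  have hρδ : ρ < δ := by
    have h2 := hmin a1 ha1S
    have h3 : V θ x a1 / g a1 < δ := by
      rw [div_lt_iff₀ (hgpos a1 ha1S)]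
      exact hlt
    linarith
  have hWa : V θ x a = ρ * g a := by
    rw [hρ]; field_simp
  -- lower bound for all b
  have hlow : ∀ b : ℕ, b % 3 = 2 → b ≤ x → ρ * (w b * ((x : ℝ) / b) ^ γ) ≤ V θ x b := by
    intro b hb hbx
    by_cases hwb : 0 < w b
    · have hbS : b ∈ S := by
        simp only [hS, mem_filter, mem_Icc]
        exact ⟨⟨by omega, hbx⟩, hb, hwb⟩
      have h2 := hmin b hbS
      rw [le_div_iff₀ (hgpos b hbS)] at h2
      exact h2
    · have : w b = 0 := le_antisymm (not_lt.mp hwb) (hw0 b)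
      rw [this]
      have := V_nonneg h0.le x b
      simpa using this
  have haS' := haS
  simp only [hS, mem_filter, mem_Icc] at haS'
  obtain ⟨⟨ha_1, ha_x⟩, ha3, hwa⟩ := haS'
  have ha0 : (0 : ℝ) < a := by exact_mod_cast ha_1
  have hx0 : (0 : ℝ) < x := by linarith
  -- the odd predecessor
  obtain ⟨b, hb⟩ : ∃ b : ℕ, 3 * b + 1 = 2 * a := ⟨(2 * a - 1) / 3, by omega⟩
  have hbr := V_branch h0.le h1 x a b ha_1 ha_x ha3 hb
  by_cases h4 : 4 * a ≤ x
  · -- recursive case
    have key : ρ * g a ≤ θ ^ 2 * (V θ x (4 * a) + V θ x b) := by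
      have hca := hc a ha3
      have hP : 0 < ((x : ℝ) / a) ^ γ := Real.rpow_pos_of_pos (by positivity) γ
      have h4a : ρ * (w (4 * a) * ((1 / 4) ^ γ * ((x : ℝ) / a) ^ γ)) ≤ V θ x (4 * a) := by
        have := hlow (4 * a) (by omega) h4
        have e : ((x : ℝ) / ((4 * a : ℕ) : ℝ)) ^ γ = (1 / 4) ^ γ * ((x : ℝ) / a) ^ γ := by
          rw [← Real.mul_rpow (by norm_num) (by positivity)]
          congr 1
          push_cast
          field_simp
        rw [e] at this
        exact this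
      -- branch bound
      have hbr2 : ρ * ((if a % 9 = 2 then θ ^ 3 * (3 / 4) ^ γ * w ((4 * a - 2) / 3)
          else if a % 9 = 8 then θ ^ 2 * (3 / 2) ^ γ * w ((2 * a - 1) / 3) else 0) *
          ((x : ℝ) / a) ^ γ) ≤ θ ^ 2 * V θ x b := by
        split_ifs with h9 h9'
        · -- a % 9 = 2
          have e1 : (4 * a - 2) / 3 = 2 * b := by omega
          rw [e1]
          have hl := hlow (2 * b) (by omega) (by omega)
          have hd := V_double h0.le h1 x b
          have hb0 : (0 : ℝ) < b := by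
            have : 0 < b := by omega
            exact_mod_cast this
          have e2 : (3 / 4 : ℝ) ^ γ * ((x : ℝ) / a) ^ γ ≤ ((x : ℝ) / ((2 * b : ℕ) : ℝ)) ^ γ := by
            rw [← Real.mul_rpow (by norm_num) (by positivity)]
            apply Real.rpow_le_rpow (by positivity) _ hγ.le
            push_cast
            rw [div_mul_div_comm, div_le_div_iff₀ (by positivity) (by positivity)]
            have hb' : (3 : ℝ) * b + 1 = 2 * a := by exact_mod_cast hb
            nlinarith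
          have e3 : ρ * (w (2 * b) * ((3 / 4 : ℝ) ^ γ * ((x : ℝ) / a) ^ γ)) ≤ V θ x (2 * b) := by
            refine le_trans ?_ hl
            apply mul_le_mul_of_nonneg_left _ hρ0
            exact mul_le_mul_of_nonneg_left e2 (hw0 _)
          calc ρ * (θ ^ 3 * (3 / 4) ^ γ * w (2 * b) * ((x : ℝ) / a) ^ γ)
              = θ ^ 3 * (ρ * (w (2 * b) * ((3 / 4 : ℝ) ^ γ * ((x : ℝ) / a) ^ γ))) := by ring
            _ ≤ θ ^ 3 * V θ x (2 * b) := mul_le_mul_of_nonneg_left e3 (by positivity)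
            _ = θ ^ 2 * (θ * V θ x (2 * b)) := by ring
            _ ≤ θ ^ 2 * V θ x b := mul_le_mul_of_nonneg_left hd (by positivity)
        · -- a % 9 = 8
          have e1 : (2 * a - 1) / 3 = b := by omega
          rw [e1]
          have hl := hlow b (by omega) (by omega)
          have hb0 : (0 : ℝ) < b := by
            have : 0 < b := by omega
            exact_mod_cast this
          have e2 : (3 / 2 : ℝ) ^ γ * ((x : ℝ) / a) ^ γ ≤ ((x : ℝ) / b) ^ γ := by
            rw [← Real.mul_rpow (by norm_num) (by positivity)]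
            apply Real.rpow_le_rpow (by positivity) _ hγ.le
            rw [div_mul_div_comm, div_le_div_iff₀ (by positivity) (by positivity)]
            have hb' : (3 : ℝ) * b + 1 = 2 * a := by exact_mod_cast hb
            nlinarith
          have e3 : ρ * (w b * ((3 / 2 : ℝ) ^ γ * ((x : ℝ) / a) ^ γ)) ≤ V θ x b := by
            refine le_trans ?_ hl
            apply mul_le_mul_of_nonneg_left _ hρ0
            exact mul_le_mul_of_nonneg_left e2 (hw0 _)
          calc ρ * (θ ^ 2 * (3 / 2) ^ γ * w b * ((x : ℝ) / a) ^ γ)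
              = θ ^ 2 * (ρ * (w b * ((3 / 2 : ℝ) ^ γ * ((x : ℝ) / a) ^ γ))) := by ring
            _ ≤ θ ^ 2 * V θ x b := mul_le_mul_of_nonneg_left e3 (by positivity)
        · have := V_nonneg h0.le x b
          simp only [zero_mul, mul_zero]
          positivity
      calc ρ * g a = ρ * (w a * ((x : ℝ) / a) ^ γ) := rfl
        _ ≤ ρ * ((θ ^ 2 * (1 / 4) ^ γ * w (4 * a) +
            (if a % 9 = 2 then θ ^ 3 * (3 / 4) ^ γ * w ((4 * a - 2) / 3)
              else if a % 9 = 8 then θ ^ 2 * (3 / 2) ^ γ * w ((2 * a - 1) / 3) else 0)) *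
              ((x : ℝ) / a) ^ γ) := by
            apply mul_le_mul_of_nonneg_left _ hρ0
            exact mul_le_mul_of_nonneg_right hca hP.le
        _ = θ ^ 2 * (ρ * (w (4 * a) * ((1 / 4) ^ γ * ((x : ℝ) / a) ^ γ))) +
            ρ * ((if a % 9 = 2 then θ ^ 3 * (3 / 4) ^ γ * w ((4 * a - 2) / 3)
              else if a % 9 = 8 then θ ^ 2 * (3 / 2) ^ γ * w ((2 * a - 1) / 3) else 0) *
              ((x : ℝ) / a) ^ γ) := by ring
        _ ≤ θ ^ 2 * V θ x (4 * a) + θ ^ 2 * V θ x b :=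
            add_le_add (mul_le_mul_of_nonneg_left h4a (by positivity)) hbr2
        _ = _ := by ring
    linarith
  · -- top case
    have hW1 : 1 ≤ V θ x a := by
      have h2 := V_nonneg h0.le x (4 * a)
      have h3 := V_nonneg h0.le x b
      have : 0 ≤ θ ^ 2 * (V θ x (4 * a) + V θ x b) := by positivity
      linarith
    have hxa : (x : ℝ) / a ≤ 4 := by
      rw [div_le_iff₀ ha0]
      have : x ≤ 4 * a := by omega
      exact_mod_cast this
    have hg4 : g a ≤ M * 4 ^ γ := by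
      simp only [hg]
      have h2 : ((x : ℝ) / a) ^ γ ≤ 4 ^ γ := Real.rpow_le_rpow (by positivity) hxa hγ.le
      have h3 : 0 ≤ ((x : ℝ) / a) ^ γ := by positivity
      calc w a * ((x : ℝ) / a) ^ γ ≤ M * ((x : ℝ) / a) ^ γ := mul_le_mul_of_nonneg_right (hwM a) h3
        _ ≤ M * 4 ^ γ := mul_le_mul_of_nonneg_left h2 hM.le
    have : ρ * g a < 1 := by
      have h4γ : (0 : ℝ) < 4 ^ γ := Real.rpow_pos_of_pos (by norm_num) γ
      calc ρ * g a < δ * g a := mul_lt_mul_of_pos_right hρδ hga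
        _ ≤ δ * (M * 4 ^ γ) := mul_le_mul_of_nonneg_left hg4 hδpos.le
        _ = 1 := by rw [hδ]; field_simp
    linarith

open Classical in
/-- `n ≤ x`, `n ≡ 2 (mod 3)`, reaching `a` within `L` steps. -/
noncomputable def GT (a x L : ℕ) : Finset ℕ :=
  (Icc 1 x).filter (fun n => n % 3 = 2 ∧ ∃ k ≤ L, col^[k] n = a)

lemma V_upper {θ : ℝ} (h0 : 0 < θ) (h1 : θ < 1) (a x L : ℕ) :
    (1 - θ) * V θ x a ≤ (GT a x L).card + θ ^ (L + 1) * x := by
  classical
  have hs := summable_V h0.le h1 x a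
  have hg := summable_geometric_of_lt_one h0.le h1
  have e : V θ x a = ∑ k ∈ range (L + 1), θ ^ k * (cntT x k a : ℝ) +
      ∑' k : ℕ, θ ^ (k + (L + 1)) * (cntT x (k + (L + 1)) a : ℝ) := by
    unfold V
    rw [hs.sum_add_tsum_nat_add]
  have e1 : ∑ k ∈ range (L + 1), θ ^ k * (cntT x k a : ℝ) ≤ (1 - θ)⁻¹ * (GT a x L).card := by
    have : ∑ k ∈ range (L + 1), θ ^ k * (cntT x k a : ℝ) ≤
        ∑ k ∈ range (L + 1), θ ^ k * ((GT a x L).card : ℝ) := by
      apply sum_le_sum
      intro k hk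
      apply mul_le_mul_of_nonneg_left _ (by positivity)
      have : cntT x k a ≤ (GT a x L).card := by
        unfold cntT GT
        apply card_le_card
        intro n hn
        simp only [mem_filter] at hn ⊢
        exact ⟨hn.1, hn.2.1, k, by simpa [Nat.lt_succ_iff] using hk, hn.2.2⟩
      exact_mod_cast this
    refine this.trans ?_
    rw [← sum_mul]
    apply mul_le_mul_of_nonneg_right _ (by positivity)
    rw [← tsum_geometric_of_lt_one h0.le h1]
    exact hg.sum_le_tsum _ (fun k _ => by positivity)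
  have e2 : ∑' k : ℕ, θ ^ (k + (L + 1)) * (cntT x (k + (L + 1)) a : ℝ) ≤
      (1 - θ)⁻¹ * (θ ^ (L + 1) * x) := by
    rw [← tsum_geometric_of_lt_one h0.le h1, ← tsum_mul_right]
    apply Summable.tsum_le_tsum
    · intro k
      rw [pow_add, mul_assoc]
      apply mul_le_mul_of_nonneg_left _ (by positivity)
      apply mul_le_mul_of_nonneg_left _ (by positivity)
      exact_mod_cast cntT_le x _ a
    · exact (summable_nat_add_iff (L + 1)).2 hs
    · exact hg.mul_right _
  have h1θ : 0 < 1 - θ := by linarith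
  calc (1 - θ) * V θ x a ≤ (1 - θ) * ((1 - θ)⁻¹ * (GT a x L).card + (1 - θ)⁻¹ * (θ ^ (L + 1) * x)) := by
        rw [e]
        apply mul_le_mul_of_nonneg_left _ h1θ.le
        linarith
    _ = _ := by field_simp

/-- Lower bound for the number of `n ≤ x`, `n ≡ 2 (mod 3)` reaching `a` within `D log x` steps. -/
theorem GT_lower {θ γ M : ℝ} (h0 : 0 < θ) (h1 : θ < 1) (hγ : 0 < γ)
    (hM : 0 < M) {w : ℕ → ℝ} (hw0 : ∀ a, 0 ≤ w a) (hwM : ∀ a, w a ≤ M) (hc : Cert θ γ w)
    {a : ℕ} (ha3 : a % 3 = 2) (hwa : 0 < w a) :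
    ∃ c : ℝ, 0 < c ∧ ∀ x : ℕ, a ≤ x →
      c * (x : ℝ) ^ γ - 1 ≤ (GT a x ⌊1 / (- Real.log θ) * Real.log x⌋₊).card := by
  have hlogθ : Real.log θ < 0 := Real.log_neg h0 h1
  set D : ℝ := 1 / (- Real.log θ) with hD
  have ha0 : (0 : ℝ) < a := by
    have : 0 < a := by omega
    exact_mod_cast this
  have h4γ : (0 : ℝ) < 4 ^ γ := Real.rpow_pos_of_pos (by norm_num) γ
  have haγ : (0 : ℝ) < (1 / (a : ℝ)) ^ γ := Real.rpow_pos_of_pos (by positivity) γ
  have h1θ : 0 < 1 - θ := by linarith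
  refine ⟨(1 - θ) * ((1 / (M * 4 ^ γ)) * (w a * (1 / (a : ℝ)) ^ γ)), by positivity, ?_⟩
  intro x hax
  have hx1 : 1 ≤ x := by omega
  have hx0 : (0 : ℝ) < x := by exact_mod_cast hx1
  set L : ℕ := ⌊D * Real.log x⌋₊ with hL
  have hLlt : D * Real.log x < L + 1 := Nat.lt_floor_add_one _
  have htail : θ ^ (L + 1) * (x : ℝ) ≤ 1 := by
    have e1 : θ ^ (L + 1) = Real.exp (Real.log θ * ((L : ℝ) + 1)) := by
      rw [← Real.rpow_natCast, Real.rpow_def_of_pos h0]; push_cast; rfl
    have e2 : Real.exp (Real.log θ * ((L : ℝ) + 1)) * (x : ℝ) =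
        Real.exp (Real.log θ * ((L : ℝ) + 1) + Real.log x) := by
      rw [Real.exp_add, Real.exp_log hx0]
    rw [e1, e2]
    apply Real.exp_le_one_iff.2
    have h3 : Real.log x ≤ (- Real.log θ) * ((L : ℝ) + 1) := by
      have h4 : D * Real.log x ≤ (L : ℝ) + 1 := hLlt.le
      calc Real.log x = (- Real.log θ) * (D * Real.log x) := by
            rw [hD, ← mul_assoc, mul_one_div_cancel (by linarith), one_mul]
        _ ≤ _ := mul_le_mul_of_nonneg_left h4 (by linarith)
    linarith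
  have hV := V_lower h0 h1 hγ hM hw0 hwM hc x a ha3 hax
  have hU := V_upper h0 h1 a x L
  have e : (1 - θ) * ((1 / (M * 4 ^ γ)) * (w a * ((x : ℝ) / a) ^ γ)) =
      (1 - θ) * ((1 / (M * 4 ^ γ)) * (w a * (1 / (a : ℝ)) ^ γ)) * (x : ℝ) ^ γ := by
    have : ((x : ℝ) / a) ^ γ = (1 / (a : ℝ)) ^ γ * (x : ℝ) ^ γ := by
      rw [← Real.mul_rpow (by positivity) hx0.le]
      congr 1; ring
    rw [this]; ring
  have h3 : (1 - θ) * ((1 / (M * 4 ^ γ)) * (w a * (1 / (a : ℝ)) ^ γ)) * (x : ℝ) ^ γ ≤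
      (1 - θ) * V θ x a := by
    rw [← e]
    exact mul_le_mul_of_nonneg_left hV h1θ.le
  linarith

end Pool.Agent.Lib.MP_e43fce_nt.KL
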