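import Pool.Agent.Lib.MP_e43fce_nt.Steer2

/-!
# Merging affine families of Collatz trajectories

For all `L` and every residue class modulo `2^a0` there is a subclass `r` modulo `2^a` on which the
trajectories of `n, n+1, …, n+L` coincide after the same number of steps.
-/

namespace Pool.Agent.Lib.MP_e43fce_nt.KL

lemma col_even {t : ℕ} (h : t % 2 = 0) : col t = t / 2 := by
  unfold col; rw [if_pos h]

/-- The two families `3^σ q + ρ` and `3^σ' q + ρ'` merge on a subclass modulo a power of two, after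
the same number of halvings and with the same total number of factors three. -/
def Merge (σ ρ σ' ρ' : ℕ) : Prop :=
  ∃ b s τ τ' φ : ℕ, σ + τ = σ' + τ' ∧ ∀ q : ℕ,
    col^[b + τ] (3 ^ σ * (2 ^ b * q + s) + ρ) = 3 ^ (σ + τ) * q + φ ∧
    col^[b + τ'] (3 ^ σ' * (2 ^ b * q + s) + ρ') = 3 ^ (σ + τ) * q + φ

lemma Merge.symm {σ ρ σ' ρ' : ℕ} (h : Merge σ ρ σ' ρ') : Merge σ' ρ' σ ρ := by
  obtain ⟨b, s, τ, τ', φ, h1, h2⟩ := h
  refine ⟨b, s, τ', τ, φ, h1.symm, fun q => ?_⟩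
  rw [← h1]
  exact ⟨(h2 q).2, (h2 q).1⟩

lemma Merge.refl (σ ρ : ℕ) : Merge σ ρ σ ρ :=
  ⟨0, 0, 0, 0, ρ, rfl, fun q => by simp⟩

/-- `(σ, ρ) → (σ + π, ρ1)` is one step of the family on the subclass `q = 2 q' + e`. -/
def StepTo (σ ρ e π ρ1 : ℕ) : Prop :=
  (π = 0 ∧ 3 ^ σ * e + ρ = 2 * ρ1) ∨ (π = 1 ∧ 3 * (3 ^ σ * e + ρ) + 1 = 2 * ρ1)

lemma StepTo.iter {σ ρ e π ρ1 : ℕ} (h : StepTo σ ρ e π ρ1) (q : ℕ) :
    col^[1 + π] (3 ^ σ * (2 * q + e) + ρ) = 3 ^ (σ + π) * q + ρ1 := by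
  rcases h with ⟨rfl, h⟩ | ⟨rfl, h⟩
  · have e1 : 3 ^ σ * (2 * q + e) + ρ = 2 * (3 ^ σ * q + ρ1) := by
      linear_combination h
    rw [e1, Nat.add_zero, Function.iterate_one, col_two_mul, Nat.add_zero]
  · have e1 : 3 * (3 ^ σ * (2 * q + e) + ρ) + 1 = 2 * (3 ^ (σ + 1) * q + ρ1) := by
      linear_combination h
    rw [Function.iterate_succ_apply, Function.iterate_one, col_odd e1, col_two_mul]

lemma Merge.step {σ ρ σ' ρ' e π ρ1 π' ρ1' : ℕ} (h1 : StepTo σ ρ e π ρ1)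
    (h2 : StepTo σ' ρ' e π' ρ1') (h : Merge (σ + π) ρ1 (σ' + π') ρ1') : Merge σ ρ σ' ρ' := by
  obtain ⟨b, s, τ, τ', φ, h3, h4⟩ := h
  refine ⟨b + 1, 2 * s + e, π + τ, π' + τ', φ, by omega, fun q => ?_⟩
  have e1 : 2 ^ (b + 1) * q + (2 * s + e) = 2 * (2 ^ b * q + s) + e := by ring
  rw [e1]
  constructor
  · rw [show b + 1 + (π + τ) = (b + τ) + (1 + π) by ring, Function.iterate_add_apply, h1.iter,
      (h4 q).1, add_assoc]
  · rw [show b + 1 + (π' + τ') = (b + τ') + (1 + π') by ring, Function.iterate_add_apply, h2.iter,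
      (h4 q).2, add_assoc]

/-- The families with second form `3^d w + c` in terms of the first form `w` merge. -/
def PP (d : ℕ) (c : ℤ) : Prop :=
  ∀ σ ρ ρ' : ℕ, (ρ' : ℤ) = 3 ^ d * ρ + c → Merge σ ρ (σ + d) ρ'

/-- the parity shift making `3^σ e + ρ` even -/
lemma exists_even (σ ρ : ℕ) : ∃ e t : ℕ, 3 ^ σ * e + ρ = 2 * t := by
  rcases Nat.even_or_odd' ρ with ⟨t, h | h⟩
  · exact ⟨0, t, by omega⟩
  · have h3 : Odd (3 ^ σ) := Odd.pow (by decide)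
    obtain ⟨u, hu⟩ := h3
    exact ⟨1, u + t + 1, by omega⟩

lemma exists_odd (σ ρ : ℕ) : ∃ e t : ℕ, 3 ^ σ * e + ρ = 2 * t + 1 := by
  rcases Nat.even_or_odd' ρ with ⟨t, h | h⟩
  · have h3 : Odd (3 ^ σ) := Odd.pow (by decide)
    obtain ⟨u, hu⟩ := h3
    exact ⟨1, u + t, by omega⟩
  · exact ⟨0, t, by omega⟩

lemma PE_even {d : ℕ} {c : ℤ} (h : PP d c) : PP d (2 * c) := by
  intro σ ρ ρ' hρ
  obtain ⟨e, t, ht⟩ := exists_even σ ρ
  have htz : (3 : ℤ) ^ σ * e + ρ = 2 * t := by exact_mod_cast ht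
  -- second form: `3^(σ+d) e + ρ' = 2 (3^d t + c)`
  have hz : (3 : ℤ) ^ (σ + d) * e + ρ' = 2 * (3 ^ d * t + c) := by
    rw [hρ, pow_add]
    linear_combination (3 : ℤ) ^ d * htz
  have hpos : 0 ≤ (3 : ℤ) ^ d * t + c := by
    have : (0 : ℤ) ≤ (3 : ℤ) ^ (σ + d) * e + ρ' := by positivity
    linarith
  obtain ⟨v, hv⟩ := Int.eq_ofNat_of_zero_le hpos
  rw [hv] at hz
  have h2 : 3 ^ (σ + d) * e + ρ' = 2 * v := by exact_mod_cast hz
  exact Merge.step (Or.inl ⟨rfl, ht⟩) (Or.inl ⟨rfl, h2⟩) (h σ t v hv.symm)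

lemma PE_odd {d : ℕ} {c : ℤ} (h : PP (d + 1) (3 * c + 2)) : PP d (2 * c + 1) := by
  intro σ ρ ρ' hρ
  obtain ⟨e, t, ht⟩ := exists_even σ ρ
  have htz : (3 : ℤ) ^ σ * e + ρ = 2 * t := by exact_mod_cast ht
  have hz : 3 * ((3 : ℤ) ^ (σ + d) * e + ρ') + 1 = 2 * (3 ^ (d + 1) * t + (3 * c + 2)) := by
    rw [hρ, pow_add, pow_succ]
    linear_combination 3 * (3 : ℤ) ^ d * htz
  have hpos : 0 ≤ (3 : ℤ) ^ (d + 1) * t + (3 * c + 2) := by
    have : (0 : ℤ) ≤ 3 * ((3 : ℤ) ^ (σ + d) * e + ρ') + 1 := by positivity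
    linarith
  obtain ⟨v, hv⟩ := Int.eq_ofNat_of_zero_le hpos
  rw [hv] at hz
  have h2 : 3 * (3 ^ (σ + d) * e + ρ') + 1 = 2 * v := by exact_mod_cast hz
  exact Merge.step (Or.inl ⟨rfl, ht⟩) (Or.inr ⟨rfl, h2⟩) (h σ t v hv.symm)

lemma PO_even {d : ℕ} {c c' : ℤ} (hc : 2 * c' = 6 * c + 1 - 3 ^ d) (h : PP d c') :
    PP d (2 * c) := by
  intro σ ρ ρ' hρ
  obtain ⟨e, t, ht⟩ := exists_odd σ ρ
  have htz : (3 : ℤ) ^ σ * e + ρ = 2 * t + 1 := by exact_mod_cast ht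
  have h1 : 3 * (3 ^ σ * e + ρ) + 1 = 2 * (3 * t + 2) := by omega
  have hz : 3 * ((3 : ℤ) ^ (σ + d) * e + ρ') + 1 = 2 * (3 ^ d * (3 * t + 2 : ℕ) + c') := by
    rw [hρ, pow_add]
    push_cast
    linear_combination 3 * (3 : ℤ) ^ d * htz - hc
  have hpos : 0 ≤ (3 : ℤ) ^ d * (3 * t + 2 : ℕ) + c' := by
    have : (0 : ℤ) ≤ 3 * ((3 : ℤ) ^ (σ + d) * e + ρ') + 1 := by positivity
    linarith
  obtain ⟨v, hv⟩ := Int.eq_ofNat_of_zero_le hpos
  rw [hv] at hz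
  have h2 : 3 * (3 ^ (σ + d) * e + ρ') + 1 = 2 * v := by exact_mod_cast hz
  refine Merge.step (Or.inr ⟨rfl, h1⟩) (Or.inr ⟨rfl, h2⟩) ?_
  rw [show σ + d + 1 = σ + 1 + d by ring]
  exact h (σ + 1) (3 * t + 2) v hv.symm

lemma PO_odd {d : ℕ} {c c' : ℤ} (hc : 2 * c' = c - 3 ^ d) (h : PP d c') : PP (d + 1) c := by
  intro σ ρ ρ' hρ
  obtain ⟨e, t, ht⟩ := exists_odd σ ρ
  have htz : (3 : ℤ) ^ σ * e + ρ = 2 * t + 1 := by exact_mod_cast ht
  have h1 : 3 * (3 ^ σ * e + ρ) + 1 = 2 * (3 * t + 2) := by omega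
  have hz : (3 : ℤ) ^ (σ + (d + 1)) * e + ρ' = 2 * (3 ^ d * (3 * t + 2 : ℕ) + c') := by
    rw [hρ, pow_add, pow_succ]
    push_cast
    linear_combination 3 * (3 : ℤ) ^ d * htz - hc
  have hpos : 0 ≤ (3 : ℤ) ^ d * (3 * t + 2 : ℕ) + c' := by
    have : (0 : ℤ) ≤ (3 : ℤ) ^ (σ + (d + 1)) * e + ρ' := by positivity
    linarith
  obtain ⟨v, hv⟩ := Int.eq_ofNat_of_zero_le hpos
  rw [hv] at hz
  have h2 : 3 ^ (σ + (d + 1)) * e + ρ' = 2 * v := by exact_mod_cast hz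
  refine Merge.step (Or.inr ⟨rfl, h1⟩) (Or.inl ⟨rfl, h2⟩) ?_
  rw [show σ + (d + 1) + 0 = σ + 1 + d by ring]
  exact h (σ + 1) (3 * t + 2) v hv.symm

/-- For `d = 0` an odd step of the first form swaps the roles. -/
lemma PO_zero {c : ℤ} (h : PP 1 (-3 * c - 1)) : PP 0 (2 * c + 1) := by
  intro σ ρ ρ' hρ
  obtain ⟨e, t, ht⟩ := exists_odd σ ρ
  have htz : (3 : ℤ) ^ σ * e + ρ = 2 * t + 1 := by exact_mod_cast ht
  have h1 : 3 * (3 ^ σ * e + ρ) + 1 = 2 * (3 * t + 2) := by omega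
  have hz : (3 : ℤ) ^ (σ + 0) * e + ρ' = 2 * (t + c + 1) := by
    rw [hρ, add_zero, pow_zero]
    linear_combination htz
  have hpos : 0 ≤ (t : ℤ) + c + 1 := by
    have : (0 : ℤ) ≤ (3 : ℤ) ^ (σ + 0) * e + ρ' := by positivity
    linarith
  obtain ⟨v, hv⟩ := Int.eq_ofNat_of_zero_le hpos
  rw [hv] at hz
  have h2 : 3 ^ (σ + 0) * e + ρ' = 2 * v := by exact_mod_cast hz
  refine Merge.step (Or.inr ⟨rfl, h1⟩) (Or.inl ⟨rfl, h2⟩) ?_
  apply Merge.symm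
  refine h σ v (3 * t + 2) ?_
  have hv' : (t : ℤ) + c + 1 = (v : ℤ) := hv
  push_cast
  linear_combination 3 * hv'

lemma PP_zero_zero : PP 0 0 := by
  intro σ ρ ρ' hρ
  have : ρ' = ρ := by
    rw [pow_zero, one_mul, add_zero] at hρ
    exact_mod_cast hρ
  subst this
  exact Merge.refl σ _

lemma PP_one_one : PP 1 1 := PO_odd (d := 0) (c' := 0) (by norm_num) PP_zero_zero

lemma PP_one_two : PP 1 2 := PE_even (c := 1) PP_one_one

lemma PP_zero (n : ℕ) : ∀ c : ℤ, c.natAbs ≤ n → PP 0 c := by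
  induction n using Nat.strong_induction_on with
  | _ n ih =>
    intro c hc
    by_cases h0 : c = 0
    · subst h0; exact PP_zero_zero
    by_cases h1 : c = 1
    · subst h1
      exact PE_odd (c := 0) PP_one_two
    by_cases hm1 : c = -1
    · subst hm1
      have h := PO_zero (c := -1) (by norm_num; exact PP_one_two)
      norm_num at h
      exact h
    have h4 : c % 2 = 0 ∨ c % 4 = 3 ∨ c % 4 = 1 := by omega
    rcases h4 with h4 | h4 | h4
    · obtain ⟨k, rfl⟩ : ∃ k, c = 2 * k := ⟨c / 2, by omega⟩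
      exact PE_even (ih k.natAbs (by omega) k le_rfl)
    · obtain ⟨k, rfl⟩ : ∃ k, c = 4 * k + 3 := ⟨c / 4, by omega⟩
      have h5 : PP 0 (3 * k + 2) := ih (3 * k + 2).natAbs (by omega) _ le_rfl
      have h6 : PP 1 (6 * k + 5) := PO_odd (d := 0) (by norm_num; ring) h5
      have h7 : PP 0 (2 * (2 * k + 1) + 1) := PE_odd (by
        rw [show 3 * (2 * k + 1) + 2 = 6 * k + 5 by ring]; exact h6)
      rwa [show 2 * (2 * k + 1) + 1 = 4 * k + 3 by ring] at h7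
    · obtain ⟨k, rfl⟩ : ∃ k, c = 4 * k + 1 := ⟨c / 4, by omega⟩
      have h5 : PP 0 (-3 * k - 1) := ih (-3 * k - 1).natAbs (by omega) _ le_rfl
      have h6 : PP 1 (-6 * k - 1) := PO_odd (d := 0) (by norm_num; ring) h5
      have h7 : PP 0 (2 * (2 * k) + 1) := PO_zero (by
        rw [show -3 * (2 * k) - 1 = -6 * k - 1 by ring]; exact h6)
      rwa [show 2 * (2 * k) + 1 = 4 * k + 1 by ring] at h7

theorem PP_all (d : ℕ) : ∀ c : ℤ, PP d c := by
  induction d with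
  | zero => intro c; exact PP_zero _ c le_rfl
  | succ d ihd =>
    have hne : ∀ n : ℕ, ∀ c : ℤ, c ≠ 0 → c.natAbs ≤ n → PP (d + 1) c := by
      intro n
      induction n using Nat.strong_induction_on with
      | _ n ih =>
        intro c hc hn
        rcases Int.even_or_odd' c with ⟨k, rfl | rfl⟩
        · exact PE_even (ih k.natAbs (by omega) k (by omega) le_rfl)
        · have h3 : Odd ((3 : ℤ) ^ d) := Odd.pow (by decide)
          obtain ⟨u, hu⟩ := h3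
          exact PO_odd (c' := k - u) (by rw [hu]; ring) (ihd _)
    intro c
    by_cases hc : c = 0
    · subst hc
      have h3 : Odd ((3 : ℤ) ^ (d + 1)) := Odd.pow (by decide)
      obtain ⟨u, hu⟩ := h3
      have hu0 : u ≠ 0 := by
        rintro rfl
        have : (3 : ℤ) ≤ 3 ^ (d + 1) := by
          calc (3 : ℤ) = 3 ^ 1 := by norm_num
            _ ≤ 3 ^ (d + 1) := pow_le_pow_right₀ (by norm_num) (by omega)
        omega
      have h5 : PP (d + 1) (-u) := hne _ (-u) (by omega) le_rfl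
      have h6 := PO_even (d := d + 1) (c := 0) (c' := -u) (by rw [hu]; ring) h5
      simpa using h6
    · exact hne _ c hc le_rfl

/-- Any two families merge. -/
theorem merge_all (σ ρ σ' ρ' : ℕ) : Merge σ ρ σ' ρ' := by
  rcases Nat.le_total σ σ' with h | h
  · obtain ⟨d, rfl⟩ := Nat.exists_eq_add_of_le h
    exact PP_all d ((ρ' : ℤ) - 3 ^ d * ρ) σ ρ ρ' (by ring)
  · obtain ⟨d, rfl⟩ := Nat.exists_eq_add_of_le h
    exact (PP_all d ((ρ : ℤ) - 3 ^ d * ρ') σ' ρ' ρ (by ring)).symm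

/-- `two_part` with the exact number of steps. -/
lemma two_part' (a : ℕ) : ∀ r : ℕ, ∃ σ ρ : ℕ, ∀ q : ℕ,
    col^[a + σ] (2 ^ a * q + r) = 3 ^ σ * q + ρ := by
  induction a with
  | zero => intro r; exact ⟨0, r, fun q => by simp⟩
  | succ a ih =>
    intro r
    rcases Nat.even_or_odd' r with ⟨s, rfl | rfl⟩
    · obtain ⟨σ, ρ, h⟩ := ih s
      refine ⟨σ, ρ, fun q => ?_⟩
      rw [show a + 1 + σ = (a + σ) + 1 by ring, Function.iterate_succ_apply,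
        show 2 ^ (a + 1) * q + 2 * s = 2 * (2 ^ a * q + s) by ring, col_two_mul, h]
    · obtain ⟨σ, ρ, h⟩ := ih (3 * s + 2)
      refine ⟨σ + 1, ρ, fun q => ?_⟩
      rw [show a + 1 + (σ + 1) = (a + σ) + 2 by ring, Function.iterate_add_apply]
      have e : col^[2] (2 ^ (a + 1) * q + (2 * s + 1)) = 2 ^ a * (3 * q) + (3 * s + 2) := by
        rw [Function.iterate_succ_apply, Function.iterate_one,
          col_odd (b := 2 ^ (a + 1) * q + (2 * s + 1)) (a := 2 ^ a * (3 * q) + (3 * s + 2))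
            (by ring), col_two_mul]
      rw [e, h]
      ring

/-- On a subclass of `r0` modulo `2^a0` the trajectories of `n, …, n + L` coincide after the same
number of steps. -/
theorem runs (a0 r0 L : ℕ) : ∃ a1 r σ ρ : ℕ, r % 2 ^ a0 = r0 % 2 ^ a0 ∧ ∀ j ≤ L, ∀ q : ℕ,
    col^[a0 + a1 + σ] (2 ^ (a0 + a1) * q + r + j) = 3 ^ σ * q + ρ := by
  induction L with
  | zero =>
    obtain ⟨σ, ρ, h⟩ := two_part' a0 r0
    refine ⟨0, r0, σ, ρ, rfl, fun j hj q => ?_⟩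
    have : j = 0 := by omega
    subst this
    simpa using h q
  | succ L ih =>
    obtain ⟨a1, r, σ, ρ, hr, h⟩ := ih
    obtain ⟨σ', ρ', h'⟩ := two_part' (a0 + a1) (r + (L + 1))
    obtain ⟨b, s, τ, τ', φ, hτ, hm⟩ := merge_all σ ρ σ' ρ'
    refine ⟨a1 + b, 2 ^ (a0 + a1) * s + r, σ + τ, φ, ?_, ?_⟩
    · rw [← hr, pow_add, mul_assoc, Nat.mul_add_mod]
    · intro j hj q
      have e1 : 2 ^ (a0 + (a1 + b)) * q + (2 ^ (a0 + a1) * s + r) + j =
          2 ^ (a0 + a1) * (2 ^ b * q + s) + r + j := by ring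
      rw [e1]
      by_cases hjL : j ≤ L
      · rw [show a0 + (a1 + b) + (σ + τ) = (b + τ) + (a0 + a1 + σ) by ring,
          Function.iterate_add_apply, h j hjL, (hm q).1]
      · have hj' : j = L + 1 := by omega
        subst hj'
        rw [show a0 + (a1 + b) + (σ + τ) = (b + τ') + (a0 + a1 + σ') by omega,
          Function.iterate_add_apply, show 2 ^ (a0 + a1) * (2 ^ b * q + s) + r + (L + 1) =
            2 ^ (a0 + a1) * (2 ^ b * q + s) + (r + (L + 1)) by ring, h', (hm q).2]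

end Pool.Agent.Lib.MP_e43fce_nt.KL
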