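import Pool.Agent.Lib.MP_e43fce_nt.Merge
import Pool.Agent.Lib.MP_e43fce_nt.KLProg

/-!
# Steering into a residue class and a merging run, and the count
-/

namespace Pool.Agent.Lib.MP_e43fce_nt.KL

open Finset Filter

theorem steer_runs (M r L : ℕ) (hM : 0 < M) :
    ∃ K Ls m0 : ℕ, 0 < K ∧ ∀ m : ℕ, m0 ≤ m → ¬ 3 ∣ m → ∃ n : ℕ, 0 < n ∧ n ≤ K * m ∧
      n % M = r % M ∧ ∃ k ≤ Ls, ∀ j ≤ L, col^[k] (n + j) = m := by
  obtain ⟨a, M1, hM1, rfl⟩ := Nat.exists_eq_pow_mul_and_not_dvd hM.ne' 2 (by norm_num)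
  have hM1pos : 0 < M1 := by
    rcases Nat.eq_zero_or_pos M1 with h | h
    · subst h; simp at hM
    · exact h
  obtain ⟨b, N, hN, rfl⟩ := Nat.exists_eq_pow_mul_and_not_dvd hM1pos.ne' 3 (by norm_num)
  have hNpos : 0 < N := by
    rcases Nat.eq_zero_or_pos N with h | h
    · subst h; simp at hM1pos
    · exact h
  have h3N : Nat.Coprime 3 N := (Nat.Prime.coprime_iff_not_dvd Nat.prime_three).2 hN
  have h2N1 : Nat.Coprime 2 (3 ^ b * N) := by
    rw [Nat.Prime.coprime_iff_not_dvd Nat.prime_two]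
    exact hM1
  have h2N : Nat.Coprime 2 N := Nat.Coprime.coprime_dvd_right (Dvd.intro_left _ rfl) h2N1
  obtain ⟨a1, r', σ, ρ, hr', hruns⟩ := runs a r L
  -- `q0` solves the congruence modulo the odd part
  obtain ⟨q0, hq0⟩ : ∃ q0 : ℕ, 2 ^ (a + a1) * q0 + r' ≡ r [MOD 3 ^ b * N] := by
    have hcop : Nat.Coprime (2 ^ (a + a1)) (3 ^ b * N) := Nat.Coprime.pow_left _ h2N1
    have hodd : 0 < 3 ^ b * N := by positivity
    obtain ⟨y, hy⟩ : ∃ y : ℕ, 2 ^ (a + a1) * y ≡ 1 [MOD 3 ^ b * N] := by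
      refine ⟨(2 ^ (a + a1)) ^ (Nat.totient (3 ^ b * N) - 1), ?_⟩
      rw [← pow_succ', Nat.sub_add_cancel (Nat.totient_pos.2 hodd)]
      exact Nat.ModEq.pow_totient hcop
    refine ⟨y * (r + (3 ^ b * N - 1) * r'), ?_⟩
    have h1 : 2 ^ (a + a1) * (y * (r + (3 ^ b * N - 1) * r')) ≡
        1 * (r + (3 ^ b * N - 1) * r') [MOD 3 ^ b * N] := by
      rw [← mul_assoc]
      exact Nat.ModEq.mul_right _ hy
    have h2 : 1 * (r + (3 ^ b * N - 1) * r') + r' = r + (3 ^ b * N) * r' := by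
      obtain ⟨t, ht⟩ : ∃ t, 3 ^ b * N = t + 1 := ⟨3 ^ b * N - 1, by omega⟩
      rw [ht]
      simp only [Nat.add_sub_cancel]
      ring
    have h3 := h1.add_right r'
    rw [h2] at h3
    refine h3.trans ?_
    unfold Nat.ModEq
    rw [Nat.add_mul_mod_self_left]
  obtain ⟨K, Lo, hKL⟩ := steer_odd hNpos h2N h3N (σ + b)
  refine ⟨2 ^ (a + a1) * K + r' + 1, (a + a1 + σ) + Lo, 4 ^ Lo * (ρ + 1), by positivity, ?_⟩
  intro m hm0 hm3
  have hmpos : 0 < m := lt_of_lt_of_le (by positivity) hm0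
  obtain ⟨n', b1, b2, ⟨k, hk, b3⟩, b4, b5⟩ :=
    hKL m hmpos hm3 ((3 ^ σ * q0 + ρ : ℕ) : ℤ) ((3 ^ σ * q0 + ρ : ℕ) : ZMod N)
  have hn' : ρ + 1 ≤ n' := by
    have h1 : m ≤ 4 ^ Lo * n' := by
      calc m = col^[k] n' := b3.symm
        _ ≤ 4 ^ k * n' := col_iter_le k b1
        _ ≤ 4 ^ Lo * n' := Nat.mul_le_mul_right _ (Nat.pow_le_pow_right (by norm_num) hk)
    have h2 : 4 ^ Lo * (ρ + 1) ≤ 4 ^ Lo * n' := hm0.trans h1
    exact Nat.le_of_mul_le_mul_left h2 (by positivity)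
  -- the quotient
  obtain ⟨q, hq⟩ : ∃ q : ℕ, n' = 3 ^ σ * q + ρ := by
    have h1 : ((3 ^ σ : ℕ) : ℤ) ∣ ((n' - ρ : ℕ) : ℤ) := by
      rw [Nat.cast_sub (by omega)]
      obtain ⟨t, ht⟩ := b4
      refine ⟨3 ^ b * t + q0, ?_⟩
      push_cast at ht ⊢
      rw [pow_add] at ht
      linear_combination ht
    obtain ⟨q, hq⟩ := Int.natCast_dvd_natCast.1 h1
    exact ⟨q, by omega⟩
  have hqpos : 0 < q := by
    rcases Nat.eq_zero_or_pos q with h | h
    · subst h; omega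
    · exact h
  have hqq : q ≡ q0 [MOD 3 ^ b * N] := by
    have hcop : Nat.Coprime (3 ^ b) N := Nat.Coprime.pow_left _ h3N
    rw [← Nat.modEq_and_modEq_iff_modEq_mul hcop]
    constructor
    · rw [Nat.modEq_iff_dvd]
      obtain ⟨t, ht⟩ := b4
      rw [hq] at ht
      push_cast at ht ⊢
      have h3 : (3 : ℤ) ^ σ ≠ 0 := by positivity
      have h4 : (3 : ℤ) ^ σ * (q0 - q) = 3 ^ σ * (3 ^ b * (-t)) := by
        rw [pow_add] at ht
        linear_combination (-1) * ht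
      exact ⟨-t, mul_left_cancel₀ h3 h4⟩
    · have h5 := (ZMod.natCast_eq_natCast_iff _ _ _).1 b5
      rw [hq] at h5
      have h6 := Nat.ModEq.add_right_cancel' ρ h5
      have hc3 : Nat.gcd N (3 ^ σ) = 1 := (Nat.Coprime.pow_left σ h3N).symm
      exact Nat.ModEq.cancel_left_of_coprime hc3 h6
  refine ⟨2 ^ (a + a1) * q + r', ?_, ?_, ?_, k + (a + a1 + σ), by omega, ?_⟩
  · have : 0 < 2 ^ (a + a1) * q := by positivity
    omega
  · have h3 : q ≤ n' := by
      have h4 : q ≤ 3 ^ σ * q := Nat.le_mul_of_pos_left _ (by positivity)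
      omega
    calc 2 ^ (a + a1) * q + r' ≤ 2 ^ (a + a1) * (K * m) + r' * m := by
          apply Nat.add_le_add
          · exact Nat.mul_le_mul_left _ (h3.trans b2)
          · exact Nat.le_mul_of_pos_right _ hmpos
      _ ≤ (2 ^ (a + a1) * K + r' + 1) * m := by nlinarith
  · have hcop : Nat.Coprime (2 ^ a) (3 ^ b * N) := Nat.Coprime.pow_left _ h2N1
    change 2 ^ (a + a1) * q + r' ≡ r [MOD 2 ^ a * (3 ^ b * N)]
    rw [← Nat.modEq_and_modEq_iff_modEq_mul hcop]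
    constructor
    · have h7 : 2 ^ (a + a1) * q + r' ≡ r' [MOD 2 ^ a] := by
        unfold Nat.ModEq
        rw [pow_add, mul_assoc, Nat.mul_add_mod]
      exact h7.trans hr'
    · exact ((hqq.mul_left _).add_right _).trans hq0
  · intro j hj
    rw [Function.iterate_add_apply, hruns j hj, ← hq, b3]

open Classical in
/-- Integers `n ≤ x` in the residue class of `r` modulo `M` such that `n, …, n + L` all reach `a`
for the first time after the same number of at most `min (n, C log n)` steps. -/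
noncomputable def FR (C : ℝ) (L a M r x : ℕ) : Finset ℕ :=
  (Icc 1 x).filter (fun n => n % M = r % M ∧ ∃ k : ℕ, k ≤ n ∧ (k : ℝ) ≤ C * Real.log n ∧
    ∀ j ≤ L, col^[k] (n + j) = a ∧ ∀ i < k, col^[i] (n + j) ≠ a)

theorem main_runs {θ γ γ' Mw : ℝ} (h0 : 0 < θ) (h1 : θ < 1) (hγ' : 1 / 2 ≤ γ') (hγ : γ' < γ)
    (hM : 0 < Mw) {w : ℕ → ℝ} (hw0 : ∀ a, 0 ≤ w a) (hwM : ∀ a, w a ≤ Mw)
    (hper : ∀ b, b % 3 ^ 15 = 2 → 0 < w b) (hc : Cert θ γ w) :
    ∀ Lr a : ℕ, ¬ 3 ∣ a → ∀ M r : ℕ, 0 < M → ∃ X : ℕ, ∀ x : ℕ, X ≤ x →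
      (x : ℝ) ^ γ' ≤ ((FR (2 * (1 / (- Real.log θ)) + 1) Lr a M r x).card : ℝ) := by
  classical
  intro Lr a ha M r hMpos
  have hlogθ : Real.log θ < 0 := Real.log_neg h0 h1
  set D : ℝ := 1 / (- Real.log θ) with hD
  have hDpos : 0 < D := by
    rw [hD]; apply one_div_pos.2; linarith
  set C : ℝ := 2 * D + 1 with hC
  have hCpos : 0 < C := by positivity
  obtain ⟨i, hi⟩ := exists_root ha
  set b : ℕ := 2 ^ i * a with hb
  have hb3 : b % 3 = 2 := by omega
  obtain ⟨c, hcpos, hcount⟩ := GT_lower h0 h1 (by linarith : 0 < γ) hM hw0 hwM hc hb3 (hper b hi)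
  obtain ⟨K, L, m1, hK, hsteer0⟩ := steer_runs M r Lr hMpos
  have hapos : 0 < a := Nat.pos_of_ne_zero (by rintro rfl; exact ha (dvd_zero 3))
  -- enlarge the threshold, so that `a` is not met before the merging point
  set m0 : ℕ := max m1 (4 ^ L * a + 1) with hm0
  have hsteer : ∀ m : ℕ, m0 ≤ m → ¬ 3 ∣ m → ∃ n : ℕ, 0 < n ∧ n ≤ K * m ∧
      n % M = r % M ∧ ∃ k ≤ L, ∀ j ≤ Lr, col^[k] (n + j) = m ∧ ∀ i < k, col^[i] (n + j) ≠ a := by
    intro m hm hm3
    obtain ⟨n, c1, c2, c3, k, hk, c4⟩ := hsteer0 m (le_trans (le_max_left _ _) hm) hm3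
    refine ⟨n, c1, c2, c3, k, hk, fun j hj => ⟨c4 j hj, fun i' hi' hcon => ?_⟩⟩
    have h5 : col^[k - i'] a = m := by
      rw [← hcon, ← Function.iterate_add_apply, Nat.sub_add_cancel hi'.le, c4 j hj]
    have h6 := col_iter_le (k - i') hapos
    rw [h5] at h6
    have h7 : 4 ^ (k - i') * a ≤ 4 ^ L * a :=
      Nat.mul_le_mul_right _ (Nat.pow_le_pow_right (by norm_num) (by omega))
    have h8 : 4 ^ L * a + 1 ≤ m := le_trans (le_max_right _ _) hm
    omega
  -- the constant in front of `x^γ`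
  set c' : ℝ := c * (1 / (2 * (K : ℝ))) ^ γ with hc'
  have hKr : (0 : ℝ) < K := by exact_mod_cast hK
  have hc'pos : 0 < c' := by
    have : (0 : ℝ) < (1 / (2 * (K : ℝ))) ^ γ := Real.rpow_pos_of_pos (by positivity) γ
    positivity
  set A : ℝ := 2 * ((L : ℝ) + 1) + 1 + m0 with hA
  have hApos : 0 < A := by positivity
  have ev1 : ∀ᶠ y : ℝ in atTop, A * y ^ γ' ≤ c' * y ^ γ := by
    have ht : Tendsto (fun y : ℝ => y ^ (γ - γ')) atTop atTop :=
      tendsto_rpow_atTop (by linarith)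
    filter_upwards [ht.eventually_ge_atTop (A / c'), eventually_gt_atTop 0] with y hy hy0
    have e : y ^ γ = y ^ (γ - γ') * y ^ γ' := by
      rw [← Real.rpow_add hy0]; congr 1; ring
    rw [e]
    have hpos : 0 < y ^ γ' := Real.rpow_pos_of_pos hy0 _
    have : A ≤ c' * y ^ (γ - γ') := by
      rw [div_le_iff₀ hc'pos] at hy
      linarith
    calc A * y ^ γ' ≤ (c' * y ^ (γ - γ')) * y ^ γ' := mul_le_mul_of_nonneg_right this hpos.le
      _ = _ := by ring
  have ev2 : ∀ᶠ y : ℝ in atTop, C * Real.log y ≤ y := by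
    have h := Real.isLittleO_log_id_atTop.def (c := 1 / C) (by positivity)
    filter_upwards [h, eventually_ge_atTop 1] with y hy hy1
    simp only [id_eq, Real.norm_eq_abs] at hy
    rw [abs_of_nonneg (Real.log_nonneg hy1), abs_of_nonneg (by linarith)] at hy
    calc C * Real.log y ≤ C * (1 / C * y) := mul_le_mul_of_nonneg_left hy hCpos.le
      _ = y := by field_simp
  obtain ⟨Y1, hY1⟩ := eventually_atTop.1 ev1
  obtain ⟨Y2, hY2⟩ := eventually_atTop.1 ev2
  set N0 : ℝ := max Y2 (Real.exp ((i : ℝ) + L)) with hN0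
  have hN0pos : 0 < N0 := lt_of_lt_of_le (Real.exp_pos _) (le_max_right _ _)
  obtain ⟨X, hX⟩ := exists_nat_ge (max (max (max Y1 1) (N0 ^ 2)) ((K : ℝ) * (b + 2)))
  refine ⟨X, fun x hx => ?_⟩
  have hxX : (X : ℝ) ≤ x := by exact_mod_cast hx
  have hX1 : max (max Y1 1) (N0 ^ 2) ≤ (x : ℝ) := (le_max_left _ _).trans (hX.trans hxX)
  have hX2 : (K : ℝ) * (b + 2) ≤ (x : ℝ) := (le_max_right _ _).trans (hX.trans hxX)
  have hxY1 : Y1 ≤ x := le_trans (le_trans (le_max_left _ _) (le_max_left _ _)) hX1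
  have hx1 : (1 : ℝ) ≤ x := le_trans (le_trans (le_max_right _ _) (le_max_left _ _)) hX1
  have hxN : N0 ^ 2 ≤ x := le_trans (le_max_right _ _) hX1
  have hx0 : (0 : ℝ) < x := by linarith
  -- `y = x / K`
  set y : ℕ := x / K with hy
  have hyK : K * y ≤ x := Nat.mul_div_le x K
  have hby : b + 2 ≤ y := by
    rw [hy, Nat.le_div_iff_mul_le hK, mul_comm]
    exact_mod_cast hX2
  have hyx : y ≤ x := Nat.div_le_self x K
  have hy1 : (1 : ℝ) ≤ y := by
    have : 1 ≤ y := by omega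
    exact_mod_cast this
  have hyle : (y : ℝ) ≤ x := by exact_mod_cast hyx
  have hylow : (x : ℝ) * (1 / (2 * (K : ℝ))) ≤ y := by
    have h2 : x < K * (y + 1) := by
      have := Nat.lt_mul_div_succ x hK
      exact this
    have h3 : (x : ℝ) < K * (y + 1) := by exact_mod_cast h2
    have h4 : (K : ℝ) * (y + 1) ≤ K * (2 * y) := mul_le_mul_of_nonneg_left (by linarith) hKr.le
    rw [mul_one_div, div_le_iff₀ (by positivity)]
    linarith
  have hypow : c' * (x : ℝ) ^ γ ≤ c * (y : ℝ) ^ γ := by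
    have h2 : ((x : ℝ) * (1 / (2 * (K : ℝ)))) ^ γ ≤ (y : ℝ) ^ γ :=
      Real.rpow_le_rpow (by positivity) hylow (by linarith)
    rw [Real.mul_rpow hx0.le (by positivity)] at h2
    calc c' * (x : ℝ) ^ γ = c * ((x : ℝ) ^ γ * (1 / (2 * (K : ℝ))) ^ γ) := by rw [hc']; ring
      _ ≤ _ := mul_le_mul_of_nonneg_left h2 hcpos.le
  set Ly : ℕ := ⌊D * Real.log y⌋₊ with hLy
  have hLyle : (Ly : ℝ) ≤ D * Real.log y :=
    Nat.floor_le (mul_nonneg hDpos.le (Real.log_nonneg hy1))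
  have hG : c * (y : ℝ) ^ γ - 1 ≤ (GT b y Ly).card := hcount y (by omega)
  set S : Finset ℕ := (GT b y Ly).filter (fun m => m0 ≤ m) with hS
  have hScard : ((GT b y Ly).card : ℝ) ≤ S.card + m0 := by
    have h2 : (GT b y Ly) ⊆ S ∪ range m0 := by
      intro m hm
      by_cases h : m0 ≤ m
      · exact mem_union_left _ (mem_filter.2 ⟨hm, h⟩)
      · exact mem_union_right _ (mem_range.2 (by omega))
    have h3 := (card_le_card h2).trans (card_union_le _ _)
    rw [card_range] at h3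
    exact_mod_cast h3
  -- the steering map
  have hex : ∀ m ∈ S, ∃ n : ℕ, 0 < n ∧ n ≤ K * m ∧ n % M = r % M ∧
      ∃ k ≤ L, ∀ j ≤ Lr, col^[k] (n + j) = m ∧ ∀ i < k, col^[i] (n + j) ≠ a := by
    intro m hm
    simp only [hS, GT, mem_filter, mem_Icc] at hm
    exact hsteer m hm.2 (by omega)
  choose! s hs using hex
  set sq : ℕ := ⌊Real.sqrt x⌋₊ with hsq
  set T : Finset ℕ := FR C Lr a M r x with hT
  have hmaps : ∀ m ∈ S, s m ∈ T ∪ Icc 1 sq := by
    intro m hm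
    obtain ⟨hn0, hnK, hnM, k, hkL, hk⟩ := hs m hm
    simp only [hS, GT, mem_filter, mem_Icc] at hm
    obtain ⟨⟨⟨hm1, hmy⟩, hm3, k2, hk2L, hk2⟩, hm0⟩ := hm
    by_cases hsmall : s m ≤ sq
    · exact mem_union_right _ (mem_Icc.2 ⟨hn0, hsmall⟩)
    · apply mem_union_left
      rw [hT]
      unfold FR
      rw [mem_filter, mem_Icc]
      have hnx : s m ≤ x := by
        calc s m ≤ K * m := hnK
          _ ≤ K * y := Nat.mul_le_mul_left _ hmy
          _ ≤ x := hyK
      have hsn : Real.sqrt x < s m := Nat.lt_of_floor_lt (not_le.1 hsmall)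
      have hn0r : (0 : ℝ) < s m := by exact_mod_cast hn0
      have hN0n : N0 ≤ s m := by
        have : N0 ≤ Real.sqrt x := Real.le_sqrt_of_sq_le hxN
        linarith
      have hlogn : (i : ℝ) + L ≤ Real.log (s m) := by
        rw [Real.le_log_iff_exp_le hn0r]
        exact le_trans (le_max_right _ _) hN0n
      have hlogxn : Real.log x ≤ 2 * Real.log (s m) := by
        have h5 : (x : ℝ) ≤ (s m : ℝ) ^ 2 := by
          have := Real.sq_sqrt hx0.le
          have h6 := Real.sqrt_nonneg (x : ℝ)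
          nlinarith
        have := Real.log_le_log hx0 h5
        rwa [Real.log_pow, Nat.cast_ofNat] at this
      have hlogy : Real.log y ≤ Real.log x := Real.log_le_log (by linarith) hyle
      -- the first hitting time of `a` from `m`
      have hmeet : ∃ t : ℕ, col^[t] m = a := ⟨i + k2, by
        rw [Function.iterate_add_apply, hk2, hb, col_iter_two_pow]⟩
      obtain ⟨t, ht1, ht2, ht3⟩ : ∃ t : ℕ, t ≤ i + k2 ∧ col^[t] m = a ∧
          ∀ i' < t, col^[i'] m ≠ a := by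
        refine ⟨Nat.find hmeet, Nat.find_min' hmeet ?_, Nat.find_spec hmeet,
          fun i' hi' => Nat.find_min hmeet hi'⟩
        rw [Function.iterate_add_apply, hk2, hb, col_iter_two_pow]
      have hk0 : ((i + (k2 + k) : ℕ) : ℝ) ≤ C * Real.log (s m) := by
        have h7 : (k2 : ℝ) ≤ D * Real.log y := le_trans (by exact_mod_cast hk2L) hLyle
        have h8 : D * Real.log y ≤ D * (2 * Real.log (s m)) :=
          mul_le_mul_of_nonneg_left (hlogy.trans hlogxn) hDpos.le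
        have h9 : (k : ℝ) ≤ L := by exact_mod_cast hkL
        push_cast
        rw [hC]
        linarith
      have hk1 : ((t + k : ℕ) : ℝ) ≤ C * Real.log (s m) := by
        refine le_trans ?_ hk0
        have : t + k ≤ i + (k2 + k) := by omega
        exact_mod_cast this
      refine ⟨⟨hn0, hnx⟩, hnM, t + k, ?_, hk1, ?_⟩
      · have h9 := hY2 (s m) (le_trans (le_max_left _ _) hN0n)
        have : ((t + k : ℕ) : ℝ) ≤ s m := hk1.trans h9
        exact_mod_cast this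
      · intro j hj
        refine ⟨by rw [Function.iterate_add_apply, (hk j hj).1, ht2], fun i' hi' => ?_⟩
        by_cases hik : i' < k
        · exact (hk j hj).2 i' hik
        · have e1 : i' = (i' - k) + k := by omega
          rw [e1, Function.iterate_add_apply, (hk j hj).1]
          exact ht3 _ (by omega)
  have hfib := card_le_fibre (L := L) s hmaps (fun m hm => by
    obtain ⟨k, hk, h⟩ := (hs m hm).2.2.2
    exact ⟨k, hk, (h 0 (Nat.zero_le _)).1⟩)
  have hfib2 : (S.card : ℝ) ≤ ((L : ℝ) + 1) * (T.card + sq) := by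
    have h2 : (T ∪ Icc 1 sq).card ≤ T.card + sq := by
      refine (card_union_le _ _).trans ?_
      simp
    have h3 : S.card ≤ (L + 1) * (T.card + sq) := hfib.trans (Nat.mul_le_mul_left _ h2)
    exact_mod_cast h3
  have hsqle : (sq : ℝ) ≤ (x : ℝ) ^ γ' := by
    have h1 : (sq : ℝ) ≤ Real.sqrt x := Nat.floor_le (Real.sqrt_nonneg _)
    rw [Real.sqrt_eq_rpow] at h1
    exact h1.trans (Real.rpow_le_rpow_of_exponent_le hx1 hγ')
  have hone : (1 : ℝ) ≤ (x : ℝ) ^ γ' := Real.one_le_rpow hx1 (by linarith)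
  have hfin := hY1 x hxY1
  -- conclusion
  set P : ℝ := (x : ℝ) ^ γ' with hP
  have e1 : A * P ≤ ((L : ℝ) + 1) * (T.card + sq) + m0 + 1 := by
    calc A * P ≤ c' * (x : ℝ) ^ γ := hfin
      _ ≤ c * (y : ℝ) ^ γ := hypow
      _ ≤ (GT b y Ly).card + 1 := by linarith
      _ ≤ S.card + m0 + 1 := by linarith
      _ ≤ _ := by linarith
  have e2 : ((L : ℝ) + 1) * sq ≤ ((L : ℝ) + 1) * P := mul_le_mul_of_nonneg_left hsqle (by positivity)
  have e3 : (m0 : ℝ) * 1 ≤ m0 * P := mul_le_mul_of_nonneg_left hone (by positivity)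
  have e4 : ((L : ℝ) + 1) * P ≤ ((L : ℝ) + 1) * T.card := by
    rw [hA] at e1
    linarith
  exact le_of_mul_le_mul_left e4 (by positivity)

end Pool.Agent.Lib.MP_e43fce_nt.KL
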