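import Mathlib
import Pool.Agent.Lib.MP_e43fce_nt.KLCore

/-!
# Steering backward Collatz orbits into a residue class

For every modulus `M` and residue `r`, every large `m` not divisible by `3` has a Collatz ancestor
`n ≡ r (mod M)` with `n ≤ K m`, reached within `L` steps, where `K` and `L` depend only on `M, r`.
-/

namespace Pool.Agent.Lib.MP_e43fce_nt.KL

/-- `(1 + 3^e u)^(3^j) = 1 + 3^(e+j) v` with `3 ∤ v`. -/
lemma pow_three_pow {e : ℕ} (he : 1 ≤ e) {u : ℤ} (hu : ¬ (3 : ℤ) ∣ u) (j : ℕ) :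
    ∃ v : ℤ, ¬ (3 : ℤ) ∣ v ∧ (1 + 3 ^ e * u) ^ (3 ^ j) = 1 + 3 ^ (e + j) * v := by
  induction j with
  | zero => exact ⟨u, hu, by simp⟩
  | succ j ih =>
    obtain ⟨v, hv, h⟩ := ih
    obtain ⟨s, hs⟩ : ∃ s, e + j = s + 1 := ⟨e + j - 1, by omega⟩
    refine ⟨v + 3 ^ (s + 1) * v ^ 2 + 3 ^ (2 * s + 1) * v ^ 3, ?_, ?_⟩
    · intro hd
      apply hv
      have h1 : (3 : ℤ) ∣ 3 ^ (s + 1) * v ^ 2 := ⟨3 ^ s * v ^ 2, by ring⟩
      have h2 : (3 : ℤ) ∣ 3 ^ (2 * s + 1) * v ^ 3 := ⟨3 ^ (2 * s) * v ^ 3, by ring⟩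
      have h3 := dvd_sub (dvd_sub hd h2) h1
      have e1 : v + 3 ^ (s + 1) * v ^ 2 + 3 ^ (2 * s + 1) * v ^ 3 - 3 ^ (2 * s + 1) * v ^ 3 -
          3 ^ (s + 1) * v ^ 2 = v := by ring
      rwa [e1] at h3
    · rw [pow_succ 3 j, pow_mul, h, ← add_assoc, hs]
      ring

/-- The powers of `1 + 3^e u` are dense in `1 + 3^e ℤ_3`. -/
lemma exists_pow_cong {e : ℕ} (he : 1 ≤ e) {u : ℤ} (hu : ¬ (3 : ℤ) ∣ u) (B : ℕ) :
    ∀ z : ℤ, (3 : ℤ) ^ e ∣ z - 1 →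
      ∃ k < 3 ^ B, (3 : ℤ) ^ (e + B) ∣ z - (1 + 3 ^ e * u) ^ k := by
  induction B with
  | zero => intro z hz; exact ⟨0, by norm_num, by simpa using hz⟩
  | succ B ih =>
    intro z hz
    obtain ⟨k, hk, s, hs⟩ := ih z hz
    obtain ⟨v, hv, h⟩ := pow_three_pow he hu B
    set g : ℤ := 1 + 3 ^ e * u with hg
    obtain ⟨w, hw⟩ : ∃ w : ℤ, g ^ k = 1 + 3 * w := by
      have h1 : (3 : ℤ) ∣ g - 1 := by
        rw [hg]
        obtain ⟨e', rfl⟩ : ∃ e', e = e' + 1 := ⟨e - 1, by omega⟩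
        exact ⟨3 ^ e' * u, by ring⟩
      have h2 : g - 1 ∣ g ^ k - 1 := sub_one_dvd_pow_sub_one g k
      obtain ⟨w, hw⟩ := h1.trans h2
      exact ⟨w, by linarith⟩
    obtain ⟨t, ht, q, hq⟩ : ∃ t : ℕ, t < 3 ∧ (3 : ℤ) ∣ s - t * v := by
      have hv3 : v % 3 = 1 ∨ v % 3 = 2 := by omega
      have hs3 : s % 3 = 0 ∨ s % 3 = 1 ∨ s % 3 = 2 := by omega
      rcases hv3 with hv3 | hv3 <;> rcases hs3 with hs3 | hs3 | hs3
      · exact ⟨0, by norm_num, by push_cast; omega⟩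
      · exact ⟨1, by norm_num, by push_cast; omega⟩
      · exact ⟨2, by norm_num, by push_cast; omega⟩
      · exact ⟨0, by norm_num, by push_cast; omega⟩
      · exact ⟨2, by norm_num, by push_cast; omega⟩
      · exact ⟨1, by norm_num, by push_cast; omega⟩
    refine ⟨k + 3 ^ B * t, ?_, ?_⟩
    · have : 3 ^ B * t ≤ 3 ^ B * 2 := Nat.mul_le_mul_left _ (by omega)
      rw [pow_succ]
      omega
    · have hz' : z = 3 ^ (e + B) * s + g ^ k := by linarith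
      have hsq : s = t * v + 3 * q := by linarith
      rw [pow_add g, pow_mul, h, hz', hsq, ← add_assoc, pow_succ]
      obtain ⟨E, hE⟩ : ∃ E, e + B = E + 1 := ⟨e + B - 1, by omega⟩
      rw [hE]
      interval_cases t
      · exact ⟨q, by push_cast; ring⟩
      · refine ⟨q - w * v, ?_⟩
        rw [hw]
        push_cast
        ring
      · refine ⟨q - 2 * w * v - (1 + 3 * w) * 3 ^ E * v ^ 2, ?_⟩
        rw [hw]
        push_cast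
        ring

lemma col_iter_two_pow (i n : ℕ) : col^[i] (2 ^ i * n) = n := by
  induction i with
  | zero => simp
  | succ i ih =>
    rw [Function.iterate_succ_apply, pow_succ, show 2 ^ i * 2 * n = 2 * (2 ^ i * n) by ring,
      col_two_mul, ih]

/-- Inverse modulo a power of three. -/
lemma exists_inv {m : ℤ} (hm : ¬ (3 : ℤ) ∣ m) (B : ℕ) : ∃ w : ℤ, (3 : ℤ) ^ B ∣ m * w - 1 := by
  have hc : IsCoprime m ((3 : ℤ) ^ B) := by
    apply IsCoprime.pow_right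
    exact ((Int.prime_three.coprime_iff_not_dvd).2 hm).symm
  obtain ⟨a, b, hab⟩ := hc
  exact ⟨a, -b, by linarith⟩

/-- Solve `m x ≡ z` modulo a power of three. -/
lemma exists_solve {m : ℤ} (hm : ¬ (3 : ℤ) ∣ m) (B : ℕ) (z : ℤ) :
    ∃ x : ℤ, (3 : ℤ) ^ B ∣ m * x - z := by
  obtain ⟨w, q, hq⟩ := exists_inv hm B
  exact ⟨w * z, q * z, by linear_combination z * hq⟩

lemma dvd_of_mul {m : ℤ} (hm : ¬ (3 : ℤ) ∣ m) {d : ℕ} {x : ℤ} (h : (3 : ℤ) ^ d ∣ m * x) :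
    (3 : ℤ) ^ d ∣ x := by
  have hc : IsCoprime ((3 : ℤ) ^ d) m := by
    apply IsCoprime.pow_left
    exact (Int.prime_three.coprime_iff_not_dvd).2 hm
  exact hc.dvd_of_dvd_mul_left h

lemma not_dvd_two_pow (i : ℕ) : ¬ (3 : ℤ) ∣ 2 ^ i := by
  intro h
  have := Int.prime_three.dvd_of_dvd_pow h
  omega

/-- All residues `z ≡ y mod 3^d` are attained modulo `3^B` by small ancestors of `m` that are
`≡ c mod N`. -/
def Hit (N m K L d B : ℕ) (y : ℤ) (c : ZMod N) : Prop :=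
  ∀ z : ℤ, (3 : ℤ) ^ d ∣ z - y → ∃ n : ℕ, 0 < n ∧ n ≤ K * m ∧ (∃ k ≤ L, col^[k] n = m) ∧
    (3 : ℤ) ^ B ∣ (n : ℤ) - z ∧ (n : ZMod N) = c

lemma Hit.mono {N m K L d B K' L' B' : ℕ} {y : ℤ} {c : ZMod N} (h : Hit N m K L d B y c)
    (hK : K ≤ K') (hL : L ≤ L') (hB : B' ≤ B) : Hit N m K' L' d B' y c := by
  intro z hz
  obtain ⟨n, h0, h1, ⟨k, hk, h2⟩, h3, h4⟩ := h z hz
  exact ⟨n, h0, h1.trans (Nat.mul_le_mul_right _ hK), ⟨k, hk.trans hL, h2⟩,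
    (pow_dvd_pow 3 hB).trans h3, h4⟩

lemma hit_start {N m H e : ℕ} {u : ℤ} (B : ℕ) (hm : 0 < m) (hm3 : ¬ 3 ∣ m) (he : 1 ≤ e)
    (hu : ¬ (3 : ℤ) ∣ u) (hH : (2 : ℤ) ^ H = 1 + 3 ^ e * u) (hN : (2 : ZMod N) ^ H = 1) :
    Hit N m (2 ^ (H * 3 ^ B)) (H * 3 ^ B) e (e + B) m (m : ZMod N) := by
  intro z hz
  have hm3' : ¬ (3 : ℤ) ∣ (m : ℤ) := by
    intro h; apply hm3; exact_mod_cast h
  obtain ⟨w, q, hq⟩ := exists_inv hm3' (e + B)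
  have h1 : (3 : ℤ) ^ e ∣ z * w - 1 := by
    obtain ⟨r, hr⟩ := hz
    refine ⟨r * w + 3 ^ B * q, ?_⟩
    rw [pow_add] at hq
    linear_combination w * hr + hq
  obtain ⟨k, hk, s, hs⟩ := exists_pow_cong he hu B (z * w) h1
  refine ⟨2 ^ (H * k) * m, by positivity, ?_, ⟨H * k, ?_, col_iter_two_pow _ _⟩, ?_, ?_⟩
  · exact Nat.mul_le_mul_right _ (Nat.pow_le_pow_right (by norm_num) (Nat.mul_le_mul_left _ hk.le))
  · exact Nat.mul_le_mul_left _ hk.le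
  · refine ⟨z * q - m * s, ?_⟩
    push_cast
    rw [pow_mul, hH]
    linear_combination z * hq - m * hs
  · push_cast
    rw [pow_mul, hN, one_pow, one_mul]

/-- An odd backward step: from `n` to `(2^i n - 1)/3`. -/
lemma back_step {N m K L B i : ℕ} {z z0 : ℤ} {c : ZMod N} (hi : 1 ≤ i) (h3 : IsUnit (3 : ZMod N))
    (hz0 : (3 : ℤ) ^ (B + 1) ∣ 2 ^ i * z0 - (3 * z + 1))
    (h : ∃ n : ℕ, 0 < n ∧ n ≤ K * m ∧ (∃ k ≤ L, col^[k] n = m) ∧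
      (3 : ℤ) ^ (B + 1) ∣ (n : ℤ) - z0 ∧ (n : ZMod N) = c) :
    ∃ n : ℕ, 0 < n ∧ n ≤ 2 ^ i * K * m ∧ (∃ k ≤ L + i + 1, col^[k] n = m) ∧
      (3 : ℤ) ^ B ∣ (n : ℤ) - z ∧ (n : ZMod N) = (2 ^ i * c - 1) * (3 : ZMod N)⁻¹ := by
  obtain ⟨n, h0, h1, ⟨k, hk, h2⟩, ⟨q, hq⟩, h4⟩ := h
  obtain ⟨p, hp⟩ := hz0
  have hdiff : (2 : ℤ) ^ i * n - (3 * z + 1) = 3 ^ (B + 1) * (p + 2 ^ i * q) := by
    linear_combination hp + 2 ^ i * hq
  have hdvd : (3 : ℤ) ∣ 2 ^ i * n - 1 := by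
    refine ⟨3 ^ B * (p + 2 ^ i * q) + z, ?_⟩
    rw [pow_succ] at hdiff
    linear_combination hdiff
  obtain ⟨i', rfl⟩ : ∃ i', i = i' + 1 := ⟨i - 1, by omega⟩
  have hge : 2 ≤ 2 ^ (i' + 1) * n := by
    have h5 : 1 ≤ 2 ^ i' := Nat.one_le_two_pow
    rw [pow_succ]
    nlinarith
  obtain ⟨n', hn'⟩ : ∃ n' : ℕ, 3 * n' + 1 = 2 ^ (i' + 1) * n := by
    obtain ⟨a, ha⟩ := hdvd
    have h6 : (2 : ℤ) ≤ 2 ^ (i' + 1) * n := by exact_mod_cast hge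
    refine ⟨a.toNat, ?_⟩
    have h7 : 0 ≤ a := by omega
    zify
    rw [Int.toNat_of_nonneg h7]
    linarith
  have hodd : col n' = 2 ^ (i' + 1) * n := by
    have : col n' = 2 * (2 ^ i' * n) := col_odd (by rw [hn']; ring)
    rw [this]; ring
  refine ⟨n', by omega, ?_, ⟨k + (i' + 1) + 1, by omega, ?_⟩, ?_, ?_⟩
  · calc n' ≤ 2 ^ (i' + 1) * n := by omega
      _ ≤ 2 ^ (i' + 1) * (K * m) := Nat.mul_le_mul_left _ h1
      _ = _ := by ring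
  · rw [Function.iterate_succ_apply, hodd, Function.iterate_add_apply, col_iter_two_pow, h2]
  · have h8 : (3 : ℤ) ^ (B + 1) ∣ 3 * ((n' : ℤ) - z) := by
      refine ⟨p + 2 ^ (i' + 1) * q, ?_⟩
      rw [← hdiff]
      have : (3 : ℤ) * n' + 1 = 2 ^ (i' + 1) * n := by exact_mod_cast hn'
      linear_combination this
    rw [pow_succ'] at h8
    exact (mul_dvd_mul_iff_left (by norm_num)).1 h8
  · have h9 : (3 : ZMod N) * (n' : ZMod N) + 1 = 2 ^ (i' + 1) * (n : ZMod N) := by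
      exact_mod_cast congrArg (Nat.cast (R := ZMod N)) hn'
    rw [h4] at h9
    rw [← h9]
    have h10 : (3 : ZMod N) * (3 : ZMod N)⁻¹ = 1 := ZMod.mul_inv_of_unit _ h3
    linear_combination (-(n' : ZMod N)) * h10

lemma hit_peel {N m K L d B : ℕ} {y : ℤ} {c : ZMod N} (h3 : IsUnit (3 : ZMod N))
    (hy : ¬ (3 : ℤ) ∣ y) (h : Hit N m K L (d + 1) (B + 1) y c) :
    ∃ (y' : ℤ) (c' : ZMod N), ¬ (3 : ℤ) ∣ y' ∧ Hit N m (2 ^ 6 * K) (L + 7) d B y' c' := by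
  obtain ⟨i, hi1, hi6, y', hy'⟩ : ∃ i : ℕ, 1 ≤ i ∧ i ≤ 6 ∧ ∃ y' : ℤ, 2 ^ i * y - 1 = 9 * y' + 3 := by
    have h9 : y % 9 = 1 ∨ y % 9 = 2 ∨ y % 9 = 4 ∨ y % 9 = 5 ∨ y % 9 = 7 ∨ y % 9 = 8 := by omega
    rcases h9 with h9 | h9 | h9 | h9 | h9 | h9
    · exact ⟨2, by norm_num, by norm_num, (2 ^ 2 * y - 4) / 9, by omega⟩
    · exact ⟨1, by norm_num, by norm_num, (2 ^ 1 * y - 4) / 9, by omega⟩
    · exact ⟨6, by norm_num, by norm_num, (2 ^ 6 * y - 4) / 9, by omega⟩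
    · exact ⟨3, by norm_num, by norm_num, (2 ^ 3 * y - 4) / 9, by omega⟩
    · exact ⟨4, by norm_num, by norm_num, (2 ^ 4 * y - 4) / 9, by omega⟩
    · exact ⟨5, by norm_num, by norm_num, (2 ^ 5 * y - 4) / 9, by omega⟩
  refine ⟨3 * y' + 1, (2 ^ i * c - 1) * (3 : ZMod N)⁻¹, by omega, ?_⟩
  intro z hz
  obtain ⟨z0, hz0⟩ := exists_solve (not_dvd_two_pow i) (B + 1 + (d + 1)) (3 * z + 1)
  have hzy : (3 : ℤ) ^ (d + 1) ∣ z0 - y := by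
    apply dvd_of_mul (not_dvd_two_pow i)
    obtain ⟨p, hp⟩ := (pow_dvd_pow 3 (show d + 1 ≤ B + 1 + (d + 1) by omega)).trans hz0
    obtain ⟨q, hq⟩ := hz
    refine ⟨p + q, ?_⟩
    rw [pow_succ] at hp ⊢
    linear_combination hp + 3 * hq - hy'
  have hz1 : (3 : ℤ) ^ (B + 1) ∣ 2 ^ i * z0 - (3 * z + 1) :=
    (pow_dvd_pow 3 (by omega)).trans hz0
  obtain ⟨n, a1, a2, ⟨k, hk, a3⟩, a4, a5⟩ := back_step hi1 h3 hz1 (h z0 hzy)
  refine ⟨n, a1, ?_, ⟨k, by omega, a3⟩, a4, a5⟩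
  refine a2.trans (Nat.mul_le_mul_right _ (Nat.mul_le_mul_right _ ?_))
  exact Nat.pow_le_pow_right (by norm_num) hi6

lemma hit_free {N m : ℕ} (h3 : IsUnit (3 : ZMod N)) (d : ℕ) :
    ∀ (K L B : ℕ) (y : ℤ) (c : ZMod N), ¬ (3 : ℤ) ∣ y → Hit N m K L d (d + B) y c →
      ∃ (y' : ℤ) (c' : ZMod N), Hit N m (2 ^ (6 * d) * K) (L + 7 * d) 0 B y' c' := by
  induction d with
  | zero =>
    intro K L B y c hy h
    exact ⟨y, c, by simpa using h⟩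
  | succ d ih =>
    intro K L B y c hy h
    have h' : Hit N m K L (d + 1) ((d + B) + 1) y c := by
      rwa [show d + B + 1 = d + 1 + B by ring]
    obtain ⟨y', c', hy', h1⟩ := hit_peel h3 hy h'
    obtain ⟨y'', c'', h2⟩ := ih _ _ _ _ _ hy' h1
    refine ⟨y'', c'', h2.mono ?_ ?_ le_rfl⟩
    · apply le_of_eq; ring
    · omega

end Pool.Agent.Lib.MP_e43fce_nt.KL
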